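import Pool.Agent.J4H18.LT.B1

/-!
The dissipation after almost every time.
-/

set_option autoImplicit false

open MeasureTheory Set Filter Topology
open scoped InnerProductSpace

namespace Pool.Agent.J4H18.LT

open H772R2.NSR (Frame prim_cont grad_unique)
open H772R2.NSG (LH dft Coef ii_of_int)
open Pool.Agent.W795.TQ (FH Univ)
open Pool.Agent.W795.HE
open Pool.Agent.W933.HE (coef dft_sub)

/-- Approximation of the elements of `W` by smooth fields, at the scale `l`. -/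
structure Apx {H K : Type} [NormedAddCommGroup H] [InnerProductSpace ℝ H]
    [NormedAddCommGroup K] [InnerProductSpace ℝ K] (W : Submodule ℝ (H × K)) (m : H → K)
    (A l0 : ℝ) : Prop where
  A0 : 0 < A
  l00 : 0 < l0
  app : ∀ l : ℝ, 0 < l → l ≤ l0 → ∀ p ∈ W, ∃ q ∈ W, ∃ n : H,
    ‖p.1 - q.1‖ ≤ A * l * ‖p.2‖ ∧ ‖q.2‖ ≤ A * ‖p.2‖ ∧
    (∀ r ∈ W, |⟪m r.1, q.2⟫_ℝ| * (l * √l) ≤ A * ‖p.2‖ * ‖r.1‖ ^ 2) ∧
    (∀ r ∈ W, ⟪m q.1, r.2⟫_ℝ = -⟪n, r.1⟫_ℝ) ∧ ‖n‖ ^ 2 * l ≤ A ^ 2 * ‖p.2‖ ^ 4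

/-- elementary: `h X ≤ X^{5/3} h^{4/3} + √h` -/
theorem mid_le {h X : ℝ} (hh : 0 < h) (hX : 0 < X) :
    h * X ≤ X ^ (5 / 3 : ℝ) * h ^ (4 / 3 : ℝ) + √h := by
  have hs := Real.sqrt_pos.2 hh
  have hq : √h * √h = h := Real.mul_self_sqrt hh.le
  have hp : 0 < X ^ (5 / 3 : ℝ) * h ^ (4 / 3 : ℝ) := by positivity
  rcases le_total (X * √h) 1 with h1 | h1
  · have : h * X ≤ √h := by
      calc h * X = √h * (X * √h) := by rw [← hq]; simp only [hq]; nlinarith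
        _ ≤ √h * 1 := by gcongr
        _ = √h := mul_one _
    linarith
  · have h2 : 1 ≤ (X * √h) ^ (2 / 3 : ℝ) := Real.one_le_rpow h1 (by norm_num)
    rw [Real.mul_rpow hX.le hs.le] at h2
    have e1 : √h ^ (2 / 3 : ℝ) = h ^ (1 / 3 : ℝ) := by
      rw [Real.sqrt_eq_rpow, ← Real.rpow_mul hh.le]
      norm_num
    have e2 : X ^ (5 / 3 : ℝ) = X * X ^ (2 / 3 : ℝ) := by
      rw [← Real.rpow_one_add' hX.le (by norm_num)]
      norm_num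
    have e3 : h ^ (4 / 3 : ℝ) = h * h ^ (1 / 3 : ℝ) := by
      rw [← Real.rpow_one_add' hh.le (by norm_num)]
      norm_num
    rw [e1] at h2
    have : h * X * 1 ≤ h * X * (X ^ (2 / 3 : ℝ) * h ^ (1 / 3 : ℝ)) := by gcongr
    rw [e2, e3]
    nlinarith

theorem pow_l {P : ℝ} (hP : 0 < P) : P ^ (2 / 3 : ℝ) * √(P ^ (2 / 3 : ℝ)) = P ∧
    (P ^ (2 / 3 : ℝ)) ^ 2 = P ^ (4 / 3 : ℝ) := by
  constructor
  · rw [Real.sqrt_eq_rpow, ← Real.rpow_mul hP.le, ← Real.rpow_add hP]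
    norm_num
  · rw [← Real.rpow_natCast, ← Real.rpow_mul hP.le]
    norm_num

section

variable {H K : Type} [NormedAddCommGroup H] [InnerProductSpace ℝ H] [CompleteSpace H]
  [NormedAddCommGroup K] [InnerProductSpace ℝ K] [CompleteSpace K]
variable {W : Submodule ℝ (H × K)} {m : H → K} {C ν T A l0 : ℝ} {F F1 : ℝ → K} {x0 : H}
  {u : ℝ → H} {z : ℝ → K}

/-- the estimate with the best scale -/
theorem best (Fr : Frame W m C) (Ap : Apx W m A l0) (hν : 0 < ν) (hT : 0 < T)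
    (hFc : ContinuousOn F (Icc 0 T)) {z0 : K} (h0 : (x0, z0) ∈ W)
    (L : LH W m T (fun _ => ν) F x0 u z) {Φ : ℝ} (hΦ : ∀ t ∈ Icc 0 T, ‖F t‖ ≤ Φ)
    {X : ℝ} (hX : 0 < X) (hzX : ‖z0‖ ^ 2 ≤ X) (hsc : (8 * A * (T * √X)) ^ (2 / 3 : ℝ) ≤ l0) :
    ν * (∫ s in (0 : ℝ)..T, ‖z s‖ ^ 2) ≤
      (4 * A ^ 2 + 1 / 4) * (8 * A) ^ (4 / 3 : ℝ) * (X ^ (5 / 3 : ℝ) * T ^ (4 / 3 : ℝ))
        + 8 * ν * A ^ 2 * (T * X) + 12 * Φ ^ 2 / ν * T := by
  have hA := Ap.A0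
  set P : ℝ := 8 * A * (T * √X) with hP
  have hsX := Real.sqrt_pos.2 hX
  have hP0 : 0 < P := by positivity
  obtain ⟨hl1, hl2⟩ := pow_l hP0
  set l : ℝ := P ^ (2 / 3 : ℝ) with hl
  have hl0 : 0 < l := Real.rpow_pos_of_pos hP0 _
  obtain ⟨q, hq, n, a1, a2, a3, a4, a5⟩ := Ap.app l hl0 hsc _ h0
  simp only at a1 a2 a3 a5
  have hz : ‖z0‖ ≤ √X := Real.le_sqrt_of_sq_le hzX
  have hXX : √X ^ 2 = X := Real.sq_sqrt hX.le
  -- the constant G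
  have hG : ∀ r ∈ W, |⟪m r.1, q.2⟫_ℝ| ≤ (A * √X / P) * ‖r.1‖ ^ 2 := by
    intro r hr
    have h1 := a3 r hr
    rw [hl1] at h1
    have h2 : |⟪m r.1, q.2⟫_ℝ| * P ≤ A * √X * ‖r.1‖ ^ 2 := h1.trans (by gcongr)
    rw [← le_div_iff₀ hP0] at h2
    refine h2.trans (le_of_eq ?_)
    ring
  have hGT : T * (A * √X / P) ≤ 1 / 8 := by
    rw [← mul_div_assoc, div_le_iff₀ hP0, hP]
    linarith
  have h1 := cmp Fr hν hT hFc L hΦ hq (by positivity) hG a4 hGT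
  -- the terms
  have hl4 : l ^ 2 * X = (8 * A) ^ (4 / 3 : ℝ) * (X ^ (5 / 3 : ℝ) * T ^ (4 / 3 : ℝ)) := by
    rw [hl2, hP, Real.mul_rpow (by positivity) (by positivity),
      Real.mul_rpow hT.le (Real.sqrt_nonneg _)]
    have e1 : √X ^ (4 / 3 : ℝ) = X ^ (2 / 3 : ℝ) := by
      rw [Real.sqrt_eq_rpow, ← Real.rpow_mul hX.le]
      norm_num
    have e2 : X ^ (5 / 3 : ℝ) = X * X ^ (2 / 3 : ℝ) := by
      rw [← Real.rpow_one_add' hX.le (by norm_num)]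
      norm_num
    rw [e1, e2]
    ring
  have t1 : ‖x0 - q.1‖ ^ 2 ≤ A ^ 2 * (l ^ 2 * X) := by
    calc ‖x0 - q.1‖ ^ 2 ≤ (A * l * ‖z0‖) ^ 2 := by gcongr
      _ = A ^ 2 * (l ^ 2 * ‖z0‖ ^ 2) := by ring
      _ ≤ A ^ 2 * (l ^ 2 * X) := by gcongr
  have t2 : ‖q.2‖ ^ 2 ≤ A ^ 2 * X := by
    calc ‖q.2‖ ^ 2 ≤ (A * ‖z0‖) ^ 2 := by gcongr
      _ = A ^ 2 * ‖z0‖ ^ 2 := by ring
      _ ≤ A ^ 2 * X := by gcongr
  have t3 : (T * ‖n‖) ^ 2 ≤ l ^ 2 * X / 64 := by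
    have h2 : ‖n‖ ^ 2 * l ≤ A ^ 2 * X ^ 2 := by
      refine a5.trans ?_
      have : ‖z0‖ ^ 4 ≤ X ^ 2 := by
        calc ‖z0‖ ^ 4 = (‖z0‖ ^ 2) ^ 2 := by ring
          _ ≤ X ^ 2 := by gcongr
      gcongr
    have h3 : l ^ 3 = P ^ 2 := by
      have : (l * √l) ^ 2 = P ^ 2 := by rw [hl1]
      rw [mul_pow, Real.sq_sqrt hl0.le] at this
      rw [← this]; ring
    have h4 : P ^ 2 = 64 * A ^ 2 * (T ^ 2 * X) := by
      rw [hP]
      calc (8 * A * (T * √X)) ^ 2 = 64 * A ^ 2 * (T ^ 2 * √X ^ 2) := by ring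
        _ = _ := by rw [hXX]
    have h5 : (T * ‖n‖) ^ 2 * l ^ 3 ≤ l ^ 2 * X / 64 * l ^ 3 := by
      calc (T * ‖n‖) ^ 2 * l ^ 3 = T ^ 2 * l ^ 2 * (‖n‖ ^ 2 * l) := by ring
        _ ≤ T ^ 2 * l ^ 2 * (A ^ 2 * X ^ 2) := by gcongr
        _ = l ^ 2 * X / 64 * (64 * A ^ 2 * (T ^ 2 * X)) := by ring
        _ = l ^ 2 * X / 64 * l ^ 3 := by rw [h3, h4]
    exact le_of_mul_le_mul_right h5 (by positivity)
  have e3 : (4 * A ^ 2 + 1 / 4) * (8 * A) ^ (4 / 3 : ℝ) * (X ^ (5 / 3 : ℝ) * T ^ (4 / 3 : ℝ))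
      = (4 * A ^ 2 + 1 / 4) * (l ^ 2 * X) := by rw [hl4]; ring
  rw [e3]
  have t4 : 8 * (T * (ν * ‖q.2‖ ^ 2 + 3 / 2 * Φ ^ 2 / ν)) ≤
      8 * (T * (ν * (A ^ 2 * X) + 3 / 2 * Φ ^ 2 / ν)) := by gcongr
  have e4 : 8 * (T * (ν * (A ^ 2 * X) + 3 / 2 * Φ ^ 2 / ν)) =
      8 * ν * A ^ 2 * (T * X) + 12 * Φ ^ 2 / ν * T := by ring
  linarith

/-- Property P2. -/
theorem p2 (hsh : S_shift) (Fr : Frame W m C) (Ap : Apx W m A l0) (hν : 0 < ν) (hT : 0 < T)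
    (hF : FH T F F1) (L : LH W m T (fun _ => ν) F x0 u z) (hSE : SE ν T F u z) {Kc : ℝ}
    (hK : 0 ≤ Kc) : ∃ C2 : ℝ, 0 < C2 ∧ ∀ᵐ s ∂(volume.restrict (Ioc 0 T)),
      ∀ h : ℝ, 0 < h → h ≤ 1 → s + h ≤ T → ∫ r in s..(s + h), (‖z r‖ ^ 2 + Kc + 1) ≤
        C2 * ((‖z s‖ ^ 2 + Kc + 1) ^ (5 / 3 : ℝ) * h ^ (4 / 3 : ℝ) + √h) := by
  have hFc : ContinuousOn F (Icc 0 T) := prim_cont hF.memLp hF.prim
  have Co : Coef ν T (fun _ => ν) F := coef hFc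
  obtain ⟨Φ, hΦ0, hΦ⟩ := force_bd hF
  have hA := Ap.A0
  have hl0 := Ap.l00
  set E0 : ℝ := ∫ s in (0 : ℝ)..T, ‖z s‖ ^ 2 with hE0
  have hE00 : 0 ≤ E0 := intervalIntegral.integral_nonneg hT.le fun s _ => by positivity
  set κ : ℝ := (l0 ^ (3 / 2 : ℝ) / (8 * A)) ^ (10 / 3 : ℝ) with hκ
  have hκ0 : 0 < κ := by positivity
  set B1 : ℝ := (4 * A ^ 2 + 1 / 4) * (8 * A) ^ (4 / 3 : ℝ) with hB1
  have hB10 : 0 < B1 := by positivity
  refine ⟨(B1 / ν + 8 * A ^ 2 + 12 * Φ ^ 2 / ν ^ 2) + E0 / κ + (Kc + 1), by positivity, ?_⟩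
  filter_upwards [hsh H K W m C ν T F F1 x0 u z Fr hν hT hF L hSE,
    ae_restrict_mem measurableSet_Ioc] with s hs hsm h hh hh1 hhT
  obtain ⟨hmem, hs⟩ := hs
  obtain ⟨k1, k2, -, -⟩ := hs h hh hhT
  set X : ℝ := ‖z s‖ ^ 2 + Kc + 1 with hX
  have hX1 : 1 ≤ X := by
    have : 0 ≤ ‖z s‖ ^ 2 := by positivity
    linarith
  have hX0 : 0 < X := by linarith
  have hzX : ‖z s‖ ^ 2 ≤ X := by linarith
  set E : ℝ := X ^ (5 / 3 : ℝ) * h ^ (4 / 3 : ℝ) + √h with hE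
  have hXh : 0 < X ^ (5 / 3 : ℝ) * h ^ (4 / 3 : ℝ) := by positivity
  have hsq := Real.sqrt_pos.2 hh
  have hE1 : 0 < E := by positivity
  have hhs : h ≤ √h := by
    have h1 : √h ≤ 1 := Real.sqrt_le_one.2 hh1
    calc h = √h * √h := (Real.mul_self_sqrt hh.le).symm
      _ ≤ √h * 1 := by gcongr
      _ = √h := mul_one _
  have hhE : h ≤ E := by linarith
  have i1 : IntervalIntegrable (fun r => ‖z r‖ ^ 2) volume s (s + h) :=
    ii_of_int (zsq_int L) hsm.1.le (by linarith) hhT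
  -- the integral of the constant
  have e1 : ∫ r in s..(s + h), (‖z r‖ ^ 2 + Kc + 1) =
      (∫ r in s..(s + h), ‖z r‖ ^ 2) + h * (Kc + 1) := by
    simp_rw [add_assoc]
    rw [intervalIntegral.integral_add i1 intervalIntegrable_const, intervalIntegral.integral_const,
      smul_eq_mul]
    ring
  rw [e1]
  have hc : h * (Kc + 1) ≤ (Kc + 1) * E := by
    rw [mul_comm]
    gcongr
  have hmain : ∫ r in s..(s + h), ‖z r‖ ^ 2 ≤
      ((B1 / ν + 8 * A ^ 2 + 12 * Φ ^ 2 / ν ^ 2) + E0 / κ) * E := by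
    rcases le_or_gt ((8 * A * (h * √X)) ^ (2 / 3 : ℝ)) l0 with hcase | hcase
    · have h1 := best Fr Ap hν hh (prim_cont k2.memLp k2.prim) hmem k1 (Φ := Φ)
        (fun t ht => hΦ _ ⟨by linarith [hsm.1, ht.1], by linarith [ht.2]⟩) hX0 hzX hcase
      have e2 : ∫ r in (0 : ℝ)..h, ‖z (s + r)‖ ^ 2 = ∫ r in s..(s + h), ‖z r‖ ^ 2 := by
        have := intervalIntegral.integral_comp_add_left (fun r => ‖z r‖ ^ 2) s (a := 0) (b := h)
        simpa using this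
      rw [e2] at h1
      have h2 := mid_le hh hX0
      rw [← hB1] at h1
      have h3 : ν * (∫ r in s..(s + h), ‖z r‖ ^ 2) ≤
          ν * ((B1 / ν + 8 * A ^ 2 + 12 * Φ ^ 2 / ν ^ 2) * E) := by
        have e3 : ν * ((B1 / ν + 8 * A ^ 2 + 12 * Φ ^ 2 / ν ^ 2) * E) =
            B1 * E + 8 * ν * A ^ 2 * E + 12 * Φ ^ 2 / ν * E := by
          field_simp
        rw [e3]
        refine h1.trans ?_
        have g1 : X ^ (5 / 3 : ℝ) * h ^ (4 / 3 : ℝ) ≤ E := by linarith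
        gcongr
      have h4 := le_of_mul_le_mul_left h3 hν
      have h5 : 0 ≤ E0 / κ * E := by positivity
      linarith
    · have hP0 : 0 < 8 * A * (h * √X) := by positivity
      have h1 : l0 ^ (3 / 2 : ℝ) ≤ 8 * A * (h * √X) := by
        calc l0 ^ (3 / 2 : ℝ) ≤ ((8 * A * (h * √X)) ^ (2 / 3 : ℝ)) ^ (3 / 2 : ℝ) := by
              gcongr
          _ = 8 * A * (h * √X) := by
              rw [← Real.rpow_mul hP0.le]
              norm_num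
      have h2 : l0 ^ (3 / 2 : ℝ) / (8 * A) ≤ h * √X := by
        rw [div_le_iff₀ (by positivity)]
        linarith
      have h3 : κ ≤ X ^ (5 / 3 : ℝ) * h ^ (4 / 3 : ℝ) := by
        calc κ ≤ (h * √X) ^ (10 / 3 : ℝ) := by
              rw [hκ]
              gcongr
          _ = h ^ (10 / 3 : ℝ) * X ^ (5 / 3 : ℝ) := by
              rw [Real.mul_rpow hh.le (Real.sqrt_nonneg _), Real.sqrt_eq_rpow,
                ← Real.rpow_mul hX0.le]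
              norm_num
          _ ≤ h ^ (4 / 3 : ℝ) * X ^ (5 / 3 : ℝ) := by
              gcongr ?_ * _
              exact Real.rpow_le_rpow_of_exponent_ge hh hh1 (by norm_num)
          _ = _ := mul_comm _ _
      have h4 : κ ≤ E := by linarith
      have h5 : ∫ r in s..(s + h), ‖z r‖ ^ 2 ≤ E0 := by
        rw [hE0]
        refine intervalIntegral.integral_mono_interval hsm.1.le (by linarith) hhT
          (Eventually.of_forall fun r => by positivity) ?_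
        exact ii_of_int (zsq_int L) le_rfl hT.le le_rfl
      calc ∫ r in s..(s + h), ‖z r‖ ^ 2 ≤ E0 := h5
        _ = E0 / κ * κ := by field_simp
        _ ≤ E0 / κ * E := by gcongr
        _ ≤ ((B1 / ν + 8 * A ^ 2 + 12 * Φ ^ 2 / ν ^ 2) + E0 / κ) * E := by
            gcongr
            have : 0 ≤ B1 / ν + 8 * A ^ 2 + 12 * Φ ^ 2 / ν ^ 2 := by positivity
            linarith
  linarith

end

end Pool.Agent.J4H18.LT
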