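import Pool.Agent.J4H18.LT.C6
import Pool.Agent.J4H18.LT.B2

/-!
Approximation in the space `V`.
-/

set_option autoImplicit false

open MeasureTheory Set Filter Topology Metric
open scoped InnerProductSpace ENNReal ContDiff NNReal

namespace Pool.Agent.J4H18.LT

open H772R2.NS
open Pool.Agent.W52.TQ (tns)

section hol

variable {α : Type*} {mα : MeasurableSpace α} {μ : Measure α}

theorem holder3 {a b : α → ℝ≥0∞} (ha : AEMeasurable a μ) (hb : AEMeasurable b μ) :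
    (∫⁻ x, a x ^ 2 * b x ^ 2 ∂μ) ^ 3 ≤ (∫⁻ x, a x ^ 6 ∂μ) * (∫⁻ x, b x ^ 3 ∂μ) ^ 2 := by
  have hpq : Real.HolderConjugate 3 (3 / 2) := by
    rw [Real.holderConjugate_iff]
    norm_num
  have h := ENNReal.lintegral_mul_le_Lp_mul_Lq μ hpq (ha.pow_const 2) (hb.pow_const 2)
  have h2 : (∫⁻ x, a x ^ 2 * b x ^ 2 ∂μ) ^ 3 ≤
      ((∫⁻ x, (a x ^ 2) ^ (3 : ℝ) ∂μ) ^ ((1 : ℝ) / 3) *
        (∫⁻ x, (b x ^ 2) ^ (3 / 2 : ℝ) ∂μ) ^ ((1 : ℝ) / (3 / 2))) ^ 3 :=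
    pow_le_pow_left' h 3
  refine h2.trans (le_of_eq ?_)
  have e1 : ∀ x, (a x ^ 2) ^ (3 : ℝ) = a x ^ 6 := by
    intro x
    rw [← ENNReal.rpow_natCast, ← ENNReal.rpow_natCast, ← ENNReal.rpow_mul]
    norm_num
  have e2 : ∀ x, (b x ^ 2) ^ (3 / 2 : ℝ) = b x ^ 3 := by
    intro x
    rw [← ENNReal.rpow_natCast, ← ENNReal.rpow_natCast, ← ENNReal.rpow_mul]
    norm_num
  simp only [e1, e2]
  rw [mul_pow, ← ENNReal.rpow_natCast, ← ENNReal.rpow_natCast, ← ENNReal.rpow_natCast,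
    ← ENNReal.rpow_mul, ← ENNReal.rpow_mul]
  norm_num

end hol

/-- the convective term of a test field -/
noncomputable def cvt (φ : E3 → E3) (x : E3) : E3 := fderiv ℝ φ x (φ x)

theorem cvt_cont {φ : E3 → E3} (hφ : ContDiff ℝ ∞ φ) : Continuous (cvt φ) :=
  (hφ.continuous_fderiv (by simp)).clm_apply hφ.continuous

theorem cvt_compact {φ : E3 → E3} (hc : HasCompactSupport φ) : HasCompactSupport (cvt φ) := by
  refine hc.mono fun x hx => ?_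
  intro h0
  apply hx
  unfold cvt
  rw [h0, map_zero]

theorem cvt_inner (φ : E3 → E3) (x v : E3) : ⟪jac φ x, tns v (φ x)⟫_ℝ = ⟪cvt φ x, v⟫_ℝ := by
  rw [inner_M3, inner_E3]
  refine Finset.sum_congr rfl fun i _ => ?_
  have e : cvt φ x i = ∑ j, φ x j * jac φ x (i, j) := by
    unfold cvt
    have hv : φ x = ∑ k, φ x k • ev k := by
      ext i
      simp [Finset.sum_apply, Pi.single_apply]
    conv_lhs => rw [hv]
    rw [map_sum]
    simp only [map_smul, PiLp.smul_apply, smul_eq_mul, WithLp.ofLp_sum, Finset.sum_apply,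
      jac_apply]
  rw [e, Finset.sum_mul]
  refine Finset.sum_congr rfl fun j _ => ?_
  show jac φ x (i, j) * (v i * φ x j) = _
  ring

/-- the norm of the convective term -/
theorem cvt_norm {Ω : Set E3} (hΩ : MeasurableSet Ω) {φ : E3 → E3} (h : IsTest Ω φ) {G : ℝ}
    (hG : ∀ x, ‖jac φ x‖ ≤ G) : nq (cvt φ) ^ 3 ≤ (CS : ℝ) ^ 6 * (G ^ 2 * nq (jac φ) ^ 5) := by
  have hG0 : 0 ≤ G := (norm_nonneg _).trans (hG 0)
  have hφc := h.smooth.continuous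
  have hjc := continuous_jac h.smooth
  have fj := nq_fin hjc (hasCompactSupport_jac h.compact)
  have h1 : ∫⁻ x, ‖cvt φ x‖ₑ ^ 2 ≤ ∫⁻ x, ‖φ x‖ₑ ^ 2 * ‖jac φ x‖ₑ ^ 2 := by
    refine lintegral_mono fun x => ?_
    have h2 : ‖cvt φ x‖ₑ ≤ ‖φ x‖ₑ * ‖jac φ x‖ₑ := by
      rw [← ofReal_norm, ← ofReal_norm, ← ofReal_norm, ← ENNReal.ofReal_mul (norm_nonneg _)]
      refine ENNReal.ofReal_le_ofReal ?_
      calc ‖fderiv ℝ φ x (φ x)‖ ≤ ‖fderiv ℝ φ x‖ * ‖φ x‖ := ContinuousLinearMap.le_opNorm _ _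
        _ ≤ ‖jac φ x‖ * ‖φ x‖ := by gcongr; exact norm_fderiv_le_jac x
        _ = _ := mul_comm _ _
    calc ‖cvt φ x‖ₑ ^ 2 ≤ (‖φ x‖ₑ * ‖jac φ x‖ₑ) ^ 2 := pow_le_pow_left' h2 2
      _ = _ := mul_pow _ _ _
  have h3 := holder3 (μ := (volume : Measure E3)) (a := fun x => ‖φ x‖ₑ)
    (b := fun x => ‖jac φ x‖ₑ) hφc.enorm.measurable.aemeasurable
    hjc.enorm.measurable.aemeasurable
  have h4 : ∫⁻ x, ‖φ x‖ₑ ^ 6 ≤ (CS : ℝ≥0∞) ^ 6 * (∫⁻ x, ‖jac φ x‖ₑ ^ 2) ^ 3 := by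
    rw [Pool.Agent.W52.TQ.eLp6_six, Pool.Agent.W52.TQ.eLp2_sq]
    have h5 : eLpNorm φ 6 (volume : Measure E3) ≤ CS * eLpNorm (jac φ) 2 (volume : Measure E3) :=
      (CS_spec φ (h.smooth.of_le (by simp)) h.compact).trans
        (by gcongr; exact eLpNorm_mono (fun x => norm_fderiv_le_jac x))
    calc eLpNorm φ 6 (volume : Measure E3) ^ 6 ≤ (CS * eLpNorm (jac φ) 2 volume) ^ 6 :=
          pow_le_pow_left' h5 6
      _ = _ := by rw [mul_pow]; ring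
  have h6 : ∫⁻ x, ‖jac φ x‖ₑ ^ 3 ≤ ENNReal.ofReal G * ∫⁻ x, ‖jac φ x‖ₑ ^ 2 := by
    rw [← lintegral_const_mul' _ _ ENNReal.ofReal_ne_top]
    refine lintegral_mono fun x => ?_
    rw [pow_succ, mul_comm]
    gcongr
    rw [← ofReal_norm]
    exact ENNReal.ofReal_le_ofReal (hG x)
  have h7 : (∫⁻ x, ‖cvt φ x‖ₑ ^ 2) ^ 3 ≤ (CS : ℝ≥0∞) ^ 6 * (∫⁻ x, ‖jac φ x‖ₑ ^ 2) ^ 3 *
      (ENNReal.ofReal G * ∫⁻ x, ‖jac φ x‖ₑ ^ 2) ^ 2 := by
    refine (pow_le_pow_left' h1 3).trans (h3.trans ?_)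
    exact mul_le_mul' h4 (pow_le_pow_left' h6 2)
  have h8 := ENNReal.toReal_mono (by finiteness) h7
  simp only [ENNReal.toReal_mul, ENNReal.toReal_pow, ENNReal.toReal_ofReal hG0,
    ENNReal.coe_toReal] at h8
  unfold nq
  refine h8.trans (le_of_eq ?_)
  ring

/-- the pairing of the tensor square with a bounded gradient -/
theorem tens_bd {Ω : Set E3} (hΩ : MeasurableSet Ω) {φ : E3 → E3} {G : ℝ}
    (hG : ∀ x, ‖jac φ x‖ ≤ G) {q r : L2V Ω × L2M Ω} (hr : r ∈ graphW Ω)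
    (hq : q.2 =ᵐ[volume.restrict Ω] jac φ) : |⟪tensL r.1, q.2⟫_ℝ| ≤ G * ‖r.1‖ ^ 2 := by
  have hG0 : 0 ≤ G := (norm_nonneg _).trans (hG 0)
  rw [L2.inner_def, ← Real.norm_eq_abs]
  have hsq : Integrable (fun x => ‖r.1 x‖ ^ 2) (volume.restrict Ω) :=
    (memLp_two_iff_integrable_sq_norm (Lp.aestronglyMeasurable _)).mp (Lp.memLp r.1)
  have e : ∫ x in Ω, ‖r.1 x‖ ^ 2 = ‖r.1‖ ^ 2 := by
    rw [← real_inner_self_eq_norm_sq, L2.inner_def]
    refine integral_congr_ae (Eventually.of_forall fun x => ?_)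
    exact (real_inner_self_eq_norm_sq _).symm
  rw [← e, ← integral_const_mul]
  refine norm_integral_le_of_norm_le (hsq.const_mul G) ?_
  filter_upwards [tensL_coe hΩ hr, hq] with x h1 h2
  rw [h1, h2]
  refine (norm_inner_le_norm _ _).trans ?_
  rw [norm_tens, mul_comm]
  gcongr
  exact hG x

/-- the convective term as an element of `L²` -/
theorem cvt_pair {Ω : Set E3} (hΩ : MeasurableSet Ω) {φ : E3 → E3} (h : IsTest Ω φ)
    {q : L2V Ω × L2M Ω} (hq : q ∈ graphW Ω) (h1 : q.1 =ᵐ[volume.restrict Ω] φ) :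
    ∃ n : L2V Ω, ‖n‖ ^ 2 = nq (cvt φ) ∧ ∀ r ∈ graphW Ω, ⟪tensL q.1, r.2⟫_ℝ = -⟪n, r.1⟫_ℝ := by
  have m1 : MemLp (cvt φ) 2 (volume.restrict Ω) :=
    ((cvt_cont h.smooth).memLp_of_hasCompactSupport (cvt_compact h.compact)).restrict Ω
  refine ⟨m1.toLp _, ?_, ?_⟩
  · have e1 : ‖m1.toLp (cvt φ)‖ₑ ^ 2 = ∫⁻ x, ‖cvt φ x‖ₑ ^ 2 := by
      rw [Lp.enorm_def, eLpNorm_congr_ae m1.coeFn_toLp, ← Pool.Agent.W52.TQ.eLp2_sq]
      rw [← lintegral_indicator hΩ]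
      refine lintegral_congr fun x => ?_
      by_cases hx : x ∈ Ω
      · rw [indicator_of_mem hx]
      · have h0 : φ x = 0 := image_eq_zero_of_notMem_tsupport fun hc => hx (h.supp hc)
        rw [indicator_of_notMem hx]
        unfold cvt
        rw [h0, map_zero]
        simp
    have e2 := congrArg ENNReal.toReal e1
    rw [ENNReal.toReal_pow, toReal_enorm] at e2
    exact e2
  · intro r hr
    have hF : Continuous fun r : L2V Ω × L2M Ω => ⟪tensL q.1, r.2⟫_ℝ + ⟪m1.toLp _, r.1⟫_ℝ := by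
      fun_prop
    have := graphW_induction (fun r : L2V Ω × L2M Ω => ⟪tensL q.1, r.2⟫_ℝ + ⟪m1.toLp _, r.1⟫_ℝ)
      hF.continuousOn ?_ hr
    · linarith
    · rintro p ⟨ψ, k1, k2, k3⟩
      have e1 : ⟪tensL q.1, p.2⟫_ℝ = ∫ x, ⟪tens (φ x), jac ψ x⟫_ℝ := by
        rw [L2.inner_def]
        have : ∫ x in Ω, ⟪tens (φ x), jac ψ x⟫_ℝ = ∫ x, ⟪tens (φ x), jac ψ x⟫_ℝ := by
          apply setIntegral_eq_integral_of_forall_compl_eq_zero
          intro x hx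
          rw [Pool.Agent.W52.TQ.jac_off k1 x hx, inner_zero_right]
        rw [← this]
        apply integral_congr_ae
        filter_upwards [tensL_coe hΩ hq, h1, k3] with x a b c
        rw [a, b, c]
      have e2 : ⟪m1.toLp _, p.1⟫_ℝ = ∫ x, ⟪jac φ x, tns (ψ x) (φ x)⟫_ℝ := by
        rw [L2.inner_def]
        have : ∫ x in Ω, ⟪jac φ x, tns (ψ x) (φ x)⟫_ℝ =
            ∫ x, ⟪jac φ x, tns (ψ x) (φ x)⟫_ℝ := by
          apply setIntegral_eq_integral_of_forall_compl_eq_zero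
          intro x hx
          rw [Pool.Agent.W52.TQ.jac_off h x hx, inner_zero_left]
        rw [← this]
        apply integral_congr_ae
        filter_upwards [m1.coeFn_toLp, k2] with x a b
        rw [a, b, cvt_inner]
      show ⟪tensL q.1, p.2⟫_ℝ + ⟪m1.toLp _, p.1⟫_ℝ = 0
      rw [e1, e2, Pool.Agent.W52.TQ.ibp h k1]
      ring

/-- The approximation property. -/
theorem apx {Ω : Set E3} {ρ : E3 → ℝ} (hρ : ContDiff ℝ ∞ ρ) (hΩ : Ω = {x | ρ x < 0})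
    (hb : Bornology.IsBounded Ω) (hg : ∀ x, ρ x = 0 → fderiv ℝ ρ x ≠ 0) :
    ∃ A l0 : ℝ, Apx (graphW Ω) (tensL (Ω := Ω)) A l0 := by
  have hΩo : IsOpen Ω := by
    rw [hΩ]
    exact isOpen_lt hρ.continuous continuous_const
  have hΩm := hΩo.measurableSet
  obtain ⟨C, Fr⟩ := H772R2.NSR.exists_frame hΩo hb
  obtain ⟨A, l0, hA, hl0, happ⟩ := approx_test hρ hΩ hb hg
  set S : ℝ := (CS : ℝ) with hS
  have hS0 : 0 ≤ S := NNReal.coe_nonneg _
  set B : ℝ := √(4 * A) with hB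
  have hB0 : 0 < B := by positivity
  have hB2 : B ^ 2 = 4 * A := Real.sq_sqrt (by positivity)
  refine ⟨1 + B + S * B ^ 2, l0, by positivity, hl0, ?_⟩
  intro l hl hll p hp
  have hls : (l * √l) ^ 2 = l ^ 3 := by
    rw [mul_pow, Real.sq_sqrt hl.le]; ring
  have hls0 : 0 < l * √l := mul_pos hl (Real.sqrt_pos.2 hl)
  by_cases hz : p.2 = 0
  · refine ⟨0, (graphW Ω).zero_mem, 0, ?_, ?_, ?_, ?_, ?_⟩
    · have := Fr.poinc p hp
      rw [hz, norm_zero, mul_zero] at this ⊢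
      rw [Prod.fst_zero, sub_zero]
      exact this
    · simp [hz]
    · intro r _
      simp [hz]
    · intro r _
      have h1 := Fr.quart 0 (graphW Ω).zero_mem
      simp only [Prod.fst_zero, norm_zero, zero_mul, mul_zero] at h1
      have h2 : ‖tensL (0 : L2V Ω)‖ = 0 := by
        have : ‖tensL (0 : L2V Ω)‖ ^ 2 = 0 := le_antisymm h1 (sq_nonneg _)
        exact pow_eq_zero_iff (two_ne_zero) |>.1 this
      rw [norm_eq_zero] at h2
      show ⟪tensL (0 : L2V Ω), r.2⟫_ℝ = _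
      rw [h2]
      simp
    · simp [hz]
  set Z : ℝ := ‖p.2‖ with hZ
  have hZ0 : 0 < Z := norm_pos_iff.2 hz
  -- a test pair near `p`
  have hcl : p ∈ closure (preW Ω : Set (L2V Ω × L2M Ω)) := by
    have := hp
    unfold graphW at this
    rwa [← SetLike.mem_coe, Submodule.topologicalClosure_coe] at this
  obtain ⟨r, hr, hd⟩ := Metric.mem_closure_iff.1 hcl (min (l * Z) Z) (by positivity)
  rw [dist_eq_norm] at hd
  have hd1 : ‖p.1 - r.1‖ ≤ l * Z :=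
    (norm_fst_le (p - r)).trans (hd.le.trans (min_le_left _ _))
  have hd2 : ‖p.2 - r.2‖ ≤ Z := (norm_snd_le (p - r)).trans (hd.le.trans (min_le_right _ _))
  have hr2 : ‖r.2‖ ≤ 2 * Z := by
    calc ‖r.2‖ = ‖p.2 - (p.2 - r.2)‖ := by rw [sub_sub_cancel]
      _ ≤ ‖p.2‖ + ‖p.2 - r.2‖ := norm_sub_le _ _
      _ ≤ _ := by linarith
  obtain ⟨ψ, k1, k2, k3⟩ := hr
  obtain ⟨φ, hφ, a1, a2, a3⟩ := happ l hl hll ψ k1
  obtain ⟨q, hq, q1, q2⟩ := exists_pair hφ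
  have hqW : q ∈ graphW Ω := Submodule.le_topologicalClosure _ hq
  obtain ⟨-, er⟩ := pair_norm hΩm k1 k2 k3
  obtain ⟨-, eq⟩ := pair_norm hΩm hφ q1 q2
  have hjψ : nq (jac ψ) ≤ 4 * Z ^ 2 := by
    rw [← er]
    calc ‖r.2‖ ^ 2 ≤ (2 * Z) ^ 2 := by gcongr
      _ = _ := by ring
  have hAj : A * nq (jac ψ) ≤ (B * Z) ^ 2 := by
    calc A * nq (jac ψ) ≤ A * (4 * Z ^ 2) := by gcongr
      _ = (B * Z) ^ 2 := by rw [mul_pow, hB2]; ring
  have hq2 : ‖q.2‖ ≤ B * Z := by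
    have : ‖q.2‖ ^ 2 ≤ (B * Z) ^ 2 := by rw [eq]; exact a2.trans hAj
    exact (pow_le_pow_iff_left₀ (norm_nonneg _) (by positivity) (by norm_num)).mp this
  -- the distance
  have hdiff : IsTest Ω (φ - ψ) := by
    have := hφ.add (k1.smul (-1))
    simpa [sub_eq_add_neg] using this
  have hqr : ‖q.1 - r.1‖ ≤ B * l * Z := by
    obtain ⟨s, hs, s1, s2⟩ := exists_pair hdiff
    obtain ⟨es, -⟩ := pair_norm hΩm hdiff s1 s2
    have e1 : q.1 - r.1 = s.1 := by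
      apply Lp.ext
      filter_upwards [Lp.coeFn_sub q.1 r.1, q1, k2, s1] with x b1 b2 b3 b4
      rw [b1, b4, Pi.sub_apply, b2, b3, Pi.sub_apply]
    have h2 : ‖q.1 - r.1‖ ^ 2 ≤ (B * l * Z) ^ 2 := by
      rw [e1, es]
      calc nq (φ - ψ) ≤ A * l ^ 2 * nq (jac ψ) := a1
        _ = l ^ 2 * (A * nq (jac ψ)) := by ring
        _ ≤ l ^ 2 * (B * Z) ^ 2 := by gcongr
        _ = _ := by ring
    exact (pow_le_pow_iff_left₀ (norm_nonneg _) (by positivity) (by norm_num)).mp h2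
  -- the sup bound
  set G : ℝ := B * Z / (l * √l) with hG
  have hG0 : 0 ≤ G := by positivity
  have hGl : G ^ 2 * l ^ 3 = (B * Z) ^ 2 := by
    rw [hG, div_pow, hls]
    field_simp
  have hGb : ∀ x, ‖jac φ x‖ ≤ G := by
    intro x
    have h1 := (a3 x).trans hAj
    rw [← hGl] at h1
    have h2 : ‖jac φ x‖ ^ 2 ≤ G ^ 2 := le_of_mul_le_mul_right h1 (by positivity)
    exact (pow_le_pow_iff_left₀ (norm_nonneg _) hG0 (by norm_num)).mp h2
  obtain ⟨n, hn1, hn2⟩ := cvt_pair hΩm hφ hqW q1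
  refine ⟨q, hqW, n, ?_, ?_, ?_, hn2, ?_⟩
  · calc ‖p.1 - q.1‖ = ‖(p.1 - r.1) - (q.1 - r.1)‖ := by rw [sub_sub_sub_cancel_right]
      _ ≤ ‖p.1 - r.1‖ + ‖q.1 - r.1‖ := norm_sub_le _ _
      _ ≤ l * Z + B * l * Z := add_le_add hd1 hqr
      _ ≤ (1 + B + S * B ^ 2) * l * Z := by
          have : 0 ≤ S * B ^ 2 * (l * Z) := by positivity
          linarith
  · refine hq2.trans ?_
    have : 0 ≤ (1 + S * B ^ 2) * Z := by positivity
    linarith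
  · intro r' hr'
    have h1 := tens_bd hΩm hGb hr' q2
    calc |⟪tensL r'.1, q.2⟫_ℝ| * (l * √l) ≤ G * ‖r'.1‖ ^ 2 * (l * √l) := by gcongr
      _ = B * Z * ‖r'.1‖ ^ 2 := by
          rw [hG]
          field_simp
      _ ≤ (1 + B + S * B ^ 2) * Z * ‖r'.1‖ ^ 2 := by
          gcongr
          have : 0 ≤ 1 + S * B ^ 2 := by positivity
          linarith
  · have h1 := cvt_norm hΩm hφ hGb
    rw [← hn1, ← eq] at h1
    have h2 : (‖n‖ ^ 2 * l) ^ 3 ≤ (S ^ 2 * B ^ 4 * Z ^ 4) ^ 3 := by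
      calc (‖n‖ ^ 2 * l) ^ 3 = (‖n‖ ^ 2) ^ 3 * l ^ 3 := by ring
        _ ≤ S ^ 6 * (G ^ 2 * (‖q.2‖ ^ 2) ^ 5) * l ^ 3 := by gcongr
        _ = S ^ 6 * (G ^ 2 * l ^ 3) * ‖q.2‖ ^ 10 := by ring
        _ ≤ S ^ 6 * (B * Z) ^ 2 * (B * Z) ^ 10 := by rw [hGl]; gcongr
        _ = (S ^ 2 * B ^ 4 * Z ^ 4) ^ 3 := by ring
    have h3 : ‖n‖ ^ 2 * l ≤ S ^ 2 * B ^ 4 * Z ^ 4 :=
      (pow_le_pow_iff_left₀ (by positivity) (by positivity) (by norm_num)).mp h2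
    refine h3.trans ?_
    have h4 : S ^ 2 * B ^ 4 ≤ (1 + B + S * B ^ 2) ^ 2 := by
      have h5 : 0 ≤ S * B ^ 2 := by positivity
      nlinarith [mul_nonneg h5 (by positivity : 0 ≤ 1 + B), sq_nonneg (1 + B)]
    gcongr

end Pool.Agent.J4H18.LT
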