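import Pool.Agent.J4H18.LT.B3
import Pool.Agent.J4H18.LT.C7
import Pool.Agent.W795.HE.Pub
import Pool.Agent.W52.TQ.Univ
import Pool.Agent.W405.HE.Cmp
import Pool.Agent.W701.HE.Reg
import Pool.Agent.W933.HE.ShiftCont

/-!
The singular times of the Navier-Stokes equations in bounded open sets with smooth boundary.
-/

set_option autoImplicit false

open MeasureTheory Set Filter Topology Asymptotics
open scoped InnerProductSpace ENNReal ContDiff

namespace Pool.Agent.J4H18.LT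

open H772R2.NS H772R2.NS.Pub H772R2.NSR H772R2.NSG
open Pool.Agent.W795.TQ Pool.Agent.W795.HE

/-- the theorem with internal definitions -/
theorem mid {Ω : Set E3} {ρ : E3 → ℝ} (hρ : ContDiff ℝ ∞ ρ) (hΩ : Ω = {x | ρ x < 0})
    (hb : Bornology.IsBounded Ω) (hg : ∀ x, ρ x = 0 → fderiv ℝ ρ x ≠ 0)
    {ν T : ℝ} (hν : 0 < ν) (hT : 0 < T) {F F' : ℝ → L2M Ω}
    (hF1 : MemLp F' 2 (volume.restrict (Ioc 0 T)))
    (hF : ∀ a b, 0 ≤ a → a ≤ b → b ≤ T → F b - F a = ∫ s in a..b, F' s)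
    {u : ℝ → L2V Ω} {z : ℝ → L2M Ω} (L : IsLerayHopf (show Set R3 from Ω) ν T F u z)
    (hSE : StrongEnergy (Ω := (show Set R3 from Ω)) ν T F u z)
    {h : ℝ → ℝ} {r0 : ℝ} (hr0 : 0 < r0) (hh : ∀ r ∈ Ioc 0 r0, 0 < h r)
    (hm : MonotoneOn (fun r => √r / h r) (Ioc 0 r0))
    (hlim : ∀ η : ℝ, 0 < η → ∀ ρ : ℝ, 0 < ρ → ∃ r ∈ Ioo 0 ρ,
      h r * (1 + Real.log (1 + |Real.log r|)) ^ 5 ≤ η * (√r * |Real.log r| ^ (5 / 2 : ℝ))) :
    NullG h {τ | τ ∈ Ioc 0 T ∧ ¬ RegularTime (Ω := (show Set R3 from Ω)) T z τ} := by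
  have hΩo : IsOpen Ω := by
    rw [hΩ]
    exact isOpen_lt hρ.continuous continuous_const
  obtain ⟨c, hc, hU⟩ := Pool.Agent.W52.TQ.proof_univ
  obtain ⟨C, Fr, hLH⟩ := pub_lh hΩo hb hF1 hF L
  obtain ⟨A, l0, Ap⟩ := apx hρ hΩ hb hg
  exact null_abs (Pool.Agent.W701.HE.proof Pool.Agent.W405.HE.Cmp.proof)
    Pool.Agent.W933.HE.proof_shift hc Fr (hU _ hΩo) (rellich_W hΩo hb) Ap hν hT ⟨hF1, hF⟩ hLH hSE
    hr0 hh hm hlim

/-- null sets for the Hausdorff measure of a gauge -/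
theorem NullG.mk {h : ℝ → ℝ} {S : Set ℝ} (hS : NullG h S) :
    Measure.mkMetric (fun d => ENNReal.ofReal (h d.toReal)) S = 0 := by
  have h1 : ∀ n : ℕ, (0 : ℝ) < 1 / ((n : ℝ) + 1) := fun n => by positivity
  choose ι i1 p r k1 k2 k3 using fun n : ℕ => hS _ (h1 n)
  have hlim : Tendsto (fun n : ℕ => ENNReal.ofReal (1 / ((n : ℝ) + 1))) atTop (𝓝 0) := by
    have h5 : Tendsto (fun n : ℕ => 1 / ((n : ℝ) + 1)) atTop (𝓝 0) :=
      tendsto_one_div_add_atTop_nhds_zero_nat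
    have := ENNReal.tendsto_ofReal h5
    rwa [ENNReal.ofReal_zero] at this
  have hd : ∀ (n : ℕ) (i : ι n), Metric.ediam (Icc (p n i) (p n i + r n i)) =
      ENNReal.ofReal (r n i) := fun n i => by
    rw [Real.ediam_Icc, add_sub_cancel_left]
  have h2 := Measure.mkMetric_le_liminf_tsum S (l := atTop)
    (fun n : ℕ => ENNReal.ofReal (1 / ((n : ℝ) + 1))) hlim
    (fun n i => Icc (p n i) (p n i + r n i))
    (Eventually.of_forall fun n i => by
      rw [hd]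
      exact ENNReal.ofReal_le_ofReal (k1 n i).2)
    (Eventually.of_forall fun n => k3 n) (fun d => ENNReal.ofReal (h d.toReal))
  have h3 : liminf (fun n => ∑' i, ENNReal.ofReal
      (h (Metric.ediam (Icc (p n i) (p n i + r n i))).toReal)) atTop ≤ 0 := by
    have h4 : ∀ n, ∑' i, ENNReal.ofReal (h (Metric.ediam (Icc (p n i) (p n i + r n i))).toReal) ≤
        ENNReal.ofReal (1 / ((n : ℝ) + 1)) := fun n => by
      simp_rw [hd, ENNReal.toReal_ofReal (k1 n _).1.le]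
      exact k2 n
    exact (liminf_le_liminf (Eventually.of_forall h4)).trans hlim.liminf_eq.le
  exact le_antisymm (h2.trans h3) zero_le

/-- the gauges with a power of the logarithm: monotonicity -/
theorem gauge_mono {β : ℝ} (hβ : 0 ≤ β) :
    MonotoneOn (fun r : ℝ => √r / (√r * |Real.log r| ^ β)) (Ioc 0 (1 / 2)) := by
  intro r hr s hs hrs
  have l1 : ∀ t ∈ Ioc (0 : ℝ) (1 / 2), Real.log t < 0 := fun t ht =>
    Real.log_neg ht.1 (by linarith [ht.2])
  have e : ∀ t ∈ Ioc (0 : ℝ) (1 / 2), √t / (√t * |Real.log t| ^ β) = 1 / |Real.log t| ^ β := by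
    intro t ht
    have h1 := Real.sqrt_pos.2 ht.1
    have h2 : 0 < |Real.log t| ^ β := Real.rpow_pos_of_pos (abs_pos.2 (l1 t ht).ne) _
    field_simp
  show √r / (√r * |Real.log r| ^ β) ≤ √s / (√s * |Real.log s| ^ β)
  rw [e r hr, e s hs]
  have h2 : 0 < |Real.log s| ^ β := Real.rpow_pos_of_pos (abs_pos.2 (l1 s hs).ne) _
  have h3 : |Real.log s| ≤ |Real.log r| := by
    rw [abs_of_neg (l1 s hs), abs_of_neg (l1 r hr)]
    linarith [Real.log_le_log hr.1 hrs]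
  gcongr

/-- the gauges with a power of the logarithm: size -/
theorem gauge_small {β : ℝ} (hβ : β < 5 / 2) {η : ℝ} (hη : 0 < η) {ρ : ℝ} (hρ : 0 < ρ) :
    ∃ r ∈ Ioo 0 ρ, √r * |Real.log r| ^ β * (1 + Real.log (1 + |Real.log r|)) ^ 5
      ≤ η * (√r * |Real.log r| ^ (5 / 2 : ℝ)) := by
  -- `(1 + log (1+x))^5 = o(x^{5/2 - β})`
  set γ : ℝ := (5 / 2 - β) / 5 with hγ
  have hγ0 : 0 < γ := by rw [hγ]; linarith
  have h1 : Tendsto (fun x : ℝ => Real.exp 1 * (1 + x)) atTop atTop :=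
    Tendsto.const_mul_atTop (Real.exp_pos 1) (tendsto_atTop_add_const_left _ _ tendsto_id)
  have h2 := (isLittleO_log_rpow_atTop hγ0).comp_tendsto h1
  obtain ⟨ε, hε, hε2⟩ : ∃ ε : ℝ, 0 < ε ∧ (ε * (2 * Real.exp 1) ^ γ) ^ 5 ≤ η := by
    refine ⟨(min η 1) / (2 * Real.exp 1) ^ γ, by positivity, ?_⟩
    have e1 : min η 1 / (2 * Real.exp 1) ^ γ * (2 * Real.exp 1) ^ γ = min η 1 := by
      have : (0 : ℝ) < (2 * Real.exp 1) ^ γ := by positivity
      field_simp
    rw [e1]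
    have h3 : 0 ≤ min η 1 := by positivity
    calc min η 1 ^ 5 = min η 1 * (min η 1) ^ 4 := by ring
      _ ≤ η * 1 := by
          gcongr
          · exact min_le_left _ _
          · exact pow_le_one₀ h3 (min_le_right _ _)
      _ = η := mul_one _
  obtain ⟨X, hX⟩ := eventually_atTop.1 (h2.bound hε)
  set x : ℝ := max (max X 1) (1 + |Real.log ρ|) with hx
  have hx1 : 1 ≤ x := (le_max_right X 1).trans (le_max_left _ _)
  have hxX : X ≤ x := (le_max_left X 1).trans (le_max_left _ _)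
  have hxρ : 1 + |Real.log ρ| ≤ x := le_max_right _ _
  refine ⟨Real.exp (-x), ⟨Real.exp_pos _, ?_⟩, ?_⟩
  · rw [← Real.exp_log hρ]
    apply Real.exp_lt_exp.2
    linarith [neg_abs_le (Real.log ρ)]
  · rw [Real.log_exp, abs_neg, abs_of_nonneg (by linarith : (0 : ℝ) ≤ x)]
    have h3 := hX x hxX
    simp only [Function.comp_apply] at h3
    have e1 : Real.log (Real.exp 1 * (1 + x)) = 1 + Real.log (1 + x) := by
      rw [Real.log_mul (Real.exp_pos 1).ne' (by positivity), Real.log_exp]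
    have e2 : 0 ≤ Real.log (1 + x) := Real.log_nonneg (by linarith)
    rw [e1, Real.norm_of_nonneg (by linarith), Real.norm_of_nonneg (by positivity)] at h3
    have h4 : (Real.exp 1 * (1 + x)) ^ γ ≤ (2 * Real.exp 1) ^ γ * x ^ γ := by
      rw [← Real.mul_rpow (by positivity) (by positivity)]
      gcongr ?_ ^ γ
      nlinarith [Real.exp_pos 1]
    have h5 : (1 + Real.log (1 + x)) ^ 5 ≤ η * (x ^ γ) ^ 5 := by
      calc (1 + Real.log (1 + x)) ^ 5 ≤ (ε * ((2 * Real.exp 1) ^ γ * x ^ γ)) ^ 5 := by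
            gcongr
            exact h3.trans (by gcongr)
        _ = (ε * (2 * Real.exp 1) ^ γ) ^ 5 * (x ^ γ) ^ 5 := by ring
        _ ≤ _ := by gcongr
    have e3 : x ^ β * (x ^ γ) ^ 5 = x ^ (5 / 2 : ℝ) := by
      rw [← Real.rpow_natCast, ← Real.rpow_mul (by linarith), ← Real.rpow_add (by linarith), hγ]
      congr 1
      push_cast
      ring
    have hxβ : 0 < x ^ β := Real.rpow_pos_of_pos (by linarith) _
    calc √(Real.exp (-x)) * x ^ β * (1 + Real.log (1 + x)) ^ 5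
        ≤ √(Real.exp (-x)) * x ^ β * (η * (x ^ γ) ^ 5) := by gcongr
      _ = η * (√(Real.exp (-x)) * (x ^ β * (x ^ γ) ^ 5)) := by ring
      _ = _ := by rw [e3]

end Pool.Agent.J4H18.LT
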