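import Pool.Agent.W795.HE.PubDef
import Pool.Agent.W795.TQ.DPubDef

/-!
Public definitions: bounded open sets with smooth boundary, the Hausdorff measure of a gauge, the
set of singular times.
-/

set_option autoImplicit false

open MeasureTheory Set
open scoped ENNReal ContDiff

namespace Pool.Agent.J4H18.LT

open H772R2.NS.Pub

/-- `Ω` is a bounded open set with smooth boundary: `Ω = {ρ < 0}` for a smooth function `ρ` whose
derivative has no zero on `{ρ = 0}`. -/
def IsSmoothBounded (Ω : Set R3) : Prop :=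
  Bornology.IsBounded Ω ∧ ∃ ρ : R3 → ℝ, ContDiff ℝ ∞ ρ ∧ Ω = {x | ρ x < 0} ∧
    ∀ x, ρ x = 0 → fderiv ℝ ρ x ≠ 0

/-- The Hausdorff measure on the real line with the gauge function `h`. -/
noncomputable def gaugeMeasure (h : ℝ → ℝ) : Measure ℝ :=
  Measure.mkMetric fun d => ENNReal.ofReal (h d.toReal)

/-- The singular times in `(0,T]` of a function with gradient `G`: the times `τ` such that
`‖G(s)‖` is not essentially bounded for `s ∈ (0,T]` near `τ`. -/
def SingularTimes {Ω : Set R3} (T : ℝ) (G : ℝ → L2 Ω Mat) : Set ℝ :=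
  {τ | τ ∈ Ioc 0 T ∧ ¬ Pool.Agent.W795.HE.RegularTime T G τ}

end Pool.Agent.J4H18.LT
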