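import Mathlib

/-!
Singular times: the real variable part, one step.
-/

set_option autoImplicit false

open MeasureTheory Set Metric

namespace Pool.Agent.J4H18.LT

/-- the measure with the density `y` on `(0,T]` -/
noncomputable def dm (T : ℝ) (y : ℝ → ℝ) : Measure ℝ :=
  (volume.restrict (Ioc 0 T)).withDensity fun t => ENNReal.ofReal (y t)

/-- The two properties of the dissipation `y` near the set `S` of singular times. -/
structure Dat (a T h0 c1 C2 : ℝ) (S : Set ℝ) (y : ℝ → ℝ) : Prop where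
  ha : 0 < a
  hh0 : 0 < h0
  hc1 : 0 < c1
  hC2 : 0 < C2
  sub : S ⊆ Ioc a T
  y0 : ∀ t, 0 ≤ y t
  int : IntegrableOn y (Ioc 0 T)
  ae : ∀ᵐ t ∂(volume : Measure ℝ), t ∈ Ioo 0 T →
    (∀ τ ∈ S, t < τ → τ < t + h0 → c1 ≤ y t * √(τ - t)) ∧
    ∀ h : ℝ, 0 < h → h ≤ h0 → (dm T y).real (Ioo t (t + h))
      ≤ C2 * (y t ^ (5 / 3 : ℝ) * h ^ (4 / 3 : ℝ) + √h)

variable {a T h0 c1 C2 : ℝ} {S : Set ℝ} {y : ℝ → ℝ}

theorem Dat.fin (D : Dat a T h0 c1 C2 S y) : IsFiniteMeasure (dm T y) := by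
  unfold dm
  refine isFiniteMeasure_withDensity_ofReal ?_
  exact D.int.2

theorem Dat.low (D : Dat a T h0 c1 C2 S y) {A : Set ℝ} (hA : MeasurableSet A)
    (hs : A ⊆ Ioc 0 T) {m : ℝ} (hm : 0 ≤ m) (h : ∀ᵐ t ∂(volume : Measure ℝ), t ∈ A → m ≤ y t) :
    m * volume.real A ≤ (dm T y).real A := by
  haveI := D.fin
  have h1 : dm T y A = ∫⁻ t in A, ENNReal.ofReal (y t) := by
    unfold dm
    rw [withDensity_apply _ hA, Measure.restrict_restrict hA, inter_eq_left.2 hs]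
  have h2 : ENNReal.ofReal m * volume A ≤ dm T y A := by
    rw [h1]
    calc ENNReal.ofReal m * volume A = ∫⁻ t in A, ENNReal.ofReal m := by
          rw [setLIntegral_const]
      _ ≤ ∫⁻ t in A, ENNReal.ofReal (y t) := by
          refine setLIntegral_mono_ae' hA ?_
          filter_upwards [h] with t ht htA
          exact ENNReal.ofReal_le_ofReal (ht htA)
  have h3 : (ENNReal.ofReal m * volume A).toReal ≤ (dm T y A).toReal :=
    ENNReal.toReal_mono (measure_ne_top _ _) h2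
  rw [ENNReal.toReal_mul, ENNReal.toReal_ofReal hm] at h3
  exact h3

/-- lower bound for the mass to the left of a singular time -/
theorem Dat.left (D : Dat a T h0 c1 C2 S y) {τ s : ℝ} (hτ : τ ∈ S) (hs : 0 < s)
    (hsh : s ≤ h0) (hsa : s ≤ a) {A : Set ℝ} (hA : MeasurableSet A) (hAs : A ⊆ Ioo (τ - s) τ) :
    c1 / √s * volume.real A ≤ (dm T y).real A := by
  have hT := D.sub hτ
  have hsub : A ⊆ Ioo 0 T := fun t ht => by
    have := hAs ht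
    exact ⟨by linarith [this.1, hT.1], this.2.trans_le hT.2⟩
  refine D.low hA (hsub.trans Ioo_subset_Ioc_self) (div_nonneg D.hc1.le (Real.sqrt_nonneg _)) ?_
  filter_upwards [D.ae] with t ht htA
  have h1 := hAs htA
  have h2 := (ht (hsub htA)).1 τ hτ h1.2 (by linarith [h1.1])
  rw [div_le_iff₀ (Real.sqrt_pos.2 hs)]
  refine h2.trans ?_
  gcongr
  · exact D.y0 t
  · linarith [h1.1]

/-- the constant in the loss of mass in one step -/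
noncomputable def c4 (c1 C2 : ℝ) : ℝ :=
  1 / 2 * (C2 * (15 + 3 * (3 / c1) ^ (5 / 3 : ℝ))) ^ (-(3 / 5) : ℝ)

theorem c4_pos (h1 : 0 < c1) (h2 : 0 < C2) : 0 < c4 c1 C2 := by
  unfold c4
  positivity

theorem sqrt3 {s r : ℝ} (hr : 0 ≤ r) (h : s ≤ 9 * r) : √s ≤ 3 * √r := by
  refine Real.sqrt_le_iff.2 ⟨by positivity, ?_⟩
  rw [mul_pow, Real.sq_sqrt hr]
  linarith

/-- pointwise lower bound of `y` in front of a cluster -/
theorem Dat.ptw (D : Dat a T h0 c1 C2 S y) {t τ r : ℝ} (hτ : τ ∈ S) (hr : 0 < r)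
    (h7 : 7 * r ≤ h0)
    (ht : (∀ τ ∈ S, t < τ → τ < t + h0 → c1 ≤ y t * √(τ - t)) ∧
      ∀ h : ℝ, 0 < h → h ≤ h0 → (dm T y).real (Ioo t (t + h))
      ≤ C2 * (y t ^ (5 / 3 : ℝ) * h ^ (4 / 3 : ℝ) + √h))
    (h1 : t < τ) (h2 : τ ≤ t + 5 * r) :
    (dm T y).real (Ioo t (t + 7 * r)) ≤ C2 * (15 + 3 * (3 / c1) ^ (5 / 3 : ℝ)) *
      (y t ^ (5 / 3 : ℝ) * r ^ (4 / 3 : ℝ)) := by
  have hc1 := D.hc1
  have hC2 := D.hC2
  have hy := D.y0 t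
  have a1 := ht.1 τ hτ h1 (by linarith)
  have a2 := ht.2 (7 * r) (by positivity) h7
  refine a2.trans ?_
  have b1 : (7 * r) ^ (4 / 3 : ℝ) ≤ 15 * r ^ (4 / 3 : ℝ) := by
    rw [Real.mul_rpow (by norm_num) hr.le]
    have : (7 : ℝ) ^ (4 / 3 : ℝ) ≤ 15 := by
      have h3 : ((7 : ℝ) ^ (4 / 3 : ℝ)) ^ 3 ≤ 15 ^ 3 := by
        rw [← Real.rpow_natCast, ← Real.rpow_mul (by norm_num)]
        norm_num
      exact le_of_pow_le_pow_left₀ (by norm_num) (by norm_num) h3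
    gcongr
  -- lower bound of y
  have b2 : c1 ≤ y t * (3 * √r) := by
    refine a1.trans ?_
    gcongr
    exact sqrt3 hr.le (by linarith)
  have b3 : √(7 * r) ≤ 3 * (3 / c1) ^ (5 / 3 : ℝ) * (y t ^ (5 / 3 : ℝ) * r ^ (4 / 3 : ℝ)) := by
    have e1 : 1 ≤ (3 / c1) * (y t * √r) := by
      rw [div_mul_eq_mul_div, one_le_div hc1]
      linarith
    have e2 : 1 ≤ ((3 / c1) * (y t * √r)) ^ (5 / 3 : ℝ) :=
      Real.one_le_rpow e1 (by norm_num)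
    rw [Real.mul_rpow (by positivity) (by positivity), Real.mul_rpow hy (Real.sqrt_nonneg _)] at e2
    have e3 : √(7 * r) ≤ 3 * √r := sqrt3 hr.le (by linarith)
    have e4 : √r ^ (5 / 3 : ℝ) * √r = r ^ (4 / 3 : ℝ) := by
      rw [Real.sqrt_eq_rpow, ← Real.rpow_mul hr.le, ← Real.rpow_add hr]
      norm_num
    calc √(7 * r) ≤ 3 * √r := e3
      _ = 3 * (√r * 1) := by ring
      _ ≤ 3 * (√r * ((3 / c1) ^ (5 / 3 : ℝ) * (y t ^ (5 / 3 : ℝ) * √r ^ (5 / 3 : ℝ)))) := by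
          gcongr
      _ = 3 * (3 / c1) ^ (5 / 3 : ℝ) * (y t ^ (5 / 3 : ℝ) * (√r ^ (5 / 3 : ℝ) * √r)) := by ring
      _ = _ := by rw [e4]
  calc C2 * (y t ^ (5 / 3 : ℝ) * (7 * r) ^ (4 / 3 : ℝ) + √(7 * r))
      ≤ C2 * (y t ^ (5 / 3 : ℝ) * (15 * r ^ (4 / 3 : ℝ)) +
        3 * (3 / c1) ^ (5 / 3 : ℝ) * (y t ^ (5 / 3 : ℝ) * r ^ (4 / 3 : ℝ))) := by
        gcongr
    _ = _ := by ring

/-- the mass of the gap in front of a cluster -/
theorem Dat.gap (D : Dat a T h0 c1 C2 S y) {τ r Θ m p : ℝ} (hτ : τ ∈ S) (hr : 0 < r)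
    (h7 : 7 * r ≤ h0) (h5 : 5 * r ≤ a) (hΘ : 0 < Θ) {A : Set ℝ} (hA : MeasurableSet A)
    (hAs : A ⊆ Ico (p - 4 * r) (p - 3 * r)) (hp : p ≤ τ) (hp' : τ < p + r)
    (hv : r / 2 ≤ volume.real A) (hm : m = (dm T y).real (Ioo (p - r) (p + 2 * r)))
    (hmΘ : m ≤ Θ * √r) :
    c4 c1 C2 * Θ ^ (-(2 / 5) : ℝ) * m ≤ (dm T y).real A := by
  haveI := D.fin
  have hT := D.sub hτ
  have hc1 := D.hc1
  have hC2 := D.hC2
  have hm0 : 0 ≤ m := by rw [hm]; positivity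
  have hsub : A ⊆ Ioo 0 T := fun t ht => by
    have := hAs ht
    exact ⟨by linarith [this.1, hT.1], by linarith [this.2, hT.2]⟩
  set C3 : ℝ := C2 * (15 + 3 * (3 / c1) ^ (5 / 3 : ℝ)) with hC3
  have hC3p : 0 < C3 := by positivity
  rcases hm0.eq_or_lt with h0' | hmp
  · rw [← h0', mul_zero]; positivity
  set q : ℝ := (m / (C3 * r ^ (4 / 3 : ℝ))) ^ (3 / 5 : ℝ) with hq
  have hq0 : 0 ≤ q := by positivity
  have h1 : q * volume.real A ≤ (dm T y).real A := by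
    refine D.low hA (hsub.trans Ioo_subset_Ioc_self) hq0 ?_
    filter_upwards [D.ae] with t ht htA
    have h2 := hAs htA
    have h3 := D.ptw hτ hr h7 (ht (hsub htA)) (by linarith [h2.2]) (by linarith [h2.1])
    have h4 : m ≤ (dm T y).real (Ioo t (t + 7 * r)) := by
      rw [hm]
      exact measureReal_mono (Ioo_subset_Ioo (by linarith [h2.2]) (by linarith [h2.1]))
    have h5 : m ≤ C3 * (y t ^ (5 / 3 : ℝ) * r ^ (4 / 3 : ℝ)) := h4.trans h3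
    have h6 : m / (C3 * r ^ (4 / 3 : ℝ)) ≤ y t ^ (5 / 3 : ℝ) := by
      rw [div_le_iff₀ (by positivity)]
      linarith
    calc q ≤ (y t ^ (5 / 3 : ℝ)) ^ (3 / 5 : ℝ) := by
          rw [hq]; gcongr
      _ = y t := by
          rw [← Real.rpow_mul (D.y0 t)]; norm_num
  refine le_trans ?_ h1
  have h2 : q * (r / 2) ≤ q * volume.real A := by gcongr
  refine le_trans ?_ h2
  -- algebra
  have e1 : q = C3 ^ (-(3 / 5) : ℝ) * r ^ (-(4 / 5) : ℝ) * m ^ (3 / 5 : ℝ) := by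
    rw [hq, Real.div_rpow hm0 (by positivity), Real.mul_rpow hC3p.le (by positivity),
      ← Real.rpow_mul hr.le, Real.rpow_neg hC3p.le, Real.rpow_neg hr.le]
    norm_num
    field_simp
  have e2 : Θ ^ (-(2 / 5) : ℝ) * m ≤ r ^ (1 / 5 : ℝ) * m ^ (3 / 5 : ℝ) := by
    have f1 : m = m ^ (3 / 5 : ℝ) * m ^ (2 / 5 : ℝ) := by
      rw [← Real.rpow_add hmp]; norm_num
    have f2 : m ^ (2 / 5 : ℝ) ≤ Θ ^ (2 / 5 : ℝ) * r ^ (1 / 5 : ℝ) := by
      calc m ^ (2 / 5 : ℝ) ≤ (Θ * √r) ^ (2 / 5 : ℝ) := by gcongr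
        _ = _ := by
          rw [Real.mul_rpow hΘ.le (Real.sqrt_nonneg _), Real.sqrt_eq_rpow, ← Real.rpow_mul hr.le]
          norm_num
    have f3 : Θ ^ (-(2 / 5) : ℝ) * Θ ^ (2 / 5 : ℝ) = 1 := by
      rw [← Real.rpow_add hΘ]; norm_num
    calc Θ ^ (-(2 / 5) : ℝ) * m = Θ ^ (-(2 / 5) : ℝ) * (m ^ (3 / 5 : ℝ) * m ^ (2 / 5 : ℝ)) := by
          rw [← f1]
      _ ≤ Θ ^ (-(2 / 5) : ℝ) * (m ^ (3 / 5 : ℝ) * (Θ ^ (2 / 5 : ℝ) * r ^ (1 / 5 : ℝ))) := by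
          gcongr
      _ = (Θ ^ (-(2 / 5) : ℝ) * Θ ^ (2 / 5 : ℝ)) * (r ^ (1 / 5 : ℝ) * m ^ (3 / 5 : ℝ)) := by ring
      _ = _ := by rw [f3, one_mul]
  have e3 : r ^ (-(4 / 5) : ℝ) * r = r ^ (1 / 5 : ℝ) := by
    nth_rewrite 2 [← Real.rpow_one r]
    rw [← Real.rpow_add hr]; norm_num
  calc c4 c1 C2 * Θ ^ (-(2 / 5) : ℝ) * m = 1 / 2 * C3 ^ (-(3 / 5) : ℝ) *
        (Θ ^ (-(2 / 5) : ℝ) * m) := by rw [c4, hC3]; ring
    _ ≤ 1 / 2 * C3 ^ (-(3 / 5) : ℝ) * (r ^ (1 / 5 : ℝ) * m ^ (3 / 5 : ℝ)) := by gcongr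
    _ = q * (r / 2) := by rw [e1, ← e3]; ring

end Pool.Agent.J4H18.LT
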