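import Pool.Agent.J4H18.LT.A1

/-!
Singular times: the real variable part, one step (the covering argument).
-/

set_option autoImplicit false

open MeasureTheory Set Metric

namespace Pool.Agent.J4H18.LT

/-- the cells of size `s` -/
def cell (s : ℝ) (k : ℤ) : Set ℝ := Ico (k * s) ((k + 1) * s)

theorem cell_disj {s : ℝ} (hs : 0 < s) {k l : ℤ} (h : k ≠ l) : Disjoint (cell s k) (cell s l) := by
  rw [Set.disjoint_left]
  rintro x ⟨h1, h2⟩ ⟨h3, h4⟩
  have a1 : (k : ℝ) < l + 1 := lt_of_mul_lt_mul_right (h1.trans_lt h4) hs.le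
  have a2 : (l : ℝ) < k + 1 := lt_of_mul_lt_mul_right (h3.trans_lt h2) hs.le
  have b1 : k < l + 1 := by exact_mod_cast a1
  have b2 : l < k + 1 := by exact_mod_cast a2
  omega

theorem mem_cell_floor {s : ℝ} (hs : 0 < s) (x : ℝ) : x ∈ cell s ⌊x / s⌋ := by
  constructor
  · have := Int.floor_le (x / s)
    rwa [le_div_iff₀ hs] at this
  · have := Int.lt_floor_add_one (x / s)
    rwa [div_lt_iff₀ hs] at this

theorem meas_cell (s : ℝ) (k : ℤ) : MeasurableSet (cell s k) := measurableSet_Ico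

theorem vol_cell {s : ℝ} (hs : 0 < s) (k : ℤ) : volume.real (cell s k) = s := by
  unfold cell
  rw [Real.volume_real_Ico_of_le (by nlinarith)]
  ring

/-- the cells of size `s` which meet `B` -/
def cells (s : ℝ) (B : Set ℝ) : Set ℤ := {k | (B ∩ cell s k).Nonempty}

theorem cells_fin {s : ℝ} (hs : 0 < s) {B : Set ℝ} (hB : Bornology.IsBounded B) :
    (cells s B).Finite := by
  obtain ⟨R, hR⟩ := hB.subset_closedBall 0
  refine (Set.finite_Icc (⌊-R / s⌋ - 1) (⌈R / s⌉ + 1)).subset ?_
  rintro k ⟨x, hx, h1, h2⟩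
  have h3 := hR hx
  rw [Real.closedBall_eq_Icc] at h3
  have a1 : (k : ℝ) ≤ R / s := by
    rw [le_div_iff₀ hs]
    linarith [h3.2]
  have a2 : -R / s ≤ k + 1 := by
    rw [div_le_iff₀ hs]
    linarith [h3.1]
  constructor
  · have b1 : (⌊-R / s⌋ : ℝ) ≤ k + 1 := (Int.floor_le _).trans a2
    have : ⌊-R / s⌋ ≤ k + 1 := by exact_mod_cast b1
    omega
  · have b1 : (k : ℝ) ≤ ⌈R / s⌉ := a1.trans (Int.le_ceil _)
    have : k ≤ ⌈R / s⌉ := by exact_mod_cast b1
    omega

theorem thick_sub {B : Set ℝ} {r r' : ℝ} (hr : 0 < r) (hr' : r' ≤ r) :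
    thickening r' B ⊆ ⋃ k ∈ cells r B, Ioo ((k - 1) * r) ((k + 2) * r) := by
  intro x hx
  obtain ⟨τ, hτ, hd⟩ := mem_thickening_iff.1 hx
  rw [Real.dist_eq, abs_lt] at hd
  have hc := mem_cell_floor hr τ
  refine mem_iUnion₂.2 ⟨⌊τ / r⌋, ⟨τ, hτ, hc⟩, ?_, ?_⟩
  · have := hc.1
    nlinarith [hd.1]
  · have := hc.2
    nlinarith [hd.2]

variable {a T h0 c1 C2 : ℝ} {S : Set ℝ} {y : ℝ → ℝ}

theorem Dat.bdd (D : Dat a T h0 c1 C2 S y) : Bornology.IsBounded S :=
  (isBounded_Ioc a T).subset D.sub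

/-- the number of the cells which meet `B` -/
theorem Dat.count (D : Dat a T h0 c1 C2 S y) {B : Set ℝ} (hB : B ⊆ S) {s : ℝ} (hs : 0 < s)
    (h1 : 2 * s ≤ h0) (h2 : 2 * s ≤ a) :
    ((cells s B).ncard : ℝ) * (c1 / √(2 * s) * s) ≤ (dm T y).real (thickening (2 * s) B) := by
  classical
  have := D.fin
  have hfin := cells_fin hs (D.bdd.subset hB)
  set K := hfin.toFinset with hK
  have hcard : (cells s B).ncard = K.card := ncard_eq_toFinset_card _ hfin
  have hmem : ∀ k ∈ K, c1 / √(2 * s) * s ≤ (dm T y).real (cell s (k - 1)) := by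
    intro k hk
    rw [hK, Set.Finite.mem_toFinset] at hk
    obtain ⟨σ, hσ, h3, h4⟩ := hk
    have h5 := D.left (hB hσ) (by positivity : 0 < 2 * s) h1 h2 (meas_cell s (k - 1)) (by
      rintro t ⟨ht1, ht2⟩
      push_cast at ht1 ht2
      exact ⟨by linarith, by linarith⟩)
    rwa [vol_cell hs] at h5
  have hdisj : (K : Set ℤ).PairwiseDisjoint fun k => cell s (k - 1) := by
    intro k _ l _ hkl
    exact cell_disj hs (by omega)
  calc ((cells s B).ncard : ℝ) * (c1 / √(2 * s) * s) = ∑ k ∈ K, c1 / √(2 * s) * s := by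
        rw [hcard, Finset.sum_const, nsmul_eq_mul]
    _ ≤ ∑ k ∈ K, (dm T y).real (cell s (k - 1)) := Finset.sum_le_sum hmem
    _ = (dm T y).real (⋃ k ∈ K, cell s (k - 1)) :=
        (measureReal_biUnion_finset hdisj fun k _ => meas_cell s (k - 1)).symm
    _ ≤ _ := by
        refine measureReal_mono (iUnion₂_subset fun k hk => ?_)
        rw [hK, Set.Finite.mem_toFinset] at hk
        obtain ⟨σ, hσ, h3, h4⟩ := hk
        rintro t ⟨ht1, ht2⟩
        push_cast at ht1 ht2
        refine mem_thickening_iff.2 ⟨σ, hσ, ?_⟩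
        rw [Real.dist_eq, abs_lt]
        exact ⟨by linarith, by linarith⟩

/-- the volume of the neighborhood of `B` -/
theorem vol_thick {B : Set ℝ} (hB : Bornology.IsBounded B) {s : ℝ} (hs : 0 < s) :
    volume.real (thickening s B) ≤ (cells s B).ncard * (3 * s) := by
  classical
  have hfin := cells_fin hs hB
  set K := hfin.toFinset with hK
  have hcard : (cells s B).ncard = K.card := ncard_eq_toFinset_card _ hfin
  have h1 : thickening s B ⊆ ⋃ k ∈ K, Ioo (((k : ℝ) - 1) * s) ((k + 2) * s) := by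
    refine (thick_sub hs le_rfl).trans ?_
    intro x hx
    obtain ⟨k, hk, hx⟩ := mem_iUnion₂.1 hx
    exact mem_iUnion₂.2 ⟨k, hfin.mem_toFinset.2 hk, hx⟩
  calc volume.real (thickening s B) ≤ volume.real (⋃ k ∈ K, Ioo (((k : ℝ) - 1) * s) ((k + 2) * s)) := by
        refine measureReal_mono h1 ?_
        refine ((measure_biUnion_finset_le _ _).trans_lt ?_).ne
        exact ENNReal.sum_lt_top.2 fun k _ => by simp
    _ ≤ ∑ k ∈ K, volume.real (Ioo (((k : ℝ) - 1) * s) ((k + 2) * s)) :=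
        measureReal_biUnion_finset_le _ _
    _ = ∑ k ∈ K, 3 * s := by
        refine Finset.sum_congr rfl fun k _ => ?_
        rw [Real.volume_real_Ioo_of_le (by nlinarith)]
        ring
    _ = _ := by rw [Finset.sum_const, nsmul_eq_mul, hcard]

/-- One step: the mass near `B` decreases by a fixed fraction. -/
theorem Dat.step (D : Dat a T h0 c1 C2 S y) {B : Set ℝ} (hB : B ⊆ S) {r r' Θ : ℝ} (hr : 0 < r)
    (hr' : 0 < r') (hrr : r' ≤ r) (h7 : 7 * r ≤ h0) (h5 : 5 * r ≤ a) (hΘ : 0 < Θ)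
    (hd : ∀ τ ∈ B, (dm T y).real (ball τ (10 * r)) ≤ Θ * √r)
    (hk : 72 * Θ ^ 2 * r' ≤ c1 ^ 2 * r) :
    (dm T y).real (thickening r' B) * (1 + c4 c1 C2 * Θ ^ (-(2 / 5) : ℝ))
      ≤ (dm T y).real (thickening (6 * r) B) := by
  classical
  have := D.fin
  have hc1 := D.hc1
  have hc4 := c4_pos D.hc1 D.hC2
  set μ := dm T y with hμ
  have hBb := D.bdd.subset hB
  have hfin := cells_fin hr hBb
  set K := hfin.toFinset with hK
  set U := thickening r' B with hU
  have hUm : MeasurableSet U := isOpen_thickening.measurableSet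
  -- the gaps
  let J : ℤ → Set ℝ := fun k => cell r (k - 4) \ U
  have hJm : ∀ k, MeasurableSet (J k) := fun k => (meas_cell _ _).diff hUm
  have hJd : (K : Set ℤ).PairwiseDisjoint J := by
    intro k _ l _ hkl
    exact (cell_disj hr (by omega : k - 4 ≠ l - 4)).mono sdiff_subset sdiff_subset
  have hgap : ∀ k ∈ K, c4 c1 C2 * Θ ^ (-(2 / 5) : ℝ) *
      μ.real (Ioo (((k : ℝ) - 1) * r) ((k + 2) * r)) ≤ μ.real (J k) := by
    intro k hkK
    rw [hK, Set.Finite.mem_toFinset] at hkK
    obtain ⟨τ, hτ, h3, h4⟩ := hkK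
    refine D.gap (τ := τ) (r := r) (p := k * r) (hB hτ) hr h7 h5 hΘ (hJm k) ?_ h3
      (by linarith) ?_ ?_ ?_
    · rintro t ⟨⟨ht1, ht2⟩, -⟩
      push_cast at ht1 ht2
      exact ⟨by linarith, by linarith⟩
    · -- the volume
      set B' := B ∩ Icc ((k - 5) * r) ((k - 2) * r) with hB'
      have hB'b : Bornology.IsBounded B' := hBb.subset inter_subset_left
      have a1 := D.count (B := B') (inter_subset_left.trans hB) hr' (by linarith) (by linarith)
      have a2 : μ.real (thickening (2 * r') B') ≤ Θ * √r := by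
        refine le_trans (measureReal_mono ?_) (hd τ hτ)
        intro x hx
        obtain ⟨σ, hσ, h6⟩ := mem_thickening_iff.1 hx
        rw [Real.dist_eq, abs_lt] at h6
        rw [mem_ball, Real.dist_eq, abs_lt]
        have h8 := hσ.2.1
        have h9 := hσ.2.2
        constructor
        · nlinarith [h6.1]
        · nlinarith [h6.2]
      have a3 := vol_thick hB'b hr'
      have a4 : cell r (k - 4) ⊆ J k ∪ thickening r' B' := by
        intro t ht
        by_cases htU : t ∈ U
        · right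
          obtain ⟨σ, hσ, h6⟩ := mem_thickening_iff.1 htU
          refine mem_thickening_iff.2 ⟨σ, ⟨hσ, ?_⟩, h6⟩
          rw [Real.dist_eq, abs_lt] at h6
          obtain ⟨ht1, ht2⟩ := ht
          push_cast at ht1 ht2
          constructor
          · nlinarith [h6.2]
          · nlinarith [h6.1]
        · left; exact ⟨ht, htU⟩
      have a5 : r ≤ volume.real (J k) + volume.real (thickening r' B') := by
        rw [← vol_cell hr (k - 4)]
        refine (measureReal_mono a4 ?_).trans (measureReal_union_le _ _)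
        refine measure_union_ne_top ?_ ?_
        · exact (measure_mono sdiff_subset).trans_lt (by unfold cell; simp) |>.ne
        · exact (hB'b.thickening).measure_lt_top.ne
      -- the count
      set N : ℝ := ((cells r' B').ncard : ℝ) with hN
      have hN0 : 0 ≤ N := by positivity
      have a6 : N * (c1 / √(2 * r') * r') ≤ Θ * √r := a1.trans a2
      have a7 : N * (3 * r') ≤ r / 2 := by
        have hs2 : 0 < √(2 * r') := Real.sqrt_pos.2 (by positivity)
        have e1 : N * (c1 * r') ≤ Θ * √r * √(2 * r') := by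
          have : N * (c1 / √(2 * r') * r') * √(2 * r') = N * (c1 * r') := by
            field_simp
          rw [← this]
          gcongr
        have e2 : √r * √(2 * r') ≤ c1 * r / (6 * Θ) := by
          rw [← Real.sqrt_mul hr.le]
          refine Real.sqrt_le_iff.2 ⟨by positivity, ?_⟩
          rw [div_pow, le_div_iff₀ (by positivity)]
          nlinarith [mul_le_mul_of_nonneg_left hk hr.le]
        have e3 : Θ * √r * √(2 * r') ≤ Θ * (c1 * r / (6 * Θ)) := by
          rw [mul_assoc]; gcongr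
        have e4 : Θ * (c1 * r / (6 * Θ)) = c1 * (r / 6) := by field_simp
        have e5 : c1 * (N * r') ≤ c1 * (r / 6) := by linarith
        have e6 := le_of_mul_le_mul_left e5 hc1
        linarith
      linarith
    · congr 2
      · ring
      · ring
    · refine le_trans (measureReal_mono ?_) (hd τ hτ)
      rintro x ⟨hx1, hx2⟩
      rw [mem_ball, Real.dist_eq, abs_lt]
      constructor <;> nlinarith
  have h1 : μ.real U ≤ ∑ k ∈ K, μ.real (Ioo (((k : ℝ) - 1) * r) ((k + 2) * r)) := by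
    refine le_trans (measureReal_mono ?_ (measure_ne_top _ _)) (measureReal_biUnion_finset_le K _)
    refine (thick_sub hr hrr).trans ?_
    intro x hx
    obtain ⟨k, hk, hx⟩ := mem_iUnion₂.1 hx
    exact mem_iUnion₂.2 ⟨k, hfin.mem_toFinset.2 hk, hx⟩
  have h2 : c4 c1 C2 * Θ ^ (-(2 / 5) : ℝ) * μ.real U ≤ μ.real (⋃ k ∈ K, J k) := by
    calc c4 c1 C2 * Θ ^ (-(2 / 5) : ℝ) * μ.real U
        ≤ c4 c1 C2 * Θ ^ (-(2 / 5) : ℝ) * ∑ k ∈ K, μ.real (Ioo (((k : ℝ) - 1) * r) ((k + 2) * r)) := by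
          gcongr
      _ = ∑ k ∈ K, c4 c1 C2 * Θ ^ (-(2 / 5) : ℝ) * μ.real (Ioo (((k : ℝ) - 1) * r) ((k + 2) * r)) := by
          rw [Finset.mul_sum]
      _ ≤ ∑ k ∈ K, μ.real (J k) := Finset.sum_le_sum hgap
      _ = _ := (measureReal_biUnion_finset hJd fun k _ => hJm k).symm
  have h3 : Disjoint U (⋃ k ∈ K, J k) := by
    rw [disjoint_iUnion₂_right]
    intro k _
    exact disjoint_sdiff_right
  have h4 : U ∪ (⋃ k ∈ K, J k) ⊆ thickening (6 * r) B := by
    refine union_subset (thickening_mono (by linarith) _) (iUnion₂_subset fun k hk => ?_)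
    rw [hK, Set.Finite.mem_toFinset] at hk
    obtain ⟨τ, hτ, h3, h4⟩ := hk
    rintro t ⟨⟨ht1, ht2⟩, -⟩
    push_cast at ht1 ht2
    refine mem_thickening_iff.2 ⟨τ, hτ, ?_⟩
    rw [Real.dist_eq, abs_lt]
    constructor <;> linarith
  have h5 : μ.real (U ∪ ⋃ k ∈ K, J k) = μ.real U + μ.real (⋃ k ∈ K, J k) :=
    measureReal_union h3 (Finset.measurableSet_biUnion _ fun k _ => hJm k) (measure_ne_top _ _)
      (measure_ne_top _ _)
  have h6 := measureReal_mono (μ := μ) h4
  linarith

end Pool.Agent.J4H18.LT
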