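import Pool.Agent.J4H18.LT.A2

/-!
Singular times: the real variable part, iteration over the scales and the cover.
-/

set_option autoImplicit false

open MeasureTheory Set Metric

namespace Pool.Agent.J4H18.LT

variable {a T h0 c1 C2 : ℝ} {S : Set ℝ} {y : ℝ → ℝ}

/-- Iteration over the scales. -/
theorem Dat.iter (D : Dat a T h0 c1 C2 S y) {B : Set ℝ} (hB : B ⊆ S) {s Θ Λ : ℝ} (hs : 0 < s)
    (hΘ : 0 < Θ) (hΛ : 6 ≤ Λ) (hΛ' : 432 * Θ ^ 2 ≤ c1 ^ 2 * Λ) (n : ℕ)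
    (h1 : 7 * (s * Λ ^ n / 6) ≤ h0) (h2 : 5 * (s * Λ ^ n / 6) ≤ a)
    (hd : ∀ i < n, ∀ τ ∈ B, (dm T y).real (ball τ (10 * (s * Λ ^ (i + 1) / 6)))
      ≤ Θ * √(s * Λ ^ (i + 1) / 6)) :
    (dm T y).real (thickening s B) * (1 + c4 c1 C2 * Θ ^ (-(2 / 5) : ℝ)) ^ n
      ≤ (dm T y).real univ := by
  have := D.fin
  have hc4 := c4_pos D.hc1 D.hC2
  have hΛ0 : (0 : ℝ) < Λ := by linarith
  suffices H : (dm T y).real (thickening s B) * (1 + c4 c1 C2 * Θ ^ (-(2 / 5) : ℝ)) ^ n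
      ≤ (dm T y).real (thickening (s * Λ ^ n) B) from
    H.trans (measureReal_mono (subset_univ _) (measure_ne_top _ _))
  induction n with
  | zero => simp
  | succ n ih =>
    have hle : s * Λ ^ n ≤ s * Λ ^ (n + 1) := by
      rw [pow_succ]
      have : 0 ≤ s * Λ ^ n := by positivity
      nlinarith
    have ih' := ih (by linarith) (by linarith) fun i hi => hd i (by omega)
    have hst := D.step hB (r := s * Λ ^ (n + 1) / 6) (r' := s * Λ ^ n) (Θ := Θ)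
      (by positivity) (by positivity) (by
        rw [pow_succ]
        have : 0 ≤ s * Λ ^ n := by positivity
        nlinarith) h1 h2 hΘ (hd n (by omega)) (by
        have e : c1 ^ 2 * (s * Λ ^ (n + 1) / 6) = (c1 ^ 2 * Λ) * (s * Λ ^ n) / 6 := by ring
        rw [e]
        have : 0 ≤ s * Λ ^ n := by positivity
        nlinarith)
    rw [show 6 * (s * Λ ^ (n + 1) / 6) = s * Λ ^ (n + 1) by ring] at hst
    calc (dm T y).real (thickening s B) * (1 + c4 c1 C2 * Θ ^ (-(2 / 5) : ℝ)) ^ (n + 1)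
        = (dm T y).real (thickening s B) * (1 + c4 c1 C2 * Θ ^ (-(2 / 5) : ℝ)) ^ n
          * (1 + c4 c1 C2 * Θ ^ (-(2 / 5) : ℝ)) := by ring
      _ ≤ (dm T y).real (thickening (s * Λ ^ n) B) * (1 + c4 c1 C2 * Θ ^ (-(2 / 5) : ℝ)) := by
          gcongr
      _ ≤ _ := hst

/-- The bad points: at some scale the density is large. -/
def bad (T : ℝ) (y : ℝ → ℝ) (S : Set ℝ) (σ Θ Λ : ℝ) (n : ℕ) : Set ℝ :=
  {τ | τ ∈ S ∧ ∃ i < n, Θ * √(2 * σ * Λ ^ (i + 1) / 6) <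
    (dm T y).real (ball τ (10 * (2 * σ * Λ ^ (i + 1) / 6)))}

/-- the cover of the bad points -/
theorem Dat.cover_bad (D : Dat a T h0 c1 C2 S y) {σ Θ Λ : ℝ} (hσ : 0 < σ)
    (hΘ : 0 < Θ) (hΛ : 6 ≤ Λ) (n : ℕ) {g : ℝ → ℝ} {r0 : ℝ} (hg0 : ∀ r ∈ Ioc 0 r0, 0 ≤ g r)
    (hg : AntitoneOn g (Ioc 0 r0)) (hr0 : 34 * (σ * Λ ^ n) ≤ r0) :
    ∃ (ι : Type) (_ : Countable ι) (p r : ι → ℝ), (∀ i, 0 < r i ∧ r i ≤ 34 * (σ * Λ ^ n)) ∧
      ∑' i, ENNReal.ofReal (√(r i) * g (r i))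
        ≤ ENNReal.ofReal (10 * g σ * (dm T y).real univ / Θ) ∧
      bad T y S σ Θ Λ n ⊆ ⋃ i, Icc (p i) (p i + r i) := by
  classical
  have := D.fin
  have hΛ0 : (0 : ℝ) < Λ := by linarith
  have hΛ1 : (1 : ℝ) ≤ Λ := by linarith
  set A := bad T y S σ Θ Λ n with hA
  have hch : ∀ τ : ℝ, ∃ i : ℕ, τ ∈ A → i < n ∧ Θ * √(2 * σ * Λ ^ (i + 1) / 6) <
      (dm T y).real (ball τ (10 * (2 * σ * Λ ^ (i + 1) / 6))) := by
    intro τ
    by_cases h : τ ∈ A
    · obtain ⟨-, i, hi, h2⟩ := h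
      exact ⟨i, fun _ => ⟨hi, h2⟩⟩
    · exact ⟨0, fun h' => absurd h' h⟩
  choose i hi using hch
  set q : ℝ → ℝ := fun τ => 2 * σ * Λ ^ (i τ + 1) / 6 with hq
  have hq0 : ∀ τ, 0 < q τ := fun τ => by rw [hq]; positivity
  have hqle : ∀ τ ∈ A, q τ ≤ σ * Λ ^ n / 3 := by
    intro τ hτ
    have h1 := (hi τ hτ).1
    have h2 : Λ ^ (i τ + 1) ≤ Λ ^ n := pow_le_pow_right₀ hΛ1 (by omega)
    have h3 : σ * Λ ^ (i τ + 1) ≤ σ * Λ ^ n := mul_le_mul_of_nonneg_left h2 hσ.le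
    simp only [hq]
    linarith
  have hqge : ∀ τ ∈ A, σ ≤ q τ := by
    intro τ hτ
    have h2 : Λ ^ 1 ≤ Λ ^ (i τ + 1) := pow_le_pow_right₀ hΛ1 (by omega)
    have h3 : σ * 6 ≤ σ * Λ ^ (i τ + 1) := by
      refine mul_le_mul_of_nonneg_left ?_ hσ.le
      linarith [pow_one Λ]
    simp only [hq]
    linarith
  obtain ⟨U, hUA, hUd, hUc⟩ := Vitali.exists_disjoint_subfamily_covering_enlargement_closedBall
    A (fun τ => τ) (fun τ => 10 * q τ) (10 * (σ * Λ ^ n / 3))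
    (fun τ hτ => by have := hqle τ hτ; linarith) 5 (by norm_num)
  have hUcount : U.Countable := by
    refine hUd.countable_of_nonempty_interior fun τ _ => ?_
    refine ⟨τ, ?_⟩
    rw [interior_closedBall _ (by have := hq0 τ; positivity)]
    exact mem_ball_self (by have := hq0 τ; positivity)
  have hcc : Countable U := hUcount.to_subtype
  refine ⟨U, hcc, fun τ => (τ : ℝ) - 50 * q τ, fun τ => 100 * q τ, ?_, ?_, ?_⟩
  · intro τ
    refine ⟨by have := hq0 τ; positivity, ?_⟩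
    have h4 := hqle τ (hUA τ.2)
    have h5 : 0 ≤ σ * Λ ^ n := by positivity
    linarith
  · have hterm : ∀ τ : U, ENNReal.ofReal (√(100 * q τ) * g (100 * q τ))
        ≤ ENNReal.ofReal (10 * g σ / Θ) * (dm T y) (closedBall (τ : ℝ) (10 * q τ)) := by
      intro τ
      have h4 := hqle τ (hUA τ.2)
      have h5 := hqge τ (hUA τ.2)
      have h6 := (hi τ (hUA τ.2)).2
      have h7 : 0 ≤ σ * Λ ^ n := by positivity
      have h8 : g (100 * q τ) ≤ g σ := hg ⟨hσ, by linarith [hq0 τ]⟩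
        ⟨by linarith [hq0 τ], by linarith⟩ (by linarith [hq0 τ])
      have h9 : 0 ≤ g σ := hg0 σ ⟨hσ, by linarith [hq0 τ]⟩
      have h10 : √(100 * q τ) = 10 * √(q τ) := by
        rw [show (100 : ℝ) * q τ = 10 ^ 2 * q τ by norm_num, Real.sqrt_mul (by norm_num),
          Real.sqrt_sq (by norm_num)]
      have h11 : √(q τ) ≤ (dm T y).real (closedBall (τ : ℝ) (10 * q τ)) / Θ := by
        rw [le_div_iff₀ hΘ]
        have : (dm T y).real (ball (τ : ℝ) (10 * q τ))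
            ≤ (dm T y).real (closedBall (τ : ℝ) (10 * q τ)) :=
          measureReal_mono ball_subset_closedBall (measure_ne_top _ _)
        simp only [hq] at h6 this ⊢
        linarith
      have h12 : √(100 * q τ) * g (100 * q τ)
          ≤ 10 * g σ / Θ * (dm T y).real (closedBall (τ : ℝ) (10 * q τ)) := by
        rw [h10]
        calc 10 * √(q τ) * g (100 * q τ) ≤ 10 * √(q τ) * g σ := by gcongr
          _ ≤ 10 * ((dm T y).real (closedBall (τ : ℝ) (10 * q τ)) / Θ) * g σ := by gcongr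
          _ = _ := by ring
      calc ENNReal.ofReal (√(100 * q τ) * g (100 * q τ))
          ≤ ENNReal.ofReal (10 * g σ / Θ * (dm T y).real (closedBall (τ : ℝ) (10 * q τ))) :=
            ENNReal.ofReal_le_ofReal h12
        _ = _ := by
          rw [ENNReal.ofReal_mul (by positivity), ofReal_measureReal (measure_ne_top _ _)]
    calc ∑' τ : U, ENNReal.ofReal (√(100 * q τ) * g (100 * q τ))
        ≤ ∑' τ : U, ENNReal.ofReal (10 * g σ / Θ) * (dm T y) (closedBall (τ : ℝ) (10 * q τ)) :=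
          ENNReal.tsum_le_tsum hterm
      _ = ENNReal.ofReal (10 * g σ / Θ) * ∑' τ : U, (dm T y) (closedBall (τ : ℝ) (10 * q τ)) :=
          ENNReal.tsum_mul_left
      _ = ENNReal.ofReal (10 * g σ / Θ) * (dm T y) (⋃ τ ∈ U, closedBall (τ : ℝ) (10 * q τ)) := by
          rw [measure_biUnion hUcount hUd fun τ _ => measurableSet_closedBall]
      _ ≤ ENNReal.ofReal (10 * g σ / Θ) * (dm T y) univ := by
          gcongr
          exact subset_univ _
      _ = _ := by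
          have h9 : 0 ≤ g σ := by
            refine hg0 σ ⟨hσ, ?_⟩
            have : 1 ≤ Λ ^ n := one_le_pow₀ hΛ1
            nlinarith
          rw [← ofReal_measureReal (measure_ne_top _ _), ← ENNReal.ofReal_mul (by positivity)]
          congr 1
          ring
  · intro τ hτ
    obtain ⟨b, hbU, hb⟩ := hUc τ hτ
    refine mem_iUnion.2 ⟨⟨b, hbU⟩, ?_⟩
    have h1 : τ ∈ closedBall τ (10 * q τ) := mem_closedBall_self (by have := hq0 τ; positivity)
    have h2 := hb h1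
    rw [Real.closedBall_eq_Icc] at h2
    exact ⟨by linarith [h2.1], by linarith [h2.2]⟩

/-- the cover of all points -/
theorem Dat.cover (D : Dat a T h0 c1 C2 S y) {σ Θ Λ : ℝ} (hσ : 0 < σ)
    (hΘ : 0 < Θ) (hΛ : 6 ≤ Λ) (hΛ' : 432 * Θ ^ 2 ≤ c1 ^ 2 * Λ) (n : ℕ) {g : ℝ → ℝ} {r0 : ℝ}
    (hg0 : ∀ r ∈ Ioc 0 r0, 0 ≤ g r)
    (hg : AntitoneOn g (Ioc 0 r0)) (hr0 : 34 * (σ * Λ ^ n) ≤ r0)
    (h1 : 3 * (σ * Λ ^ n) ≤ h0) (h2 : 2 * (σ * Λ ^ n) ≤ a) :
    ∃ (ι : Type) (_ : Countable ι) (p r : ι → ℝ), (∀ i, 0 < r i ∧ r i ≤ 34 * (σ * Λ ^ n)) ∧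
      ∑' i, ENNReal.ofReal (√(r i) * g (r i))
        ≤ ENNReal.ofReal (10 * g σ * (dm T y).real univ / Θ
          + 2 / c1 * g σ * ((dm T y).real univ / (1 + c4 c1 C2 * Θ ^ (-(2 / 5) : ℝ)) ^ n)) ∧
      S ⊆ ⋃ i, Icc (p i) (p i + r i) := by
  classical
  have := D.fin
  have hc1 := D.hc1
  have hc4 := c4_pos D.hc1 D.hC2
  have hΛ0 : (0 : ℝ) < Λ := by linarith
  have hΛn : 1 ≤ Λ ^ n := one_le_pow₀ (by linarith)
  have hσn : σ ≤ σ * Λ ^ n := by nlinarith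
  have hgσ : 0 ≤ g σ := hg0 σ ⟨hσ, by linarith⟩
  obtain ⟨ι, hι, p, r, a1, a2, a3⟩ := D.cover_bad hσ hΘ hΛ n hg0 hg hr0
  set B := S \ bad T y S σ Θ Λ n with hB
  have hBS : B ⊆ S := sdiff_subset
  have hfin := cells_fin hσ (D.bdd.subset hBS)
  set K := hfin.toFinset with hK
  have hcard : (cells σ B).ncard = K.card := ncard_eq_toFinset_card _ hfin
  have b1 := D.count hBS hσ (by linarith) (by linarith)
  have b2 := D.iter hBS (s := 2 * σ) (Θ := Θ) (Λ := Λ) (by positivity) hΘ hΛ hΛ' n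
    (by linarith) (by linarith) (by
      intro i hi τ hτ
      by_contra hcon
      push Not at hcon
      exact hτ.2 ⟨hτ.1, i, hi, hcon⟩)
  set E := (dm T y).real univ with hE
  set Q := (1 + c4 c1 C2 * Θ ^ (-(2 / 5) : ℝ)) ^ n with hQ
  have hQ0 : 0 < Q := by positivity
  have b3 : (dm T y).real (thickening (2 * σ) B) ≤ E / Q := by
    rw [le_div_iff₀ hQ0]; exact b2
  have b4 : (K.card : ℝ) * √σ ≤ 2 / c1 * (E / Q) := by
    have e1 : c1 / √(2 * σ) * σ = c1 / √2 * √σ := by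
      rw [Real.sqrt_mul (by norm_num)]
      have : √σ ≠ 0 := (Real.sqrt_pos.2 hσ).ne'
      have h2' : √(2 : ℝ) ≠ 0 := by positivity
      field_simp
      rw [Real.sq_sqrt hσ.le]
    rw [hcard, e1] at b1
    have e2 : √(2 : ℝ) ≤ 2 := by
      rw [Real.sqrt_le_left (by norm_num)]; norm_num
    have hs2 : 0 < √(2 : ℝ) := by positivity
    have e3 : (K.card : ℝ) * √σ = √2 / c1 * ((K.card : ℝ) * (c1 / √2 * √σ)) := by
      field_simp
    rw [e3]
    have : 0 ≤ E / Q := by positivity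
    calc √2 / c1 * ((K.card : ℝ) * (c1 / √2 * √σ)) ≤ √2 / c1 * (E / Q) := by
          gcongr
          exact b1.trans b3
      _ ≤ 2 / c1 * (E / Q) := by gcongr
  refine ⟨ι ⊕ K, inferInstance, Sum.elim p (fun k => (k : ℤ) * σ), Sum.elim r (fun _ => σ),
    ?_, ?_, ?_⟩
  · rintro (i | k)
    · exact a1 i
    · exact ⟨hσ, by simp only [Sum.elim_inr]; linarith⟩
  · rw [Summable.tsum_sum (f := fun x : ι ⊕ K => _) ENNReal.summable ENNReal.summable]
    simp only [Sum.elim_inl, Sum.elim_inr]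
    rw [ENNReal.ofReal_add (by positivity) (by positivity)]
    refine add_le_add a2 ?_
    rw [tsum_fintype, Finset.sum_const, Finset.card_univ, Fintype.card_coe, nsmul_eq_mul,
      ← ENNReal.ofReal_natCast, ← ENNReal.ofReal_mul (by positivity)]
    refine ENNReal.ofReal_le_ofReal ?_
    calc (K.card : ℝ) * (√σ * g σ) = (K.card : ℝ) * √σ * g σ := by ring
      _ ≤ 2 / c1 * (E / Q) * g σ := by gcongr
      _ = _ := by ring
  · intro τ hτ
    by_cases hb : τ ∈ bad T y S σ Θ Λ n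
    · obtain ⟨i, hi⟩ := mem_iUnion.1 (a3 hb)
      exact mem_iUnion.2 ⟨Sum.inl i, hi⟩
    · have hk : ⌊τ / σ⌋ ∈ K := by
        rw [hK, Set.Finite.mem_toFinset]
        exact ⟨τ, ⟨hτ, hb⟩, mem_cell_floor hσ τ⟩
      have := mem_cell_floor hσ τ
      refine mem_iUnion.2 ⟨Sum.inr ⟨_, hk⟩, ?_⟩
      simp only [Sum.elim_inr]
      exact ⟨this.1, by linarith [this.2]⟩

end Pool.Agent.J4H18.LT
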