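import Pool.Agent.J4H18.LT.A3

/-!
Singular times: the real variable part, choice of the parameters.
-/

set_option autoImplicit false

open MeasureTheory Set Metric Filter Topology

namespace Pool.Agent.J4H18.LT

variable {a T h0 c1 C2 : ℝ} {S : Set ℝ} {y : ℝ → ℝ}

/-- `S` is a null set for the Hausdorff measure of the gauge `h`: for each `ρ > 0` it has a
countable cover by intervals of lengths `rᵢ ≤ ρ` with `∑ h(rᵢ) ≤ ρ`. -/
def NullG (h : ℝ → ℝ) (S : Set ℝ) : Prop := ∀ ρ : ℝ, 0 < ρ →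
  ∃ (ι : Type) (_ : Countable ι) (p r : ι → ℝ), (∀ i, 0 < r i ∧ r i ≤ ρ) ∧
    ∑' i, ENNReal.ofReal (h (r i)) ≤ ENNReal.ofReal ρ ∧ S ⊆ ⋃ i, Icc (p i) (p i + r i)

/-- the iterated logarithm -/
noncomputable def ll (j : ℝ) : ℝ := 1 + Real.log (1 + j)

theorem one_le_ll {j : ℝ} (hj : 0 ≤ j) : 1 ≤ ll j := by
  unfold ll
  linarith [Real.log_nonneg (by linarith : (1 : ℝ) ≤ 1 + j)]

theorem ll_small (C : ℝ) : ∃ J : ℝ, 1 ≤ J ∧ ∀ j : ℝ, J ≤ j → C * ll j ^ 5 ≤ j := by
  have h1 := Real.isLittleO_pow_log_id_atTop (n := 5)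
  have h2 : Tendsto (fun j : ℝ => Real.exp 1 * (1 + j)) atTop atTop := by
    refine Tendsto.const_mul_atTop (Real.exp_pos 1) ?_
    exact tendsto_atTop_add_const_left _ _ tendsto_id
  have h3 := h1.comp_tendsto h2
  have hc : 0 < 1 / (2 * Real.exp 1 * (|C| + 1)) := by positivity
  have h4 := h3.bound hc
  obtain ⟨J, hJ⟩ := eventually_atTop.1 h4
  refine ⟨max J 1, le_max_right _ _, fun j hj => ?_⟩
  have hj1 : 1 ≤ j := (le_max_right _ _).trans hj
  have h5 := hJ j ((le_max_left _ _).trans hj)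
  simp only [Function.comp_apply, id, Real.norm_eq_abs] at h5
  have e1 : Real.log (Real.exp 1 * (1 + j)) = ll j := by
    rw [Real.log_mul (Real.exp_pos 1).ne' (by positivity), Real.log_exp, ll]
  have h6 : 1 ≤ ll j := one_le_ll (by linarith)
  rw [e1, abs_of_nonneg (show (0 : ℝ) ≤ ll j ^ 5 by positivity),
    abs_of_nonneg (show (0 : ℝ) ≤ Real.exp 1 * (1 + j) by positivity)] at h5
  have h7 : 1 / (2 * Real.exp 1 * (|C| + 1)) * (Real.exp 1 * (1 + j)) = (1 + j) / (2 * (|C| + 1)) := by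
    field_simp
  rw [h7] at h5
  have h8 : C ≤ |C| + 1 := by linarith [le_abs_self C]
  calc C * ll j ^ 5 ≤ (|C| + 1) * ll j ^ 5 := by gcongr
    _ ≤ (|C| + 1) * ((1 + j) / (2 * (|C| + 1))) := by gcongr
    _ = (1 + j) / 2 := by field_simp
    _ ≤ j := by linarith

theorem exp_half_le {x : ℝ} (hx : 0 ≤ x) : Real.exp (min x 1 / 2) ≤ 1 + x := by
  have h1 : 0 ≤ min x 1 := le_min hx zero_le_one
  have h2 : min x 1 ≤ 1 := min_le_right _ _
  have h3 : min x 1 ≤ x := min_le_left _ _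
  set t := min x 1 with ht
  have h4 : Real.exp (t / 2) ≤ 1 / (1 - t / 2) := by
    have := Real.add_one_le_exp (-(t / 2))
    have h5 : 0 < 1 - t / 2 := by linarith
    rw [le_div_iff₀ h5]
    have h6 : 1 - t / 2 ≤ Real.exp (-(t / 2)) := by linarith
    calc Real.exp (t / 2) * (1 - t / 2) ≤ Real.exp (t / 2) * Real.exp (-(t / 2)) := by gcongr
      _ = 1 := by rw [← Real.exp_add]; simp
  have h5 : 1 / (1 - t / 2) ≤ 1 + t := by
    rw [div_le_iff₀ (by linarith)]
    nlinarith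
  linarith

theorem Dat.null (D : Dat a T h0 c1 C2 S y) {h : ℝ → ℝ} {r0 : ℝ} (hr0 : 0 < r0)
    (hpos : ∀ r ∈ Ioc 0 r0, 0 < h r) (hmono : MonotoneOn (fun r => √r / h r) (Ioc 0 r0))
    (hlim : ∀ η > 0, ∀ ρ > 0, ∃ r ∈ Ioo 0 ρ,
      h r * (1 + Real.log (1 + |Real.log r|)) ^ 5 ≤ η * (√r * |Real.log r| ^ (5 / 2 : ℝ))) :
    NullG h S := by
  intro ρ hρ
  have := D.fin
  have hc1 := D.hc1
  have hh0 := D.hh0
  have ha := D.ha
  have hc4 := c4_pos D.hc1 D.hC2
  set E : ℝ := (dm T y).real univ with hE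
  have hE0 : 0 ≤ E := measureReal_nonneg
  -- the gauge
  set g : ℝ → ℝ := fun r => max (h r / √r) 1 with hg
  have hg1 : ∀ r, 1 ≤ g r := fun r => le_max_right _ _
  have hganti : AntitoneOn g (Ioc 0 r0) := by
    intro r hr s hs hrs
    have h1 := hmono hr hs hrs
    simp only at h1
    have hr' := Real.sqrt_pos.2 hr.1
    have hs' := Real.sqrt_pos.2 hs.1
    have p1 := hpos r hr
    have p2 := hpos s hs
    refine max_le_max ?_ le_rfl
    rw [div_le_div_iff₀ p1 p2] at h1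
    rw [div_le_div_iff₀ hs' hr']
    linarith
  have hhg : ∀ r ∈ Ioc 0 r0, h r ≤ √r * g r := by
    intro r hr
    have hr' := Real.sqrt_pos.2 hr.1
    calc h r = √r * (h r / √r) := by field_simp
      _ ≤ √r * g r := by gcongr; exact le_max_left _ _
  -- constants
  set δ : ℝ := min (min (h0 / 3) (a / 2)) (min (r0 / 34) (ρ / 34)) with hδ
  have hδ0 : 0 < δ := by
    rw [hδ]
    refine lt_min (lt_min (by positivity) (by positivity)) (lt_min (by positivity) (by positivity))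
  have hδ1 : δ ≤ h0 / 3 := (min_le_left _ _).trans (min_le_left _ _)
  have hδ2 : δ ≤ a / 2 := (min_le_left _ _).trans (min_le_right _ _)
  have hδ3 : δ ≤ r0 / 34 := (min_le_right _ _).trans (min_le_left _ _)
  have hδ4 : δ ≤ ρ / 34 := (min_le_right _ _).trans (min_le_right _ _)
  set K : ℝ := 20 * E / ρ + 1 with hK
  have hK1 : 1 ≤ K := by
    rw [hK]; have : 0 ≤ 20 * E / ρ := by positivity
    linarith
  set C5 : ℝ := Real.log (6 + 432 / c1 ^ 2) with hC5
  have hC50 : 0 ≤ C5 := Real.log_nonneg (by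
    have : 0 ≤ 432 / c1 ^ 2 := by positivity
    linarith)
  set C6 : ℝ := C5 + 2 * Real.log K + 5 with hC6
  have hlogK : 0 ≤ Real.log K := Real.log_nonneg hK1
  have hC61 : 5 ≤ C6 := by rw [hC6]; linarith
  set B' : ℝ := |Real.log (4 * (E + 1) / (c1 * ρ))| with hB'
  have hB'0 : 0 ≤ B' := abs_nonneg _
  set B : ℝ := 5 + 2 * B' with hB
  have hB5 : 5 ≤ B := by rw [hB]; linarith
  set η0 : ℝ := (c4 c1 C2 / (4 * C6 * K ^ (2 / 5 : ℝ) * B)) ^ (5 / 2 : ℝ) with hη0
  have hη00 : 0 < η0 := by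
    have : 0 < c4 c1 C2 / (4 * C6 * K ^ (2 / 5 : ℝ) * B) := by positivity
    positivity
  set η : ℝ := min η0 1 with hη
  have hηp : 0 < η := lt_min hη00 one_pos
  have hη1 : η ≤ 1 := min_le_right _ _
  have hη2 : η ≤ η0 := min_le_left _ _
  obtain ⟨J, hJ1, hJ⟩ := ll_small (4 * C6 * B + 1 / η)
  -- the scale
  set j0 : ℝ := max J (2 * |Real.log δ| + 1) with hj0
  obtain ⟨σ, ⟨hσ0, hσlt⟩, hσ⟩ := hlim η hηp (min (Real.exp (-j0)) (min δ r0)) (by positivity)
  have hσ1 : σ < Real.exp (-j0) := hσlt.trans_le (min_le_left _ _)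
  have hσ2 : σ < δ := hσlt.trans_le ((min_le_right _ _).trans (min_le_left _ _))
  have hσ3 : σ < r0 := hσlt.trans_le ((min_le_right _ _).trans (min_le_right _ _))
  set j : ℝ := -Real.log σ with hj
  have hjj0 : j0 < j := by
    have := Real.log_lt_log hσ0 hσ1
    rw [Real.log_exp] at this
    linarith
  have hjJ : J ≤ j := (le_max_left _ _).trans hjj0.le
  have hj1 : 1 ≤ j := hJ1.trans hjJ
  have hjδ : 2 * |Real.log δ| + 1 ≤ j := (le_max_right _ _).trans hjj0.le
  have habs : |Real.log σ| = j := by rw [abs_of_neg (by linarith)]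
  rw [habs, show 1 + Real.log (1 + j) = ll j from rfl] at hσ
  have hl1 : 1 ≤ ll j := one_le_ll (by linarith)
  have hJj := hJ j hjJ
  have hl5 : ll j ≤ ll j ^ 5 := le_self_pow₀ hl1 (by norm_num)
  have hl25 : ll j ^ 2 ≤ ll j ^ 5 := pow_le_pow_right₀ hl1 (by norm_num)
  have hηl : ll j ^ 5 ≤ η * j := by
    have h1 : 1 / η * ll j ^ 5 ≤ j := by
      have : 0 ≤ 4 * C6 * B * ll j ^ 5 := by positivity
      linarith [hJj]
    calc ll j ^ 5 = η * (1 / η * ll j ^ 5) := by field_simp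
      _ ≤ η * j := by gcongr
  have hCl : 4 * C6 * B * ll j ^ 2 ≤ j := by
    have h1 : 0 ≤ 1 / η * ll j ^ 5 := by positivity
    calc 4 * C6 * B * ll j ^ 2 ≤ 4 * C6 * B * ll j ^ 5 := by gcongr
      _ ≤ j := by linarith [hJj]
  -- bound of g σ
  have hsσ := Real.sqrt_pos.2 hσ0
  have hgσ : g σ ≤ η * j ^ (5 / 2 : ℝ) / ll j ^ 5 := by
    refine max_le ?_ ?_
    · rw [div_le_div_iff₀ hsσ (by positivity)]
      linarith
    · rw [one_le_div (by positivity)]
      refine hηl.trans ?_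
      have : j ≤ j ^ (5 / 2 : ℝ) := by
        nth_rewrite 1 [← Real.rpow_one j]
        exact Real.rpow_le_rpow_of_exponent_le hj1 (by norm_num)
      gcongr
  have hgj : g σ ≤ j ^ (5 / 2 : ℝ) := by
    refine hgσ.trans ?_
    rw [div_le_iff₀ (by positivity)]
    have h1 : 1 ≤ ll j ^ 5 := one_le_pow₀ hl1
    have h2 : 0 ≤ j ^ (5 / 2 : ℝ) := by positivity
    nlinarith
  have hlogg : Real.log (g σ) ≤ 5 / 2 * ll j := by
    have h1 := Real.log_le_log (by linarith [hg1 σ]) hgj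
    rw [Real.log_rpow (by linarith)] at h1
    have h2 : Real.log j ≤ ll j := by
      unfold ll
      have := Real.log_le_log (by linarith) (by linarith : j ≤ 1 + j)
      linarith
    linarith
  set Θ : ℝ := K * g σ with hΘ
  have hΘ1 : 1 ≤ Θ := by
    rw [hΘ]; exact one_le_mul_of_one_le_of_one_le hK1 (hg1 σ)
  set Λ : ℝ := 6 + 432 * Θ ^ 2 / c1 ^ 2 with hΛ
  have hΛ6 : 6 ≤ Λ := by
    have : 0 ≤ 432 * Θ ^ 2 / c1 ^ 2 := by positivity
    rw [hΛ]; linarith
  have hΛc : 432 * Θ ^ 2 ≤ c1 ^ 2 * Λ := by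
    have e1 : c1 ^ 2 * Λ = 6 * c1 ^ 2 + 432 * Θ ^ 2 := by rw [hΛ]; field_simp
    have : 0 ≤ 6 * c1 ^ 2 := by positivity
    linarith
  have hlogΛ : Real.log Λ ≤ C6 * ll j := by
    have h1 : Λ ≤ (6 + 432 / c1 ^ 2) * Θ ^ 2 := by
      have h2 : 1 ≤ Θ ^ 2 := one_le_pow₀ hΘ1
      rw [hΛ]
      have : (6 + 432 / c1 ^ 2) * Θ ^ 2 = 6 * Θ ^ 2 + 432 * Θ ^ 2 / c1 ^ 2 := by ring
      linarith
    have h2 : 0 < 6 + 432 / c1 ^ 2 := by positivity
    have h3 := Real.log_le_log (by linarith) h1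
    have hgp : 0 < g σ := by linarith [hg1 σ]
    have hKp : 0 < K := by linarith
    rw [Real.log_mul h2.ne' (by positivity), Real.log_pow, hΘ, Real.log_mul hKp.ne' hgp.ne'] at h3
    push_cast at h3
    calc Real.log Λ ≤ C5 + 2 * Real.log K + 5 * ll j := by rw [hC5]; linarith
      _ ≤ C6 * ll j := by
        rw [hC6]
        nlinarith
  have hlogΛ0 : 0 < Real.log Λ := Real.log_pos (by linarith)
  -- the number of steps
  set n : ℕ := ⌊Real.log (δ / σ) / Real.log Λ⌋₊ with hn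
  have hlδσ : Real.log (δ / σ) = Real.log δ + j := by
    rw [Real.log_div hδ0.ne' hσ0.ne', hj]; ring
  have hlδσ2 : j / 2 ≤ Real.log (δ / σ) := by
    rw [hlδσ]
    have := neg_abs_le (Real.log δ)
    linarith
  have hnle : σ * Λ ^ n ≤ δ := by
    have hl0 : 0 ≤ Real.log (δ / σ) := by linarith
    have h1 : (n : ℝ) ≤ Real.log (δ / σ) / Real.log Λ := Nat.floor_le (by positivity)
    rw [le_div_iff₀ hlogΛ0] at h1
    have h2 : Real.log (Λ ^ n) ≤ Real.log (δ / σ) := by rw [Real.log_pow]; exact h1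
    have h3 := (Real.log_le_log_iff (by positivity) (by positivity)).1 h2
    rw [le_div_iff₀ hσ0] at h3
    linarith
  have hnge : j / (4 * C6 * ll j) ≤ n := by
    have h1 : Real.log (δ / σ) / Real.log Λ < n + 1 := Nat.lt_floor_add_one _
    have hl0 : 0 ≤ Real.log (δ / σ) := by linarith
    have h2 : j / 2 / (C6 * ll j) ≤ Real.log (δ / σ) / Real.log Λ := by
      gcongr
    have h3 : 1 ≤ j / (4 * C6 * ll j) := by
      rw [one_le_div (by positivity)]
      calc 4 * C6 * ll j ≤ 4 * C6 * B * ll j ^ 2 := by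
            have : 1 ≤ B * ll j := by nlinarith
            calc 4 * C6 * ll j = 4 * C6 * ll j * 1 := by ring
              _ ≤ 4 * C6 * ll j * (B * ll j) := by gcongr
              _ = _ := by ring
        _ ≤ j := hCl
    have h4 : j / 2 / (C6 * ll j) = 2 * (j / (4 * C6 * ll j)) := by
      field_simp; ring
    linarith
  -- the decay
  set x : ℝ := c4 c1 C2 * Θ ^ (-(2 / 5) : ℝ) with hx
  have hx0 : 0 < x := by
    have : 0 < Θ := by linarith
    positivity
  have hnx : B * ll j ≤ n * min x 1 := by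
    have hn1 : B * ll j ≤ n := by
      refine le_trans ?_ hnge
      rw [le_div_iff₀ (by positivity)]
      calc B * ll j * (4 * C6 * ll j) = 4 * C6 * B * ll j ^ 2 := by ring
        _ ≤ j := hCl
    have hn2 : B * ll j ≤ n * x := by
      have hgp : 0 < g σ := by linarith [hg1 σ]
      have hKp : 0 < K := by linarith
      have hjp : 0 < j := by linarith
      have h1 : Θ ^ (2 / 5 : ℝ) ≤ K ^ (2 / 5 : ℝ) * (η ^ (2 / 5 : ℝ) * j / ll j ^ 2) := by
        rw [hΘ, Real.mul_rpow hKp.le hgp.le]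
        gcongr
        calc g σ ^ (2 / 5 : ℝ) ≤ (η * j ^ (5 / 2 : ℝ) / ll j ^ 5) ^ (2 / 5 : ℝ) := by gcongr
          _ = _ := by
            rw [Real.div_rpow (by positivity) (by positivity), Real.mul_rpow hηp.le (by positivity),
              ← Real.rpow_mul hjp.le, ← Real.rpow_natCast (ll j) 5,
              ← Real.rpow_mul (by linarith), ← Real.rpow_natCast (ll j) 2]
            norm_num
      have h2 : η ^ (2 / 5 : ℝ) ≤ c4 c1 C2 / (4 * C6 * K ^ (2 / 5 : ℝ) * B) := by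
        have hpos' : 0 < c4 c1 C2 / (4 * C6 * K ^ (2 / 5 : ℝ) * B) := by positivity
        calc η ^ (2 / 5 : ℝ) ≤ η0 ^ (2 / 5 : ℝ) := by gcongr
          _ = _ := by rw [hη0, ← Real.rpow_mul hpos'.le]; norm_num
      have hΘp : 0 < Θ := by linarith
      have h3 : x = c4 c1 C2 / Θ ^ (2 / 5 : ℝ) := by
        rw [hx, Real.rpow_neg hΘp.le]; rfl
      rw [h3, mul_div_assoc', le_div_iff₀ (by positivity)]
      have hKr : 0 < K ^ (2 / 5 : ℝ) := by positivity
      calc B * ll j * Θ ^ (2 / 5 : ℝ)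
          ≤ B * ll j * (K ^ (2 / 5 : ℝ) * (η ^ (2 / 5 : ℝ) * j / ll j ^ 2)) := by gcongr
        _ ≤ B * ll j * (K ^ (2 / 5 : ℝ) *
            (c4 c1 C2 / (4 * C6 * K ^ (2 / 5 : ℝ) * B) * j / ll j ^ 2)) := by gcongr
        _ = j / (4 * C6 * ll j) * c4 c1 C2 := by field_simp
        _ ≤ n * c4 c1 C2 := by gcongr
    rcases min_choice x 1 with h | h
    · rw [h]; exact hn2
    · rw [h]; linarith
  have hQ : Real.exp (B * ll j / 2) ≤ (1 + x) ^ n := by
    calc Real.exp (B * ll j / 2) ≤ Real.exp (n * (min x 1 / 2)) := by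
          apply Real.exp_le_exp.2
          linarith
      _ = Real.exp (min x 1 / 2) ^ n := by rw [Real.exp_nat_mul]
      _ ≤ (1 + x) ^ n := by
          gcongr
          exact exp_half_le hx0.le
  have hgexp : g σ ≤ Real.exp (5 / 2 * ll j) := by
    have hgp : 0 < g σ := by linarith [hg1 σ]
    rw [← Real.log_le_iff_le_exp hgp]
    exact hlogg
  have hcost2 : 2 / c1 * g σ * (E / (1 + x) ^ n) ≤ ρ / 2 := by
    have h1 : g σ / (1 + x) ^ n ≤ Real.exp (-B') := by
      rw [div_le_iff₀ (by positivity)]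
      calc g σ ≤ Real.exp (5 / 2 * ll j) := hgexp
        _ ≤ Real.exp (-B' + B * ll j / 2) := by
            apply Real.exp_le_exp.2
            rw [hB]
            nlinarith
        _ = Real.exp (-B') * Real.exp (B * ll j / 2) := Real.exp_add _ _
        _ ≤ _ := by gcongr
    have h2 : Real.exp (-B') ≤ c1 * ρ / (4 * (E + 1)) := by
      have h3 : 0 < 4 * (E + 1) / (c1 * ρ) := by positivity
      have h4 : 4 * (E + 1) / (c1 * ρ) ≤ Real.exp B' := by
        rw [← Real.log_le_iff_le_exp h3]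
        exact le_abs_self _
      rw [Real.exp_neg]
      have h5 : c1 * ρ / (4 * (E + 1)) = (4 * (E + 1) / (c1 * ρ))⁻¹ := by rw [inv_div]
      rw [h5]
      exact inv_anti₀ h3 h4
    calc 2 / c1 * g σ * (E / (1 + x) ^ n) = 2 / c1 * E * (g σ / (1 + x) ^ n) := by ring
      _ ≤ 2 / c1 * E * (c1 * ρ / (4 * (E + 1))) :=
          mul_le_mul_of_nonneg_left (h1.trans h2) (by positivity)
      _ = ρ / 2 * (E / (E + 1)) := by field_simp; ring
      _ ≤ ρ / 2 * 1 := by
          gcongr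
          rw [div_le_one (by positivity)]
          linarith
      _ = ρ / 2 := by ring
  have hcost1 : 10 * g σ * E / Θ ≤ ρ / 2 := by
    have hgp : 0 < g σ := by linarith [hg1 σ]
    have hKp : 0 < K := by linarith
    have e1 : 10 * g σ * E / Θ = 10 * E / K := by rw [hΘ]; field_simp
    rw [e1, div_le_iff₀ hKp, hK]
    have : ρ / 2 * (20 * E / ρ + 1) = 10 * E + ρ / 2 := by field_simp; ring
    rw [this]
    linarith
  obtain ⟨ι, hι, p, r, a1, a2, a3⟩ := D.cover hσ0 (by linarith : 0 < Θ) hΛ6 hΛc n (g := g)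
    (r0 := r0) (fun r _ => by linarith [hg1 r]) hganti (by linarith) (by linarith) (by linarith)
  refine ⟨ι, hι, p, r, fun i => ⟨(a1 i).1, ?_⟩, ?_, a3⟩
  · have := (a1 i).2
    linarith
  · refine le_trans (ENNReal.tsum_le_tsum fun i => ENNReal.ofReal_le_ofReal
      (hhg (r i) ⟨(a1 i).1, ?_⟩)) (a2.trans (ENNReal.ofReal_le_ofReal ?_))
    · have := (a1 i).2
      linarith
    · rw [← hE, ← hx]
      linarith

end Pool.Agent.J4H18.LT
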