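import Pool.Agent.W795.HE.FinC

/-!
Leray-Hopf solutions compared with a smooth field which does not depend on time.
-/

set_option autoImplicit false

open MeasureTheory Set Filter Topology
open scoped InnerProductSpace

namespace Pool.Agent.J4H18.LT

open H772R2.NSR (Frame prim_cont grad_unique)
open H772R2.NSG (LH dft Coef ii_of_int)
open Pool.Agent.W795.TQ (FH Univ)
open Pool.Agent.W795.HE
open Pool.Agent.W933.HE (coef dft_sub)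

section

variable {H K : Type} [NormedAddCommGroup H] [InnerProductSpace ℝ H] [CompleteSpace H]
  [NormedAddCommGroup K] [InnerProductSpace ℝ K] [CompleteSpace K]
variable {W : Submodule ℝ (H × K)} {m : H → K} {C ν T : ℝ} {F F1 : ℝ → K} {x0 : H}
  {u : ℝ → H} {z : ℝ → K}

/-- the pointwise estimate -/
theorem pw_est (hν : 0 < ν) {f y ζ : K} {Φ : ℝ} (hΦ : ‖f‖ ≤ Φ) :
    ⟪f, y⟫_ℝ - ν * ‖y‖ ^ 2 - ⟪f - ν • y, ζ⟫_ℝ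
      ≤ -(ν / 4) * ‖y‖ ^ 2 + (ν * ‖ζ‖ ^ 2 + 3 / 2 * Φ ^ 2 / ν) := by
  have hΦ0 : 0 ≤ Φ := (norm_nonneg _).trans hΦ
  have h1 : ⟪f, y⟫_ℝ ≤ Φ * ‖y‖ := (real_inner_le_norm _ _).trans (by gcongr)
  have h2 : -⟪f, ζ⟫_ℝ ≤ Φ * ‖ζ‖ := by
    have := abs_real_inner_le_norm f ζ
    calc -⟪f, ζ⟫_ℝ ≤ |⟪f, ζ⟫_ℝ| := neg_le_abs _
      _ ≤ ‖f‖ * ‖ζ‖ := this
      _ ≤ Φ * ‖ζ‖ := by gcongr
  have h3 : ⟪y, ζ⟫_ℝ ≤ ‖y‖ * ‖ζ‖ := real_inner_le_norm _ _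
  rw [inner_sub_left, real_inner_smul_left]
  set a := ‖y‖
  set b := ‖ζ‖
  have h4 : ν * ⟪y, ζ⟫_ℝ ≤ ν * (a * b) := by gcongr
  have h5 : 0 ≤ (ν * a / 2 - Φ) ^ 2 / ν := by positivity
  have h6 : (ν * a / 2 - Φ) ^ 2 / ν = ν / 4 * a ^ 2 - Φ * a + Φ ^ 2 / ν := by
    field_simp; ring
  have h7 : 0 ≤ (ν * b - Φ) ^ 2 / (2 * ν) := by positivity
  have h8 : (ν * b - Φ) ^ 2 / (2 * ν) = ν / 2 * b ^ 2 - Φ * b + Φ ^ 2 / ν / 2 := by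
    field_simp; ring
  have h9 : ν * (a * b) ≤ ν / 2 * a ^ 2 + ν / 2 * b ^ 2 := by
    nlinarith [sq_nonneg (a - b)]
  have h10 : 3 / 2 * Φ ^ 2 / ν = Φ ^ 2 / ν + Φ ^ 2 / ν / 2 := by ring
  rw [h10]
  linarith

/-- the inequality at one time -/
theorem cmp_t (Fr : Frame W m C) (hν : 0 < ν) (hT : 0 < T) (hFc : ContinuousOn F (Icc 0 T))
    (L : LH W m T (fun _ => ν) F x0 u z) {Φ : ℝ} (hΦ : ∀ t ∈ Icc 0 T, ‖F t‖ ≤ Φ)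
    {q : H × K} (hq : q ∈ W) {n : H} {G : ℝ} (hG0 : 0 ≤ G)
    (hG : ∀ r ∈ W, |⟪m r.1, q.2⟫_ℝ| ≤ G * ‖r.1‖ ^ 2)
    (hn : ∀ r ∈ W, ⟪m q.1, r.2⟫_ℝ = -⟪n, r.1⟫_ℝ) {S : ℝ} (hS : ∀ t ∈ Icc 0 T, ‖u t - q.1‖ ≤ S)
    {t : ℝ} (ht : t ∈ Icc 0 T) :
    ‖u t - q.1‖ ^ 2 / 2 + ν / 4 * (∫ s in (0 : ℝ)..t, ‖z s‖ ^ 2) ≤
      ‖x0 - q.1‖ ^ 2 / 2 + t * (ν * ‖q.2‖ ^ 2 + 3 / 2 * Φ ^ 2 / ν + (G * S ^ 2 + S * ‖n‖)) := by
  have Co : Coef ν T (fun _ => ν) F := coef hFc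
  have h1 := L.energy t ht
  have h2 := L.weak q hq t ht
  have i1 := ii_of_int (L.Fzi Co) le_rfl ht.1 ht.2
  have i2 := ii_of_int L.dis le_rfl ht.1 ht.2
  have i3 : IntervalIntegrable (fun s => ⟪F s - ν • z s + m (u s), q.2⟫_ℝ) volume 0 t :=
    ii_of_int ((L.Gi Fr Co).inner_const q.2) le_rfl ht.1 ht.2
  have i4 := ii_of_int (zsq_int L) le_rfl ht.1 ht.2
  have hS0 : 0 ≤ S := (norm_nonneg _).trans (hS t ht)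
  have key : ∫ s in (0 : ℝ)..t, (⟪F s, z s⟫_ℝ - ν * ‖z s‖ ^ 2 - ⟪F s - ν • z s + m (u s), q.2⟫_ℝ)
      ≤ ∫ s in (0 : ℝ)..t, (-(ν / 4) * ‖z s‖ ^ 2 +
        (ν * ‖q.2‖ ^ 2 + 3 / 2 * Φ ^ 2 / ν + (G * S ^ 2 + S * ‖n‖))) := by
    refine intervalIntegral.integral_mono_ae_restrict ht.1 ((i1.sub i2).sub i3)
      ((i4.const_mul _).add intervalIntegrable_const) ?_
    have hsub : (volume.restrict (Icc 0 t) : Measure ℝ) ≤ volume.restrict (Ioc 0 T) := by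
      rw [← restrict_Ioc_eq_restrict_Icc]
      exact Measure.restrict_mono (Ioc_subset_Ioc_right ht.2) le_rfl
    filter_upwards [ae_mono hsub L.mem, ae_restrict_mem measurableSet_Icc] with s k1 k2
    have hs : s ∈ Icc 0 T := ⟨k2.1, k2.2.trans ht.2⟩
    have e1 := pw_est (ν := ν) (y := z s) (ζ := q.2) hν (hΦ s hs)
    have hwS := hS s hs
    have an := Fr.anti _ k1 _ hq
    have o1 := Fr.ortho _ k1
    have o2 := Fr.ortho _ hq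
    have n1 := hn _ k1
    have n2 := hn _ hq
    have g1 := hG _ (W.sub_mem k1 hq)
    simp only [Prod.fst_sub] at g1 an o1 o2 n1 n2
    have an' : ⟪m (u s), q.2⟫_ℝ = ⟪m (u s - q.1), q.2⟫_ℝ + ⟪n, u s - q.1⟫_ℝ := by
      simp only [inner_sub_left, inner_sub_right] at an ⊢
      rw [o1, o2] at an
      rw [o2] at n2
      linarith
    have g2 : -⟪m (u s - q.1), q.2⟫_ℝ ≤ G * S ^ 2 := by
      refine (neg_le_abs _).trans (g1.trans ?_)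
      gcongr
    have g3 : -⟪n, u s - q.1⟫_ℝ ≤ S * ‖n‖ := by
      refine (neg_le_abs _).trans ((abs_real_inner_le_norm _ _).trans ?_)
      rw [mul_comm]
      gcongr
    show ⟪F s, z s⟫_ℝ - ν * ‖z s‖ ^ 2 - ⟪F s - ν • z s + m (u s), q.2⟫_ℝ ≤ _
    rw [inner_add_left, an']
    show _ ≤ -(ν / 4) * ‖z s‖ ^ 2 +
        (ν * ‖q.2‖ ^ 2 + 3 / 2 * Φ ^ 2 / ν + (G * S ^ 2 + S * ‖n‖))
    linarith
  rw [intervalIntegral.integral_sub (i1.sub i2) i3, intervalIntegral.integral_sub i1 i2,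
    intervalIntegral.integral_add (i4.const_mul _) intervalIntegrable_const,
    intervalIntegral.integral_const_mul, intervalIntegral.integral_const_mul,
    intervalIntegral.integral_const, sub_zero, smul_eq_mul] at key
  rw [intervalIntegral.integral_const_mul] at h1
  have e1 : ‖u t - q.1‖ ^ 2 = ‖u t‖ ^ 2 - 2 * ⟪u t, q.1⟫_ℝ + ‖q.1‖ ^ 2 := norm_sub_sq_real _ _
  have e2 : ‖x0 - q.1‖ ^ 2 = ‖x0‖ ^ 2 - 2 * ⟪x0, q.1⟫_ℝ + ‖q.1‖ ^ 2 := norm_sub_sq_real _ _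
  rw [inner_sub_left] at h2
  rw [e1, e2]
  linarith

/-- the estimate of the dissipation -/
theorem cmp (Fr : Frame W m C) (hν : 0 < ν) (hT : 0 < T) (hFc : ContinuousOn F (Icc 0 T))
    (L : LH W m T (fun _ => ν) F x0 u z) {Φ : ℝ} (hΦ : ∀ t ∈ Icc 0 T, ‖F t‖ ≤ Φ)
    {q : H × K} (hq : q ∈ W) {n : H} {G : ℝ} (hG0 : 0 ≤ G)
    (hG : ∀ r ∈ W, |⟪m r.1, q.2⟫_ℝ| ≤ G * ‖r.1‖ ^ 2)
    (hn : ∀ r ∈ W, ⟪m q.1, r.2⟫_ℝ = -⟪n, r.1⟫_ℝ) (hGT : T * G ≤ 1 / 8) :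
    ν * (∫ s in (0 : ℝ)..T, ‖z s‖ ^ 2) ≤
      4 * ‖x0 - q.1‖ ^ 2 + 8 * (T * (ν * ‖q.2‖ ^ 2 + 3 / 2 * Φ ^ 2 / ν))
        + 16 * (T * ‖n‖) ^ 2 := by
  have Co : Coef ν T (fun _ => ν) F := coef hFc
  obtain ⟨M, hM⟩ := L.bdd hν.le Co
  have h0 : (0 : ℝ) ∈ Icc 0 T := ⟨le_rfl, hT.le⟩
  set A : Set ℝ := (fun t => ‖u t - q.1‖) '' Icc 0 T with hA
  have hbdd : BddAbove A := by
    refine ⟨M + ‖q.1‖, ?_⟩
    rintro _ ⟨t, ht, rfl⟩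
    exact (norm_sub_le _ _).trans (by linarith [hM t ht])
  have hne : A.Nonempty := ⟨_, 0, h0, rfl⟩
  set S : ℝ := sSup A with hSdef
  have hS : ∀ t ∈ Icc 0 T, ‖u t - q.1‖ ≤ S := fun t ht => le_csSup hbdd ⟨t, ht, rfl⟩
  have hS0 : 0 ≤ S := (norm_nonneg _).trans (hS 0 h0)
  set R : ℝ := ‖x0 - q.1‖ ^ 2 / 2 + T * (ν * ‖q.2‖ ^ 2 + 3 / 2 * Φ ^ 2 / ν) with hR
  have hR0 : 0 ≤ R := by positivity
  have hI : ∀ t ∈ Icc 0 T, 0 ≤ ∫ s in (0 : ℝ)..t, ‖z s‖ ^ 2 := fun t ht =>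
    intervalIntegral.integral_nonneg ht.1 fun s _ => by positivity
  have hmain : ∀ t ∈ Icc 0 T, ‖u t - q.1‖ ^ 2 / 2 + ν / 4 * (∫ s in (0 : ℝ)..t, ‖z s‖ ^ 2) ≤
      R + S ^ 2 / 4 + 2 * (T * ‖n‖) ^ 2 := by
    intro t ht
    have h1 := cmp_t Fr hν hT hFc L hΦ hq hG0 hG hn hS ht
    have h2 : t * (ν * ‖q.2‖ ^ 2 + 3 / 2 * Φ ^ 2 / ν + (G * S ^ 2 + S * ‖n‖))
        ≤ T * (ν * ‖q.2‖ ^ 2 + 3 / 2 * Φ ^ 2 / ν + (G * S ^ 2 + S * ‖n‖)) := by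
      have := ht.2
      gcongr
    have h3 : T * G * S ^ 2 ≤ 1 / 8 * S ^ 2 := by gcongr
    have h4 : 0 ≤ (S - 4 * (T * ‖n‖)) ^ 2 := sq_nonneg _
    have h5 : 0 ≤ (T * ‖n‖) ^ 2 := sq_nonneg _
    rw [hR]
    nlinarith
  have hsup : S ^ 2 ≤ 2 * (R + S ^ 2 / 4 + 2 * (T * ‖n‖) ^ 2) := by
    have h1 : S ≤ √(2 * (R + S ^ 2 / 4 + 2 * (T * ‖n‖) ^ 2)) := by
      refine csSup_le hne ?_
      rintro _ ⟨t, ht, rfl⟩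
      refine Real.le_sqrt_of_sq_le ?_
      have h2 := hmain t ht
      have h3 := hI t ht
      have h4 : 0 ≤ ν / 4 * (∫ s in (0 : ℝ)..t, ‖z s‖ ^ 2) := by positivity
      show ‖u t - q.1‖ ^ 2 ≤ _
      linarith
    calc S ^ 2 ≤ √(2 * (R + S ^ 2 / 4 + 2 * (T * ‖n‖) ^ 2)) ^ 2 := by gcongr
      _ = _ := Real.sq_sqrt (by positivity)
  have hfin := hmain T ⟨hT.le, le_rfl⟩
  have h6 : 0 ≤ ‖u T - q.1‖ ^ 2 / 2 := by positivity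
  have e1 : 4 * ‖x0 - q.1‖ ^ 2 + 8 * (T * (ν * ‖q.2‖ ^ 2 + 3 / 2 * Φ ^ 2 / ν))
        + 16 * (T * ‖n‖) ^ 2 = 8 * R + 16 * (T * ‖n‖) ^ 2 := by rw [hR]; ring
  rw [e1]
  have h7 : S ^ 2 / 4 ≤ R + 2 * (T * ‖n‖) ^ 2 := by linarith
  linarith

end

end Pool.Agent.J4H18.LT
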