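import Pool.Agent.J4H18.LT.B2
import Pool.Agent.J4H18.LT.A4

/-!
The singular times in the abstract frame.
-/

set_option autoImplicit false

open MeasureTheory Set Filter Topology
open scoped InnerProductSpace ENNReal

namespace Pool.Agent.J4H18.LT

open H772R2.NSR (Frame prim_cont grad_unique)
open H772R2.NSG (LH dft Coef ii_of_int)
open Pool.Agent.W795.TQ (FH Univ)
open Pool.Agent.W795.HE
open Pool.Agent.W933.HE (coef dft_sub)

theorem tsum_pow (ρ : ℝ) (hρ : 0 < ρ) :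
    ∑' n : ℕ, ENNReal.ofReal (ρ / 2 * (1 / 2) ^ n) = ENNReal.ofReal ρ := by
  rw [← ENNReal.ofReal_tsum_of_nonneg (fun n => by positivity)
    (Summable.mul_left _ summable_geometric_two), tsum_mul_left, tsum_geometric_two]
  congr 1
  ring

theorem NullG.mono {h : ℝ → ℝ} {S S' : Set ℝ} (hS : NullG h S) (hs : S' ⊆ S) : NullG h S' := by
  intro ρ hρ
  obtain ⟨ι, i1, p, r, h1, h2, h3⟩ := hS ρ hρ
  exact ⟨ι, i1, p, r, h1, h2, hs.trans h3⟩

theorem NullG.union {h : ℝ → ℝ} {S : ℕ → Set ℝ} (hS : ∀ n, NullG h (S n)) :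
    NullG h (⋃ n, S n) := by
  intro ρ hρ
  have h1 : ∀ n : ℕ, 0 < ρ / 2 * (1 / 2) ^ n := fun n => by positivity
  have h2 : ∀ n : ℕ, ρ / 2 * (1 / 2) ^ n ≤ ρ := fun n => by
    have : ((1 : ℝ) / 2) ^ n ≤ 1 := pow_le_one₀ (by norm_num) (by norm_num)
    nlinarith
  choose ι i1 p r k1 k2 k3 using fun n => hS n _ (h1 n)
  refine ⟨Σ n, ι n, inferInstance, fun x => p x.1 x.2, fun x => r x.1 x.2, ?_, ?_, ?_⟩
  · rintro ⟨n, i⟩
    exact ⟨(k1 n i).1, (k1 n i).2.trans (h2 n)⟩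
  · rw [ENNReal.tsum_sigma', ← tsum_pow ρ hρ]
    exact ENNReal.tsum_le_tsum fun n => k2 n
  · intro x hx
    obtain ⟨n, hn⟩ := mem_iUnion.1 hx
    obtain ⟨i, hi⟩ := mem_iUnion.1 (k3 n hn)
    exact mem_iUnion.2 ⟨⟨n, i⟩, hi⟩

section

variable {H K : Type} [NormedAddCommGroup H] [InnerProductSpace ℝ H] [CompleteSpace H]
  [NormedAddCommGroup K] [InnerProductSpace ℝ K] [CompleteSpace K]
variable {W : Submodule ℝ (H × K)} {m : H → K} {C c ν T A l0 : ℝ} {F F1 : ℝ → K} {x0 : H}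
  {u : ℝ → H} {z : ℝ → K}

theorem dat_abs (hreg : S_reg) (hsh : S_shift) (hc : 0 < c) (Fr : Frame W m C)
    (Un : Univ W m c) (hcomp : ∀ R : ℝ, TotallyBounded {v : H | ∃ z, (v, z) ∈ W ∧ ‖z‖ ≤ R})
    (Ap : Apx W m A l0) (hν : 0 < ν) (hT : 0 < T)
    (hF : FH T F F1) (L : LH W m T (fun _ => ν) F x0 u z) (hSE : SE ν T F u z) :
    ∃ (c1 C2 : ℝ) (y : ℝ → ℝ), ∀ a : ℝ, 0 < a →
      Dat a T 1 c1 C2 {τ | τ ∈ Ioc a T ∧ ¬ RegT T z τ} y := by
  obtain ⟨ε1, hε1, hL⟩ := low_pt hreg hsh c hc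
  obtain ⟨Kc, hK0, h1⟩ := hL H K W m C ν T F F1 x0 u z Fr Un hcomp hν hT hF L hSE
  obtain ⟨C2, hC2, h2⟩ := p2 hsh Fr Ap hν hT hF L hSE hK0
  refine ⟨ε1 * ν ^ (3 / 2 : ℝ), C2, fun t => ‖z t‖ ^ 2 + Kc + 1, fun a ha => ?_⟩
  have hint : IntegrableOn (fun t => ‖z t‖ ^ 2 + Kc + 1) (Ioc 0 T) := by
    have := ((zsq_int L).add (integrableOn_const (C := Kc + 1) (by simp) (by simp)))
    refine this.congr (Eventually.of_forall fun t => ?_)
    simp [add_assoc]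
  refine ⟨ha, one_pos, by positivity, hC2, fun τ hτ => hτ.1, fun t => by positivity, hint, ?_⟩
  rw [ae_restrict_iff' measurableSet_Ioc] at h1 h2
  filter_upwards [h1, h2] with t k1 k2 ht
  have htm : t ∈ Ioc 0 T := ⟨ht.1, ht.2.le⟩
  refine ⟨fun τ hτ h3 _ => ?_, fun h hh hh1 => ?_⟩
  · have h4 := k1 htm τ ⟨h3, hτ.1.2⟩ hτ.2
    refine h4.trans ?_
    have : 0 ≤ √(τ - t) := Real.sqrt_nonneg _
    exact mul_le_mul_of_nonneg_right (by linarith) this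
  · set h' : ℝ := min h (T - t) with hh'
    have e1 : 0 < h' := lt_min hh (by linarith [ht.2])
    have e2 : h' ≤ h := min_le_left _ _
    have e3 : h' ≤ T - t := min_le_right _ _
    have h5 := k2 htm h' e1 (e2.trans hh1) (by linarith)
    have h6 : (dm T fun t => ‖z t‖ ^ 2 + Kc + 1).real (Ioo t (t + h)) ≤
        ∫ r in t..(t + h'), (‖z r‖ ^ 2 + Kc + 1) := by
      rw [intervalIntegral.integral_of_le (by linarith)]
      have hsub : Ioo t (t + h) ∩ Ioc 0 T ⊆ Ioc t (t + h') := by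
        intro r hr
        refine ⟨hr.1.1, ?_⟩
        rw [hh', ← min_add_add_left]
        exact le_min hr.1.2.le (by linarith [hr.2.2])
      have hint' : IntegrableOn (fun t => ‖z t‖ ^ 2 + Kc + 1) (Ioc t (t + h')) :=
        hint.mono_set (Ioc_subset_Ioc ht.1.le (by linarith))
      have e4 : dm T (fun t => ‖z t‖ ^ 2 + Kc + 1) (Ioo t (t + h)) ≤
          ENNReal.ofReal (∫ r in Ioc t (t + h'), (‖z r‖ ^ 2 + Kc + 1)) := by
        unfold dm
        rw [withDensity_apply _ measurableSet_Ioo, Measure.restrict_restrict measurableSet_Ioo,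
          ofReal_integral_eq_lintegral_ofReal hint' (Eventually.of_forall fun r => by positivity)]
        exact lintegral_mono_set hsub
      refine ENNReal.toReal_le_of_le_ofReal ?_ e4
      exact integral_nonneg fun r => by positivity
    refine h6.trans (h5.trans ?_)
    have : (0 : ℝ) < ‖z t‖ ^ 2 + Kc + 1 := by positivity
    gcongr

/-- The set of singular times is null. -/
theorem null_abs (hreg : S_reg) (hsh : S_shift) (hc : 0 < c) (Fr : Frame W m C)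
    (Un : Univ W m c) (hcomp : ∀ R : ℝ, TotallyBounded {v : H | ∃ z, (v, z) ∈ W ∧ ‖z‖ ≤ R})
    (Ap : Apx W m A l0) (hν : 0 < ν) (hT : 0 < T)
    (hF : FH T F F1) (L : LH W m T (fun _ => ν) F x0 u z) (hSE : SE ν T F u z)
    {h : ℝ → ℝ} {r0 : ℝ} (hr0 : 0 < r0) (hh : ∀ r ∈ Ioc 0 r0, 0 < h r)
    (hm : MonotoneOn (fun r => √r / h r) (Ioc 0 r0))
    (hlim : ∀ η : ℝ, 0 < η → ∀ ρ : ℝ, 0 < ρ → ∃ r ∈ Ioo 0 ρ,
      h r * (1 + Real.log (1 + |Real.log r|)) ^ 5 ≤ η * (√r * |Real.log r| ^ (5 / 2 : ℝ))) :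
    NullG h {τ | τ ∈ Ioc 0 T ∧ ¬ RegT T z τ} := by
  obtain ⟨c1, C2, y, D⟩ := dat_abs hreg hsh hc Fr Un hcomp Ap hν hT hF L hSE
  have h1 : ∀ n : ℕ, NullG h {τ | τ ∈ Ioc (1 / ((n : ℝ) + 1)) T ∧ ¬ RegT T z τ} := fun n =>
    (D _ (by positivity)).null hr0 hh hm hlim
  refine (NullG.union h1).mono ?_
  rintro τ ⟨hτ, hr⟩
  obtain ⟨n, hn⟩ := exists_nat_one_div_lt hτ.1
  exact mem_iUnion.2 ⟨n, ⟨hn, hτ.2⟩, hr⟩

end

end Pool.Agent.J4H18.LT
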