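import Pool.Agent.W52.TQ.Univ
import Mathlib.Geometry.Euclidean.Volume.Measure

/-!
Composition with maps close to the identity, in `L²`.
-/

set_option autoImplicit false

open MeasureTheory Set Filter Topology
open scoped InnerProductSpace ENNReal ContDiff NNReal MeasureTheory

namespace Pool.Agent.J4H18.LT

open H772R2.NS

theorem vol_pre {Φ : E3 → E3} (hΦ : AntilipschitzWith 2 Φ) (A : Set E3) :
    volume (Φ ⁻¹' A) ≤ 8 * volume A := by
  have h := hΦ.hausdorffMeasure_preimage_le (d := ((3 : ℕ) : ℝ)) (by norm_num) A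
  have e : (volume : Measure E3) = _ := (EuclideanSpace.euclideanHausdorffMeasure_eq_volume 3).symm
  rw [MeasureTheory.Measure.euclideanHausdorffMeasure_def] at e
  have e8 : ((2 : ℝ≥0) : ℝ≥0∞) ^ ((3 : ℕ) : ℝ) = 8 := by
    rw [ENNReal.rpow_natCast]
    norm_num
  rw [e8] at h
  rw [e]
  simp only [Measure.smul_apply]
  rw [mul_smul_comm]
  gcongr

theorem lint_comp {Φ : E3 → E3} (hΦ : AntilipschitzWith 2 Φ) (hm : Measurable Φ)
    {g : E3 → ℝ≥0∞} (hg : Measurable g) : ∫⁻ x, g (Φ x) ≤ 8 * ∫⁻ x, g x := by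
  rw [← lintegral_map hg hm, ← lintegral_const_mul _ hg]
  have hle : Measure.map Φ volume ≤ (8 : ℝ≥0∞) • (volume : Measure E3) := by
    refine Measure.le_iff.2 fun s hs => ?_
    rw [Measure.map_apply hm hs, Measure.smul_apply, smul_eq_mul]
    exact vol_pre hΦ s
  calc ∫⁻ x, g x ∂(Measure.map Φ volume) ≤ ∫⁻ x, g x ∂((8 : ℝ≥0∞) • (volume : Measure E3)) :=
        lintegral_mono' hle le_rfl
    _ = ∫⁻ x, 8 * g x := by rw [lintegral_smul_measure, lintegral_const_mul _ hg, smul_eq_mul]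

theorem anti_of_lip {X : E3 → E3} (hX : LipschitzWith (1 / 2) X) {s : ℝ} (hs : s ∈ Icc (0 : ℝ) 1) :
    AntilipschitzWith 2 (fun x => x + s • X x) := by
  refine AntilipschitzWith.of_le_mul_dist fun x y => ?_
  have h1 := hX.dist_le_mul x y
  rw [dist_eq_norm, dist_eq_norm] at h1 ⊢
  have e : x + s • X x - (y + s • X y) = (x - y) + s • (X x - X y) := by
    rw [smul_sub]; abel
  rw [e]
  have h2 : ‖s • (X x - X y)‖ ≤ 1 / 2 * ‖x - y‖ := by
    rw [norm_smul, Real.norm_of_nonneg hs.1]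
    calc s * ‖X x - X y‖ ≤ 1 * ‖X x - X y‖ := by gcongr; exact hs.2
      _ = ‖X x - X y‖ := one_mul _
      _ ≤ _ := by simpa using h1
  have h3 : ‖x - y‖ ≤ ‖(x - y) + s • (X x - X y)‖ + ‖s • (X x - X y)‖ := by
    calc ‖x - y‖ = ‖((x - y) + s • (X x - X y)) - s • (X x - X y)‖ := by rw [add_sub_cancel_right]
      _ ≤ _ := norm_sub_le _ _
  push_cast
  linarith

theorem lip_meas {X : E3 → E3} (hX : LipschitzWith (1 / 2) X) (s : ℝ) :
    Continuous (fun x => x + s • X x) :=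
  continuous_id.add (hX.continuous.const_smul s)

/-- The difference quotient estimate. -/
theorem path_le {ψ : E3 → E3} (hψ : ContDiff ℝ 1 ψ) {X : E3 → E3} (hX : LipschitzWith (1 / 2) X)
    {M : ℝ} (hM : ∀ x, ‖X x‖ ≤ M) :
    ∫⁻ x, ‖ψ (x + X x) - ψ x‖ₑ ^ 2 ≤
      ENNReal.ofReal M ^ 2 * (8 * ∫⁻ x, ‖fderiv ℝ ψ x‖ₑ ^ 2) := by
  have hdc : Continuous (fderiv ℝ ψ) := hψ.continuous_fderiv (by norm_num)
  have hXc := hX.continuous
  have hgm : Measurable fun x : E3 => ‖fderiv ℝ ψ x‖ₑ ^ 2 :=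
    (hdc.enorm.measurable).pow_const 2
  have hpt : ∀ x, ‖ψ (x + X x) - ψ x‖ₑ ^ 2 ≤
      ENNReal.ofReal M ^ 2 * ∫⁻ s in Ioc (0 : ℝ) 1, ‖fderiv ℝ ψ (x + s • X x)‖ₑ ^ 2 := by
    intro x
    have hpc : Continuous fun s : ℝ => x + s • X x := by fun_prop
    have hdc' : Continuous fun s : ℝ => fderiv ℝ ψ (x + s • X x) := hdc.comp hpc
    have hder : ∀ s ∈ uIcc (0 : ℝ) 1, HasDerivAt (fun s : ℝ => ψ (x + s • X x))
        (fderiv ℝ ψ (x + s • X x) (X x)) s := by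
      intro s _
      have h1 : HasFDerivAt ψ (fderiv ℝ ψ (x + s • X x)) (x + s • X x) :=
        ((hψ.differentiable (by norm_num)) _).hasFDerivAt
      have h2 : HasDerivAt (fun s : ℝ => x + s • X x) (X x) s := by
        have := ((hasDerivAt_id s).smul_const (X x)).const_add x
        simpa using this
      exact h1.comp_hasDerivAt s h2
    have hcont : Continuous fun s : ℝ => fderiv ℝ ψ (x + s • X x) (X x) :=
      hdc'.clm_apply continuous_const
    have hftc := intervalIntegral.integral_eq_sub_of_hasDerivAt hder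
      (hcont.intervalIntegrable 0 1)
    simp only [one_smul, zero_smul, add_zero] at hftc
    rw [← hftc, intervalIntegral.integral_of_le zero_le_one]
    have h3 : ‖∫ s in Ioc (0 : ℝ) 1, fderiv ℝ ψ (x + s • X x) (X x)‖ₑ ≤
        ∫⁻ s in Ioc (0 : ℝ) 1, ‖fderiv ℝ ψ (x + s • X x)‖ₑ * ENNReal.ofReal M := by
      refine (enorm_integral_le_lintegral_enorm _).trans (lintegral_mono fun s => ?_)
      rw [← ofReal_norm, ← ofReal_norm, ← ENNReal.ofReal_mul (norm_nonneg _)]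
      refine ENNReal.ofReal_le_ofReal ((ContinuousLinearMap.le_opNorm _ _).trans ?_)
      gcongr
      exact hM x
    have hm1 : AEMeasurable (fun s : ℝ => ‖fderiv ℝ ψ (x + s • X x)‖ₑ)
        (volume.restrict (Ioc (0 : ℝ) 1)) := hdc'.enorm.measurable.aemeasurable
    rw [lintegral_mul_const'' _ hm1] at h3
    have h4 := Pool.Agent.W52.TQ.cs_sq (μ := volume.restrict (Ioc (0 : ℝ) 1))
      (f := fun s : ℝ => ‖fderiv ℝ ψ (x + s • X x)‖ₑ) (g := fun _ => 1) hm1 aemeasurable_const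
    simp only [mul_one, one_pow, lintegral_const, Measure.restrict_apply MeasurableSet.univ,
      univ_inter, Real.volume_Ioc, sub_zero, ENNReal.ofReal_one, mul_one] at h4
    calc ‖∫ s in Ioc (0 : ℝ) 1, fderiv ℝ ψ (x + s • X x) (X x)‖ₑ ^ 2
        ≤ ((∫⁻ s in Ioc (0 : ℝ) 1, ‖fderiv ℝ ψ (x + s • X x)‖ₑ) * ENNReal.ofReal M) ^ 2 :=
          pow_le_pow_left' h3 2
      _ = ENNReal.ofReal M ^ 2 * (∫⁻ s in Ioc (0 : ℝ) 1, ‖fderiv ℝ ψ (x + s • X x)‖ₑ) ^ 2 := by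
          ring
      _ ≤ _ := by gcongr
  have hjc : Continuous fun p : E3 × ℝ => ‖fderiv ℝ ψ (p.1 + p.2 • X p.1)‖ₑ ^ 2 := by
    have h1 : Continuous fun p : E3 × ℝ => p.1 + p.2 • X p.1 := by fun_prop
    exact (ENNReal.continuous_pow 2).comp ((hdc.comp h1).enorm)
  calc ∫⁻ x, ‖ψ (x + X x) - ψ x‖ₑ ^ 2
      ≤ ∫⁻ x, ENNReal.ofReal M ^ 2 * ∫⁻ s in Ioc (0 : ℝ) 1, ‖fderiv ℝ ψ (x + s • X x)‖ₑ ^ 2 :=
        lintegral_mono hpt
    _ = ENNReal.ofReal M ^ 2 * ∫⁻ x, ∫⁻ s in Ioc (0 : ℝ) 1, ‖fderiv ℝ ψ (x + s • X x)‖ₑ ^ 2 := by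
        refine lintegral_const_mul' _ _ (by finiteness)
    _ = ENNReal.ofReal M ^ 2 * ∫⁻ s in Ioc (0 : ℝ) 1, ∫⁻ x, ‖fderiv ℝ ψ (x + s • X x)‖ₑ ^ 2 := by
        congr 1
        exact lintegral_lintegral_swap hjc.measurable.aemeasurable
    _ ≤ ENNReal.ofReal M ^ 2 * ∫⁻ s in Ioc (0 : ℝ) 1, 8 * ∫⁻ x, ‖fderiv ℝ ψ x‖ₑ ^ 2 := by
        refine mul_le_mul' le_rfl ?_
        refine setLIntegral_mono measurable_const fun s hs => ?_
        exact lint_comp (anti_of_lip hX ⟨hs.1.le, hs.2⟩) (lip_meas hX s).measurable hgm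
    _ = _ := by simp

end Pool.Agent.J4H18.LT
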