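import Pool.Agent.W52.TQ.Univ

/-!
The Piola transform of divergence free fields.
-/

set_option autoImplicit false

open MeasureTheory Set Filter Topology
open scoped InnerProductSpace ENNReal ContDiff NNReal

namespace Pool.Agent.J4H18.LT

open H772R2.NS

/-- derivative of a scalar function in the direction of a unit vector -/
noncomputable def dd (j : Fin 3) (f : E3 → ℝ) (x : E3) : ℝ := fderiv ℝ f x (ev j)

theorem dd_smooth {f : E3 → ℝ} (hf : ContDiff ℝ ∞ f) (j : Fin 3) : ContDiff ℝ ∞ (dd j f) := by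
  unfold dd
  exact (hf.fderiv_right (m := ∞) (by simp)).clm_apply contDiff_const

theorem dd_comm {f : E3 → ℝ} (hf : ContDiff ℝ ∞ f) (j k : Fin 3) (x : E3) :
    dd j (dd k f) x = dd k (dd j f) x := by
  have hs : IsSymmSndFDerivAt ℝ f x :=
    (hf.contDiffAt (x := x)).isSymmSndFDerivAt 
      (by rw [minSmoothness_of_isRCLikeNormedField]; exact WithTop.coe_le_coe.2 le_top)
  have h1 : ∀ k : Fin 3, HasFDerivAt (dd k f)
      ((ContinuousLinearMap.apply ℝ ℝ (ev k)).comp (fderiv ℝ (fderiv ℝ f) x)) x := by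
    intro k
    have h2 : HasFDerivAt (fderiv ℝ f) (fderiv ℝ (fderiv ℝ f) x) x :=
      (((hf.fderiv_right (m := ∞) (by simp)).differentiable (by simp)) x).hasFDerivAt
    exact (ContinuousLinearMap.apply ℝ ℝ (ev k)).hasFDerivAt.comp x h2
  have e : ∀ j k : Fin 3, dd j (dd k f) x = fderiv ℝ (fderiv ℝ f) x (ev j) (ev k) := by
    intro j k
    show fderiv ℝ (dd k f) x (ev j) = _
    rw [(h1 k).fderiv]
    rfl
  rw [e, e]
  exact hs.eq _ _

theorem dd_mul {f g : E3 → ℝ} (hf : ContDiff ℝ ∞ f) (hg : ContDiff ℝ ∞ g) (j : Fin 3) (x : E3) :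
    dd j (fun y => f y * g y) x = f x * dd j g x + g x * dd j f x := by
  unfold dd
  rw [fderiv_fun_mul ((hf.differentiable (by simp)) x) ((hg.differentiable (by simp)) x)]
  simp

theorem dd_sub {f g : E3 → ℝ} (hf : ContDiff ℝ ∞ f) (hg : ContDiff ℝ ∞ g) (j : Fin 3) (x : E3) :
    dd j (fun y => f y - g y) x = dd j f x - dd j g x := by
  unfold dd
  rw [fderiv_fun_sub ((hf.differentiable (by simp)) x) ((hg.differentiable (by simp)) x)]
  simp

theorem dd_sum {f : Fin 3 → E3 → ℝ} (hf : ∀ i, ContDiff ℝ ∞ (f i)) (j : Fin 3) (x : E3) :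
    dd j (fun y => ∑ i, f i y) x = ∑ i, dd j (f i) x := by
  unfold dd
  rw [fderiv_fun_sum fun i _ => ((hf i).differentiable (by simp)) x]
  simp

/-- `div (∇b × ∇c) = 0` -/
theorem div_cross {b c : E3 → ℝ} (hb : ContDiff ℝ ∞ b) (hc : ContDiff ℝ ∞ c) (x : E3) :
    ∑ j, dd j (fun y => dd (j + 1) b y * dd (j + 2) c y - dd (j + 2) b y * dd (j + 1) c y) x
      = 0 := by
  have h : ∀ j : Fin 3, dd j (fun y => dd (j + 1) b y * dd (j + 2) c y
      - dd (j + 2) b y * dd (j + 1) c y) x =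
      (dd (j + 1) b x * dd j (dd (j + 2) c) x + dd (j + 2) c x * dd j (dd (j + 1) b) x)
      - (dd (j + 2) b x * dd j (dd (j + 1) c) x + dd (j + 1) c x * dd j (dd (j + 2) b) x) := by
    intro j
    rw [dd_sub ((dd_smooth hb _).mul (dd_smooth hc _)) ((dd_smooth hb _).mul (dd_smooth hc _)),
      dd_mul (dd_smooth hb _) (dd_smooth hc _), dd_mul (dd_smooth hb _) (dd_smooth hc _)]
  simp_rw [h]
  rw [Fin.sum_univ_three]
  have a1 : (0 : Fin 3) + 1 = 1 := rfl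
  have a2 : (0 : Fin 3) + 2 = 2 := rfl
  have a3 : (1 : Fin 3) + 1 = 2 := rfl
  have a4 : (1 : Fin 3) + 2 = 0 := rfl
  have a5 : (2 : Fin 3) + 1 = 0 := rfl
  have a6 : (2 : Fin 3) + 2 = 1 := rfl
  rw [a1, a2, a3, a4, a5, a6, dd_comm hb 1 0, dd_comm hb 2 0, dd_comm hb 2 1, dd_comm hc 1 0,
    dd_comm hc 2 0, dd_comm hc 2 1]
  ring

theorem dd_comp {f : E3 → ℝ} {Φ : E3 → E3} (hf : ContDiff ℝ ∞ f) (hΦ : ContDiff ℝ ∞ Φ)
    (j : Fin 3) (x : E3) :
    dd j (fun y => f (Φ y)) x = ∑ k, dd k f (Φ x) * dd j (fun y => Φ y k) x := by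
  have h1 : HasFDerivAt f (fderiv ℝ f (Φ x)) (Φ x) :=
    ((hf.differentiable (by simp)) _).hasFDerivAt
  have h2 : HasFDerivAt Φ (fderiv ℝ Φ x) x := ((hΦ.differentiable (by simp)) _).hasFDerivAt
  have h3 : HasFDerivAt (fun y => f (Φ y)) ((fderiv ℝ f (Φ x)).comp (fderiv ℝ Φ x)) x :=
    h1.comp x h2
  have hv : fderiv ℝ Φ x (ev j) = ∑ k, (fderiv ℝ Φ x (ev j)) k • ev k := by
    ext i
    simp [Finset.sum_apply, Pi.single_apply]
  unfold dd
  rw [h3.fderiv]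
  show fderiv ℝ f (Φ x) (fderiv ℝ Φ x (ev j)) = _
  conv_lhs => rw [hv]
  rw [map_sum]
  refine Finset.sum_congr rfl fun k _ => ?_
  rw [map_smul, smul_eq_mul, fderiv_coord hΦ, mul_comm]

/-- cofactors -/
noncomputable def cofc (T : E3 →L[ℝ] E3) (i j : Fin 3) : ℝ :=
  T (ev (j + 1)) (i + 1) * T (ev (j + 2)) (i + 2) - T (ev (j + 2)) (i + 1) * T (ev (j + 1)) (i + 2)

/-- the unit matrices -/
noncomputable def Eij (i j : Fin 3) : E3 →L[ℝ] E3 :=
  (EuclideanSpace.proj (𝕜 := ℝ) i : E3 →L[ℝ] ℝ).smulRight (ev j)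

/-- the adjugate -/
noncomputable def adj (T : E3 →L[ℝ] E3) : E3 →L[ℝ] E3 := ∑ i, ∑ j, cofc T i j • Eij i j

theorem adj_apply (T : E3 →L[ℝ] E3) (v : E3) (j : Fin 3) :
    adj T v j = ∑ i, v i * cofc T i j := by
  have h : ∀ i k : Fin 3, (cofc T i k • Eij i k) v = (cofc T i k * v i) • ev k := by
    intro i k
    show cofc T i k • (v i • ev k) = _
    rw [smul_smul]
  unfold adj
  simp only [sum_apply, h, WithLp.ofLp_sum, Finset.sum_apply, PiLp.smul_apply, smul_eq_mul]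
  refine Finset.sum_congr rfl fun i _ => ?_
  simp [mul_comm]

theorem adj_smooth : ContDiff ℝ ∞ adj := by
  have h : ∀ (k i : Fin 3), ContDiff ℝ ∞ fun T : E3 →L[ℝ] E3 => T (ev k) i := fun k i =>
    ((EuclideanSpace.proj (𝕜 := ℝ) i : E3 →L[ℝ] ℝ).comp
      (ContinuousLinearMap.apply ℝ E3 (ev k))).contDiff
  unfold adj cofc
  refine ContDiff.sum fun i _ => ContDiff.sum fun j _ => ?_
  exact (((h _ _).mul (h _ _)).sub ((h _ _).mul (h _ _))).smul contDiff_const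

theorem adj_id : adj (ContinuousLinearMap.id ℝ E3) = ContinuousLinearMap.id ℝ E3 := by
  ext v j
  rw [adj_apply, Fin.sum_univ_three]
  unfold cofc
  fin_cases j <;> simp

/-- the Piola transform -/
noncomputable def piola (Φ ψ : E3 → E3) (x : E3) : E3 := adj (fderiv ℝ Φ x) (ψ (Φ x))

theorem piola_apply {Φ ψ : E3 → E3} (hΦ : ContDiff ℝ ∞ Φ) (x : E3) (j : Fin 3) :
    piola Φ ψ x j = ∑ i, ψ (Φ x) i * (dd (j + 1) (fun y => Φ y (i + 1)) x *
      dd (j + 2) (fun y => Φ y (i + 2)) x - dd (j + 2) (fun y => Φ y (i + 1)) x *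
      dd (j + 1) (fun y => Φ y (i + 2)) x) := by
  unfold piola dd
  rw [adj_apply]
  refine Finset.sum_congr rfl fun i _ => ?_
  unfold cofc
  rw [fderiv_coord hΦ, fderiv_coord hΦ, fderiv_coord hΦ, fderiv_coord hΦ]

theorem piola_smooth {Φ ψ : E3 → E3} (hΦ : ContDiff ℝ ∞ Φ) (hψ : ContDiff ℝ ∞ ψ) :
    ContDiff ℝ ∞ (piola Φ ψ) := by
  unfold piola
  exact (adj_smooth.comp (hΦ.fderiv_right (m := ∞) (by simp))).clm_apply (hψ.comp hΦ)

theorem piola_div {Φ ψ : E3 → E3} (hΦ : ContDiff ℝ ∞ Φ) (hψ : ContDiff ℝ ∞ ψ)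
    (hd : ∀ x, ∑ i, jac ψ x (i, i) = 0) (x : E3) : ∑ j, jac (piola Φ ψ) x (j, j) = 0 := by
  have hΦc : ∀ i, ContDiff ℝ ∞ fun y => Φ y i := fun i => contDiff_coord hΦ i
  have hψc : ∀ i, ContDiff ℝ ∞ fun y => ψ y i := fun i => contDiff_coord hψ i
  have hfc : ∀ i, ContDiff ℝ ∞ fun y => ψ (Φ y) i := fun i => (hψc i).comp hΦ
  have hcc : ∀ i j, ContDiff ℝ ∞ fun x => (dd (j + 1) (fun y => Φ y (i + 1)) x *
      dd (j + 2) (fun y => Φ y (i + 2)) x - dd (j + 2) (fun y => Φ y (i + 1)) x *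
      dd (j + 1) (fun y => Φ y (i + 2)) x) := fun i j =>
    ((dd_smooth (hΦc _) _).mul (dd_smooth (hΦc _) _)).sub
      ((dd_smooth (hΦc _) _).mul (dd_smooth (hΦc _) _))
  have e1 : ∀ j, jac (piola Φ ψ) x (j, j) = ∑ i, (ψ (Φ x) i *
      dd j (fun x => (dd (j + 1) (fun y => Φ y (i + 1)) x *
      dd (j + 2) (fun y => Φ y (i + 2)) x - dd (j + 2) (fun y => Φ y (i + 1)) x *
      dd (j + 1) (fun y => Φ y (i + 2)) x)) x + (dd (j + 1) (fun y => Φ y (i + 1)) x *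
      dd (j + 2) (fun y => Φ y (i + 2)) x - dd (j + 2) (fun y => Φ y (i + 1)) x *
      dd (j + 1) (fun y => Φ y (i + 2)) x) * ∑ k, dd k (fun y => ψ y i) (Φ x) *
        dd j (fun y => Φ y k) x) := by
    intro j
    have e2 : jac (piola Φ ψ) x (j, j) = dd j (fun y => piola Φ ψ y j) x := by
      unfold dd
      rw [fderiv_coord (piola_smooth hΦ hψ), jac_apply]
    rw [e2]
    simp_rw [piola_apply hΦ]
    rw [dd_sum fun i => (hfc i).mul (hcc i j)]
    refine Finset.sum_congr rfl fun i _ => ?_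
    rw [dd_mul (hfc i) (hcc i j), dd_comp (hψc i) hΦ]
  simp_rw [e1, Finset.sum_add_distrib]
  have e3 : ∑ j, ∑ i, ψ (Φ x) i * dd j (fun x => (dd (j + 1) (fun y => Φ y (i + 1)) x *
      dd (j + 2) (fun y => Φ y (i + 2)) x - dd (j + 2) (fun y => Φ y (i + 1)) x *
      dd (j + 1) (fun y => Φ y (i + 2)) x)) x = 0 := by
    rw [Finset.sum_comm]
    refine Finset.sum_eq_zero fun i _ => ?_
    rw [← Finset.mul_sum, div_cross (hΦc _) (hΦc _), mul_zero]
  rw [e3, zero_add]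
  have hdx : ∑ i, dd i (fun y => ψ y i) (Φ x) = 0 := by
    have := hd (Φ x)
    rw [← this]
    refine Finset.sum_congr rfl fun i _ => ?_
    unfold dd
    rw [fderiv_coord hψ, jac_apply]
  have a1 : (0 : Fin 3) + 1 = 1 := rfl
  have a2 : (0 : Fin 3) + 2 = 2 := rfl
  have a3 : (1 : Fin 3) + 1 = 2 := rfl
  have a4 : (1 : Fin 3) + 2 = 0 := rfl
  have a5 : (2 : Fin 3) + 1 = 0 := rfl
  have a6 : (2 : Fin 3) + 2 = 1 := rfl
  rw [Fin.sum_univ_three] at hdx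
  simp only [Fin.sum_univ_three, a1, a2, a3, a4, a5, a6]
  have h0 : dd 0 (fun y => ψ y 0) (Φ x) = -dd 1 (fun y => ψ y 1) (Φ x)
      - dd 2 (fun y => ψ y 2) (Φ x) := by linarith
  rw [h0]
  ring

end Pool.Agent.J4H18.LT
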