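import Pool.Agent.J4H18.LT.C2

/-!
Bounds for the Piola transform by a map close to the identity.
-/

set_option autoImplicit false

open MeasureTheory Set Filter Topology
open scoped InnerProductSpace ENNReal ContDiff NNReal

namespace Pool.Agent.J4H18.LT

open H772R2.NS

/-- the map `x + l X(x)` -/
noncomputable def phi (X : E3 → E3) (l : ℝ) (x : E3) : E3 := x + l • X x

theorem phi_smooth {X : E3 → E3} (hX : ContDiff ℝ ∞ X) (l : ℝ) : ContDiff ℝ ∞ (phi X l) := by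
  unfold phi
  exact contDiff_id.add (hX.const_smul l)

theorem fderiv_phi {X : E3 → E3} (hX : ContDiff ℝ ∞ X) (l : ℝ) (x : E3) :
    fderiv ℝ (phi X l) x = ContinuousLinearMap.id ℝ E3 + l • fderiv ℝ X x := by
  have h1 : HasFDerivAt X (fderiv ℝ X x) x := ((hX.differentiable (by simp)) x).hasFDerivAt
  exact ((hasFDerivAt_id x).add (h1.const_smul l)).fderiv

theorem fderiv2_phi {X : E3 → E3} (hX : ContDiff ℝ ∞ X) (l : ℝ) (x : E3) :
    HasFDerivAt (fderiv ℝ (phi X l)) (l • fderiv ℝ (fderiv ℝ X) x) x := by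
  have e : fderiv ℝ (phi X l) = fun x => ContinuousLinearMap.id ℝ E3 + l • fderiv ℝ X x :=
    funext fun x => fderiv_phi hX l x
  rw [e]
  have h1 : HasFDerivAt (fderiv ℝ X) (fderiv ℝ (fderiv ℝ X) x) x :=
    (((hX.fderiv_right (m := ∞) (by simp)).differentiable (by simp)) x).hasFDerivAt
  exact (h1.const_smul l).const_add _

theorem adj_bd (b : ℝ) : ∃ c : ℝ, 0 < c ∧ ∀ T : E3 →L[ℝ] E3,
    ‖T - ContinuousLinearMap.id ℝ E3‖ ≤ b →
    ‖adj T - ContinuousLinearMap.id ℝ E3‖ ≤ c * ‖T - ContinuousLinearMap.id ℝ E3‖ ∧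
    ‖fderiv ℝ adj T‖ ≤ c := by
  have hc : Continuous (fderiv ℝ adj) := adj_smooth.continuous_fderiv (by simp)
  obtain ⟨c, hc⟩ := (isCompact_closedBall (ContinuousLinearMap.id ℝ E3) b).exists_bound_of_continuousOn
    (f := fderiv ℝ adj) hc.continuousOn
  refine ⟨max c 1, by positivity, fun T hT => ?_⟩
  have hTm : T ∈ Metric.closedBall (ContinuousLinearMap.id ℝ E3) b := by
    rwa [mem_closedBall_iff_norm]
  have hb : 0 ≤ b := (norm_nonneg _).trans hT
  refine ⟨?_, (hc T hTm).trans (le_max_left _ _)⟩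
  have h1 := (convex_closedBall (ContinuousLinearMap.id ℝ E3) b).norm_image_sub_le_of_norm_fderiv_le
    (𝕜 := ℝ) (f := adj) (C := max c 1) (fun S _ => (adj_smooth.differentiable (by simp)) S)
    (fun S hS => (hc S hS).trans (le_max_left _ _)) (Metric.mem_closedBall_self hb) hTm
  rwa [adj_id] at h1

theorem piola_bd {X : E3 → E3} (hX : ContDiff ℝ ∞ X) (hc : HasCompactSupport X) :
    ∃ B : ℝ, 0 < B ∧ (∀ x, ‖X x‖ ≤ B) ∧ (∀ x, ‖fderiv ℝ X x‖ ≤ B) ∧
      ∀ l : ℝ, 0 ≤ l → l ≤ 1 → ∀ ψ : E3 → E3, ContDiff ℝ ∞ ψ → ∀ x,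
        ‖piola (phi X l) ψ x - ψ (phi X l x)‖ ≤ B * l * ‖ψ (phi X l x)‖ ∧
        ‖fderiv ℝ (piola (phi X l) ψ) x‖ ≤
          B * (‖ψ (phi X l x)‖ + ‖fderiv ℝ ψ (phi X l x)‖) := by
  obtain ⟨M, hM⟩ := hX.continuous.bounded_above_of_compact_support hc
  obtain ⟨b, hb⟩ := (hX.continuous_fderiv (by simp)).bounded_above_of_compact_support
    (hc.fderiv ℝ)
  obtain ⟨b2, hb2⟩ := ((hX.fderiv_right (m := ∞) (by simp)).continuous_fderiv
    (by simp)).bounded_above_of_compact_support ((hc.fderiv ℝ).fderiv ℝ)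
  have hb0 : 0 ≤ b := (norm_nonneg _).trans (hb 0)
  have hM0 : 0 ≤ M := (norm_nonneg _).trans (hM 0)
  have hb20 : 0 ≤ b2 := (norm_nonneg _).trans (hb2 0)
  obtain ⟨c, hc0, hca⟩ := adj_bd b
  refine ⟨1 + M + b + c * b + c * b2 + (1 + c * b) * (1 + b), by positivity, fun x => ?_,
    fun x => ?_, ?_⟩
  · refine (hM x).trans ?_
    have : 0 ≤ b + c * b + c * b2 + (1 + c * b) * (1 + b) := by positivity
    linarith
  · refine (hb x).trans ?_
    have : 0 ≤ M + c * b + c * b2 + (1 + c * b) * (1 + b) := by positivity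
    linarith
  intro l hl hl1 ψ hψ x
  set Φ := phi X l with hΦ
  have hΦs : ContDiff ℝ ∞ Φ := phi_smooth hX l
  have e1 : fderiv ℝ Φ x - ContinuousLinearMap.id ℝ E3 = l • fderiv ℝ X x := by
    rw [hΦ, fderiv_phi hX, add_sub_cancel_left]
  have n1 : ‖fderiv ℝ Φ x - ContinuousLinearMap.id ℝ E3‖ ≤ l * b := by
    rw [e1, norm_smul, Real.norm_of_nonneg hl]
    gcongr
    exact hb x
  have n1' : ‖fderiv ℝ Φ x - ContinuousLinearMap.id ℝ E3‖ ≤ b := by nlinarith
  obtain ⟨k1, k2⟩ := hca _ n1'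
  have n2 : ‖adj (fderiv ℝ Φ x) - ContinuousLinearMap.id ℝ E3‖ ≤ c * b * l := by
    refine k1.trans ?_
    calc c * ‖fderiv ℝ Φ x - ContinuousLinearMap.id ℝ E3‖ ≤ c * (l * b) := by gcongr
      _ = c * b * l := by ring
  constructor
  · have e2 : piola Φ ψ x - ψ (Φ x) =
        (adj (fderiv ℝ Φ x) - ContinuousLinearMap.id ℝ E3) (ψ (Φ x)) := by
      unfold piola
      simp
    rw [e2]
    refine (ContinuousLinearMap.le_opNorm _ _).trans ?_
    gcongr
    refine n2.trans ?_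
    gcongr
    have : 0 ≤ 1 + M + b + c * b2 + (1 + c * b) * (1 + b) := by positivity
    linarith
  · have d1 : HasFDerivAt (fun x => adj (fderiv ℝ Φ x))
        ((fderiv ℝ adj (fderiv ℝ Φ x)).comp (l • fderiv ℝ (fderiv ℝ X) x)) x :=
      (((adj_smooth.differentiable (by simp)) _).hasFDerivAt).comp x (fderiv2_phi hX l x)
    have d2 : HasFDerivAt (fun x => ψ (Φ x)) ((fderiv ℝ ψ (Φ x)).comp (fderiv ℝ Φ x)) x :=
      (((hψ.differentiable (by simp)) _).hasFDerivAt).comp x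
        ((hΦs.differentiable (by simp)) x).hasFDerivAt
    have d3 := d1.clm_apply d2
    have e3 : fderiv ℝ (piola Φ ψ) x = _ := d3.fderiv
    rw [e3]
    have n3 : ‖adj (fderiv ℝ Φ x)‖ ≤ 1 + c * b := by
      calc ‖adj (fderiv ℝ Φ x)‖ = ‖(adj (fderiv ℝ Φ x) - ContinuousLinearMap.id ℝ E3)
            + ContinuousLinearMap.id ℝ E3‖ := by rw [sub_add_cancel]
        _ ≤ c * b * l + 1 := (norm_add_le _ _).trans
            (add_le_add n2 ContinuousLinearMap.norm_id_le)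
        _ ≤ _ := by nlinarith [mul_nonneg hc0.le hb0]
    have n4 : ‖fderiv ℝ Φ x‖ ≤ 1 + b := by
      calc ‖fderiv ℝ Φ x‖ = ‖(fderiv ℝ Φ x - ContinuousLinearMap.id ℝ E3)
            + ContinuousLinearMap.id ℝ E3‖ := by rw [sub_add_cancel]
        _ ≤ b + 1 := (norm_add_le _ _).trans (add_le_add n1' ContinuousLinearMap.norm_id_le)
        _ = _ := by ring
    have n5 : ‖(fderiv ℝ adj (fderiv ℝ Φ x)).comp (l • fderiv ℝ (fderiv ℝ X) x)‖ ≤ c * b2 := by
      refine (ContinuousLinearMap.opNorm_comp_le _ _).trans ?_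
      rw [norm_smul, Real.norm_of_nonneg hl]
      have : l * ‖fderiv ℝ (fderiv ℝ X) x‖ ≤ b2 := by
        calc l * ‖fderiv ℝ (fderiv ℝ X) x‖ ≤ 1 * b2 := by gcongr; exact hb2 x
          _ = b2 := one_mul _
      gcongr
    refine (norm_add_le _ _).trans ?_
    have m1 : ‖(adj (fderiv ℝ Φ x)).comp ((fderiv ℝ ψ (Φ x)).comp (fderiv ℝ Φ x))‖ ≤
        (1 + c * b) * (1 + b) * ‖fderiv ℝ ψ (Φ x)‖ := by
      refine (ContinuousLinearMap.opNorm_comp_le _ _).trans ?_
      calc ‖adj (fderiv ℝ Φ x)‖ * ‖(fderiv ℝ ψ (Φ x)).comp (fderiv ℝ Φ x)‖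
          ≤ (1 + c * b) * (‖fderiv ℝ ψ (Φ x)‖ * (1 + b)) := by
            gcongr
            refine (ContinuousLinearMap.opNorm_comp_le _ _).trans ?_
            gcongr
        _ = _ := by ring
    have m2 : ‖((fderiv ℝ adj (fderiv ℝ Φ x)).comp (l • fderiv ℝ (fderiv ℝ X) x)).flip
        (ψ (Φ x))‖ ≤ c * b2 * ‖ψ (Φ x)‖ := by
      refine (ContinuousLinearMap.le_opNorm _ _).trans ?_
      rw [ContinuousLinearMap.opNorm_flip]
      gcongr
    refine (add_le_add m1 m2).trans ?_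
    have p1 : (1 + c * b) * (1 + b) ≤ 1 + M + b + c * b + c * b2 + (1 + c * b) * (1 + b) := by
      have : 0 ≤ 1 + M + b + c * b + c * b2 := by positivity
      linarith
    have p2 : c * b2 ≤ 1 + M + b + c * b + c * b2 + (1 + c * b) * (1 + b) := by
      have : 0 ≤ 1 + M + b + c * b + (1 + c * b) * (1 + b) := by positivity
      linarith
    have q1 := mul_le_mul_of_nonneg_right p1 (norm_nonneg (fderiv ℝ ψ (Φ x)))
    have q2 := mul_le_mul_of_nonneg_right p2 (norm_nonneg (ψ (Φ x)))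
    linarith

end Pool.Agent.J4H18.LT
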