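import Pool.Agent.J4H18.LT.C3

/-!
Bounded open sets with smooth boundary: a map close to the identity which moves the exterior away.
-/

set_option autoImplicit false

open MeasureTheory Set Filter Topology Metric
open scoped InnerProductSpace ENNReal ContDiff NNReal

namespace Pool.Agent.J4H18.LT

open H772R2.NS

/-- the gradient -/
noncomputable def grd (ρ : E3 → ℝ) (x : E3) : E3 := WithLp.toLp 2 fun j => fderiv ℝ ρ x (ev j)

theorem grd_smooth {ρ : E3 → ℝ} (hρ : ContDiff ℝ ∞ ρ) : ContDiff ℝ ∞ (grd ρ) := by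
  have h : ∀ j, ContDiff ℝ ∞ fun x => fderiv ℝ ρ x (ev j) := fun j =>
    (hρ.fderiv_right (m := ∞) (by simp)).clm_apply contDiff_const
  unfold grd
  rw [contDiff_euclidean]
  exact h

theorem fderiv_grd (ρ : E3 → ℝ) (x v : E3) : fderiv ℝ ρ x v = ∑ j, v j * grd ρ x j := by
  have hv : v = ∑ k, v k • ev k := by
    ext i
    simp [Finset.sum_apply, Pi.single_apply]
  conv_lhs => rw [hv]
  rw [map_sum]
  refine Finset.sum_congr rfl fun j _ => ?_
  rw [map_smul, smul_eq_mul]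
  rfl

theorem fderiv_grd_self (ρ : E3 → ℝ) (x : E3) : fderiv ℝ ρ x (grd ρ x) = ‖grd ρ x‖ ^ 2 := by
  rw [fderiv_grd, norm_sq_E3]
  exact Finset.sum_congr rfl fun j _ => by ring

theorem taylor {ρ : E3 → ℝ} (hρ : ContDiff ℝ ∞ ρ) {s : Set E3} (hs : Convex ℝ s) {M : ℝ}
    (hM0 : 0 ≤ M) (hM : ∀ x ∈ s, ‖fderiv ℝ (fderiv ℝ ρ) x‖ ≤ M) {x y : E3} (hx : x ∈ s)
    (hy : y ∈ s) : |ρ y - ρ x - fderiv ℝ ρ x (y - x)| ≤ M * ‖y - x‖ ^ 2 := by
  have hsub : segment ℝ x y ⊆ s := hs.segment_subset hx hy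
  have hd : ∀ w, DifferentiableAt ℝ (fderiv ℝ ρ) w := fun w =>
    (hρ.fderiv_right (m := ∞) (by simp)).differentiable (by simp) w
  have hb : ∀ w ∈ segment ℝ x y, ‖fderiv ℝ ρ w - fderiv ℝ ρ x‖ ≤ M * ‖y - x‖ := by
    intro w hw
    have h1 := hs.norm_image_sub_le_of_norm_fderiv_le (𝕜 := ℝ) (f := fderiv ℝ ρ) (C := M)
      (fun w _ => hd w) hM hx (hsub hw)
    refine h1.trans ?_
    gcongr
    obtain ⟨t, ht, rfl⟩ := (segment_eq_image' ℝ x y) ▸ hw
    rw [add_sub_cancel_left, norm_smul, Real.norm_of_nonneg ht.1]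
    calc t * ‖y - x‖ ≤ 1 * ‖y - x‖ := by gcongr; exact ht.2
      _ = ‖y - x‖ := one_mul _
  have h2 := (convex_segment x y).norm_image_sub_le_of_norm_fderiv_le' (𝕜 := ℝ) (f := ρ)
    (φ := fderiv ℝ ρ x) (C := M * ‖y - x‖) (fun w _ => hρ.differentiable (by simp) w) hb
    (left_mem_segment ℝ x y) (right_mem_segment ℝ x y)
  rw [Real.norm_eq_abs] at h2
  refine h2.trans (le_of_eq ?_)
  ring

/-- The geometric lemma. -/
theorem geom {Ω : Set E3} {ρ : E3 → ℝ} (hρ : ContDiff ℝ ∞ ρ) (hΩ : Ω = {x | ρ x < 0})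
    (hb : Bornology.IsBounded Ω) (hg : ∀ x, ρ x = 0 → fderiv ℝ ρ x ≠ 0) :
    ∃ X : E3 → E3, ContDiff ℝ ∞ X ∧ HasCompactSupport X ∧ ∃ κ l0 : ℝ, 0 < κ ∧ 0 < l0 ∧
      ∀ l : ℝ, 0 < l → l ≤ l0 → ∀ x y : E3, phi X l x ∈ Ω → y ∉ Ω → κ * l ≤ ‖x - y‖ := by
  obtain ⟨R, hR0, hR⟩ := hb.exists_pos_norm_le
  -- the cut-off
  let χ : ContDiffBump (0 : E3) := ⟨R + 1, R + 2, by linarith, by linarith⟩
  set X : E3 → E3 := fun x => χ x • grd ρ x with hX
  have hXs : ContDiff ℝ ∞ X := χ.contDiff.smul (grd_smooth hρ)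
  have hXc : HasCompactSupport X := χ.hasCompactSupport.smul_right
  refine ⟨X, hXs, hXc, ?_⟩
  set s : Set E3 := closedBall 0 (R + 2) with hs
  have hsc : IsCompact s := isCompact_closedBall _ _
  have hsv : Convex ℝ s := convex_closedBall _ _
  -- constants
  obtain ⟨M1, hM1⟩ := hsc.exists_bound_of_continuousOn (f := fderiv ℝ ρ)
    (hρ.continuous_fderiv (by simp)).continuousOn
  obtain ⟨M2, hM2⟩ := hsc.exists_bound_of_continuousOn (f := fderiv ℝ (fderiv ℝ ρ))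
    ((hρ.fderiv_right (m := ∞) (by simp)).continuous_fderiv (by simp)).continuousOn
  obtain ⟨M3, hM3⟩ := hXs.continuous.bounded_above_of_compact_support hXc
  set M : ℝ := 1 + |M1| + |M2| + |M3| with hM
  have hMpos : 1 ≤ M := by rw [hM]; linarith [abs_nonneg M1, abs_nonneg M2, abs_nonneg M3]
  have hM1' : ∀ x ∈ s, ‖fderiv ℝ ρ x‖ ≤ M := fun x hx => (hM1 x hx).trans
    (by rw [hM]; linarith [le_abs_self M1, abs_nonneg M2, abs_nonneg M3])
  have hM2' : ∀ x ∈ s, ‖fderiv ℝ (fderiv ℝ ρ) x‖ ≤ M := fun x hx => (hM2 x hx).trans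
    (by rw [hM]; linarith [le_abs_self M2, abs_nonneg M1, abs_nonneg M3])
  have hM3' : ∀ x, ‖X x‖ ≤ M := fun x => (hM3 x).trans
    (by rw [hM]; linarith [le_abs_self M3, abs_nonneg M1, abs_nonneg M2])
  -- lower bound
  have hcont : Continuous fun x => |ρ x| + ‖grd ρ x‖ ^ 2 :=
    hρ.continuous.abs.add ((grd_smooth hρ).continuous.norm.pow 2)
  have hne : s.Nonempty := ⟨0, mem_closedBall_self (by linarith)⟩
  obtain ⟨x0, hx0, hmin⟩ := hsc.exists_isMinOn hne hcont.continuousOn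
  set a : ℝ := |ρ x0| + ‖grd ρ x0‖ ^ 2 with ha
  have ha0 : 0 < a := by
    rw [ha]
    by_cases h0 : ρ x0 = 0
    · have h1 : fderiv ℝ ρ x0 ≠ 0 := hg x0 h0
      have h2 : grd ρ x0 ≠ 0 := by
        intro h3
        apply h1
        ext v
        rw [fderiv_grd, h3]
        simp
      have h3 : 0 < ‖grd ρ x0‖ := norm_pos_iff.2 h2
      positivity
    · have : 0 < |ρ x0| := abs_pos.2 h0
      positivity
  have hlow : ∀ x ∈ s, a ≤ |ρ x| + ‖grd ρ x‖ ^ 2 := fun x hx => hmin hx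
  refine ⟨min (1 / 2) (a / (4 * M)), min (1 / (2 * M)) (a / (4 * M ^ 3)), by positivity,
    by positivity, ?_⟩
  intro l hl hl0 x y hx hy
  by_contra hcon
  push Not at hcon
  set κ : ℝ := min (1 / 2) (a / (4 * M)) with hκ
  have hκ1 : κ ≤ 1 / 2 := min_le_left _ _
  have hκ2 : κ * M ≤ a / 4 := by
    have : κ ≤ a / (4 * M) := min_le_right _ _
    calc κ * M ≤ a / (4 * M) * M := by gcongr
      _ = a / 4 := by field_simp
  have hκ0 : 0 < κ := by positivity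
  have hl1 : l * M ≤ 1 / 2 := by
    have : l ≤ 1 / (2 * M) := hl0.trans (min_le_left _ _)
    calc l * M ≤ 1 / (2 * M) * M := by gcongr
      _ = 1 / 2 := by field_simp
  have hl2 : l * M ^ 3 ≤ a / 4 := by
    have : l ≤ a / (4 * M ^ 3) := hl0.trans (min_le_right _ _)
    calc l * M ^ 3 ≤ a / (4 * M ^ 3) * M ^ 3 := by gcongr
      _ = a / 4 := by field_simp
  have hlle : l ≤ 1 / 2 := by nlinarith
  -- positions
  set w : E3 := phi X l x with hw
  have hwx : w - x = l • X x := by rw [hw, phi, add_sub_cancel_left]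
  have hwx' : ‖w - x‖ ≤ l * M := by
    rw [hwx, norm_smul, Real.norm_of_nonneg hl.le]
    gcongr
    exact hM3' x
  have hwR : ‖w‖ ≤ R := hR w hx
  have hxR : ‖x‖ ≤ R + 1 / 2 := by
    have : ‖x‖ ≤ ‖w‖ + ‖w - x‖ := by
      calc ‖x‖ = ‖w - (w - x)‖ := by rw [sub_sub_cancel]
        _ ≤ _ := norm_sub_le _ _
    linarith
  have hκl : κ * l ≤ 1 / 2 := by nlinarith
  have hyR : ‖y‖ ≤ R + 1 := by
    have : ‖y‖ ≤ ‖x‖ + ‖x - y‖ := by
      calc ‖y‖ = ‖x - (x - y)‖ := by rw [sub_sub_cancel]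
        _ ≤ _ := norm_sub_le _ _
    linarith
  have hxs : x ∈ s := by rw [hs, mem_closedBall_zero_iff]; linarith
  have hys : y ∈ s := by rw [hs, mem_closedBall_zero_iff]; linarith
  have hws : w ∈ s := by rw [hs, mem_closedBall_zero_iff]; linarith
  have hχ : χ x = 1 := χ.one_of_mem_closedBall (by
    rw [mem_closedBall_zero_iff]
    show ‖x‖ ≤ R + 1
    linarith)
  have hXx : X x = grd ρ x := by rw [hX]; simp [hχ]
  rw [hΩ] at hx hy
  have hρw : ρ w < 0 := hx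
  have hρy : 0 ≤ ρ y := not_lt.1 hy
  -- the estimates
  have h1 : |ρ y - ρ x| ≤ M * (κ * l) := by
    have := hsv.norm_image_sub_le_of_norm_fderiv_le (𝕜 := ℝ) (f := ρ) (C := M)
      (fun w _ => hρ.differentiable (by simp) w) hM1' hxs hys
    rw [Real.norm_eq_abs] at this
    refine this.trans ?_
    rw [norm_sub_rev]
    gcongr
  have h2 := taylor hρ hsv (by linarith) hM2' hxs hws
  have e1 : fderiv ℝ ρ x (w - x) = l * ‖grd ρ x‖ ^ 2 := by
    rw [hwx, map_smul, smul_eq_mul, hXx, fderiv_grd_self]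
  rw [e1] at h2
  have h3 : M * ‖w - x‖ ^ 2 ≤ l * (l * M ^ 3) := by
    calc M * ‖w - x‖ ^ 2 ≤ M * (l * M) ^ 2 := by gcongr
      _ = l * (l * M ^ 3) := by ring
  have h4 : l * (l * M ^ 3) ≤ l * (a / 4) := by gcongr
  obtain ⟨h5, h6⟩ := abs_le.1 (h2.trans (h3.trans h4))
  obtain ⟨h7, h8⟩ := abs_le.1 h1
  set g : ℝ := ‖grd ρ x‖ ^ 2 with hgdef
  have hg0 : 0 ≤ g := by positivity
  have h9 : M * (κ * l) ≤ l * (a / 4) := by nlinarith
  -- upper bound of g
  have h10 : l * g < l * (a / 2) := by linarith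
  have h11 : g < a / 2 := lt_of_mul_lt_mul_left h10 hl.le
  have h12 : 0 ≤ l * g := by positivity
  have h13 : |ρ x| ≤ l * (a / 4) := abs_le.2 ⟨by linarith, by linarith⟩
  have h14 : l * (a / 4) ≤ a / 4 := by nlinarith
  have h15 := hlow x hxs
  rw [← hgdef] at h15
  linarith

end Pool.Agent.J4H18.LT
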