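import Pool.Agent.J4H18.LT.C1

/-!
Mollification of test fields.
-/

set_option autoImplicit false

open MeasureTheory Set Filter Topology Metric
open scoped InnerProductSpace ENNReal ContDiff NNReal Convolution

namespace Pool.Agent.J4H18.LT

open H772R2.NS

/-- the bump function -/
noncomputable def bmp (δ : ℝ) (hδ : 0 < δ) : ContDiffBump (0 : E3) :=
  ⟨δ / 2, δ, by linarith, by linarith⟩

/-- the mollifier -/
noncomputable def eta (δ : ℝ) (hδ : 0 < δ) : E3 → ℝ := (bmp δ hδ).normed volume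

/-- the mollifier as a probability measure -/
noncomputable def etaM (δ : ℝ) (hδ : 0 < δ) : Measure E3 :=
  (volume : Measure E3).withDensity fun t => ENNReal.ofReal (eta δ hδ t)

/-- the mollification -/
noncomputable def moll (δ : ℝ) (hδ : 0 < δ) (f : E3 → E3) : E3 → E3 :=
  (eta δ hδ ⋆[ContinuousLinearMap.lsmul ℝ ℝ, volume] f)

variable {δ : ℝ} {hδ : 0 < δ}

theorem eta_cont : Continuous (eta δ hδ) := (bmp δ hδ).continuous_normed

theorem eta_nonneg (t : E3) : 0 ≤ eta δ hδ t := (bmp δ hδ).nonneg_normed t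

theorem eta_compact : HasCompactSupport (eta δ hδ) := (bmp δ hδ).hasCompactSupport_normed

theorem etaM_univ : etaM δ hδ univ = 1 := by
  have h1 : ∫ t, eta δ hδ t = 1 := (bmp δ hδ).integral_normed
  have h2 : Integrable (eta δ hδ) := (bmp δ hδ).integrable_normed
  unfold etaM
  rw [withDensity_apply _ MeasurableSet.univ, Measure.restrict_univ,
    ← ofReal_integral_eq_lintegral_ofReal h2 (Eventually.of_forall eta_nonneg), h1]
  simp

instance : IsProbabilityMeasure (etaM δ hδ) := ⟨etaM_univ⟩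

theorem etaM_supp : ∀ᵐ t ∂(etaM δ hδ), ‖t‖ < δ := by
  unfold etaM
  rw [ae_withDensity_iff (by
    exact (ENNReal.measurable_ofReal.comp (eta_cont (hδ := hδ)).measurable))]
  refine Eventually.of_forall fun t ht => ?_
  have h1 : t ∈ Function.support (eta δ hδ) := by
    intro h0
    apply ht
    rw [h0]
    simp
  unfold eta at h1
  rw [(bmp δ hδ).support_normed_eq] at h1
  simpa [bmp] using h1

theorem int_etaM {E' : Type} [NormedAddCommGroup E'] [NormedSpace ℝ E'] (g : E3 → E') :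
    ∫ t, g t ∂(etaM δ hδ) = ∫ t, eta δ hδ t • g t := by
  have h := integral_withDensity_eq_integral_smul (μ := (volume : Measure E3))
    (f := fun t => (eta δ hδ t).toNNReal) (measurable_real_toNNReal.comp
      (eta_cont (hδ := hδ)).measurable) g
  have e : ∀ t, (eta δ hδ t).toNNReal • g t = eta δ hδ t • g t := by
    intro t
    rw [NNReal.smul_def, Real.coe_toNNReal _ (eta_nonneg t)]
  simp_rw [e] at h
  exact h

theorem moll_eq (f : E3 → E3) (x : E3) :
    moll δ hδ f x = ∫ t, f (x - t) ∂(etaM δ hδ) := by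
  rw [int_etaM]
  rfl

theorem moll_smooth {f : E3 → E3} (hf : ContDiff ℝ ∞ f) (hc : HasCompactSupport f) :
    ContDiff ℝ ∞ (moll δ hδ f) :=
  hc.contDiff_convolution_right _ (eta_cont.locallyIntegrable) hf

theorem fderiv_moll {f : E3 → E3} (hf : ContDiff ℝ ∞ f) (hc : HasCompactSupport f) (x v : E3) :
    fderiv ℝ (moll δ hδ f) x v = ∫ t, fderiv ℝ f (x - t) v ∂(etaM δ hδ) := by
  have h1 := hc.hasFDerivAt_convolution_right (ContinuousLinearMap.lsmul ℝ ℝ)
    (μ := volume) (f := eta δ hδ) eta_cont.locallyIntegrable (hf.of_le (by simp)) x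
  have h2 : fderiv ℝ (moll δ hδ f) x = _ := h1.fderiv
  rw [h2, convolution_precompR_apply _ eta_cont.locallyIntegrable (hc.fderiv ℝ)
    (hf.continuous_fderiv (by simp)), int_etaM]
  rfl

theorem int_comp {E' : Type} [NormedAddCommGroup E'] [NormedSpace ℝ E']
    [CompleteSpace E'] {g : E3 → E'} (hg : Continuous g) (hc : HasCompactSupport g) (x : E3) :
    Integrable (fun t => g (x - t)) (etaM δ hδ) := by
  obtain ⟨C, hC⟩ := hg.bounded_above_of_compact_support hc
  have h1 : Continuous fun t => g (x - t) := by fun_prop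
  have h2 : HasCompactSupport fun t => g (x - t) :=
    hc.comp_homeomorph (Homeomorph.subLeft x)
  have h3 : AEStronglyMeasurable (fun t => g (x - t)) (etaM δ hδ) := h1.aestronglyMeasurable
  exact (integrable_const C).mono' h3 (Eventually.of_forall fun t => hC _)

theorem jac_moll {f : E3 → E3} (hf : ContDiff ℝ ∞ f) (hc : HasCompactSupport f) (x : E3) :
    jac (moll δ hδ f) x = ∫ t, jac f (x - t) ∂(etaM δ hδ) := by
  ext p
  have h1 : (∫ t, jac f (x - t) ∂(etaM δ hδ)) p = ∫ t, jac f (x - t) p ∂(etaM δ hδ) := by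
    have := (EuclideanSpace.proj (𝕜 := ℝ) p : M3 →L[ℝ] ℝ).integral_comp_comm
      (int_comp (δ := δ) (hδ := hδ) (continuous_jac hf) (hasCompactSupport_jac hc) x)
    exact this.symm
  rw [h1, jac_apply, fderiv_moll hf hc]
  have hg : Continuous fun y => fderiv ℝ f y (ev p.2) :=
    (hf.continuous_fderiv (by simp)).clm_apply continuous_const
  have hgc : HasCompactSupport fun y => fderiv ℝ f y (ev p.2) := hc.fderiv_apply ℝ _
  have := (EuclideanSpace.proj (𝕜 := ℝ) p.1 : E3 →L[ℝ] ℝ).integral_comp_comm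
      (int_comp (δ := δ) (hδ := hδ) hg hgc x)
  exact this.symm

theorem jensen {E' : Type} [NormedAddCommGroup E'] [NormedSpace ℝ E'] {h : E3 → E'}
    (hh : Continuous h) : ‖∫ t, h t ∂(etaM δ hδ)‖ₑ ^ 2 ≤ ∫⁻ t, ‖h t‖ₑ ^ 2 ∂(etaM δ hδ) := by
  have h1 : ‖∫ t, h t ∂(etaM δ hδ)‖ₑ ≤ ∫⁻ t, ‖h t‖ₑ ∂(etaM δ hδ) :=
    enorm_integral_le_lintegral_enorm _
  have h2 := Pool.Agent.W52.TQ.cs_sq (μ := etaM δ hδ) (f := fun t => ‖h t‖ₑ) (g := fun _ => 1)
    hh.enorm.measurable.aemeasurable aemeasurable_const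
  simp only [mul_one, one_pow, lintegral_const, measure_univ] at h2
  exact (pow_le_pow_left' h1 2).trans h2

/-- the distance to the mollification -/
theorem moll_dist {f : E3 → E3} (hf : ContDiff ℝ ∞ f) (hc : HasCompactSupport f) :
    ∫⁻ x, ‖moll δ hδ f x - f x‖ₑ ^ 2 ≤
      ENNReal.ofReal δ ^ 2 * (8 * ∫⁻ x, ‖fderiv ℝ f x‖ₑ ^ 2) := by
  have hfc := hf.continuous
  have h1 : ∀ x, ‖moll δ hδ f x - f x‖ₑ ^ 2 ≤ ∫⁻ t, ‖f (x - t) - f x‖ₑ ^ 2 ∂(etaM δ hδ) := by
    intro x
    have e : moll δ hδ f x - f x = ∫ t, (f (x - t) - f x) ∂(etaM δ hδ) := by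
      rw [integral_sub (int_comp hfc hc x) (integrable_const _), integral_const, moll_eq]
      simp
    rw [e]
    exact jensen (by fun_prop)
  have hm : Measurable fun p : E3 × E3 => ‖f (p.1 - p.2) - f p.1‖ₑ ^ 2 := by
    have : Continuous fun p : E3 × E3 => f (p.1 - p.2) - f p.1 := by fun_prop
    exact this.enorm.measurable.pow_const 2
  calc ∫⁻ x, ‖moll δ hδ f x - f x‖ₑ ^ 2
      ≤ ∫⁻ x, ∫⁻ t, ‖f (x - t) - f x‖ₑ ^ 2 ∂(etaM δ hδ) := lintegral_mono h1
    _ = ∫⁻ t, (∫⁻ x, ‖f (x - t) - f x‖ₑ ^ 2) ∂(etaM δ hδ) :=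
        lintegral_lintegral_swap hm.aemeasurable
    _ ≤ ∫⁻ t, ENNReal.ofReal δ ^ 2 * (8 * ∫⁻ x, ‖fderiv ℝ f x‖ₑ ^ 2) ∂(etaM δ hδ) := by
        refine lintegral_mono_ae ?_
        filter_upwards [etaM_supp (δ := δ) (hδ := hδ)] with t ht
        have h2 := path_le (ψ := f) (hf.of_le (by simp)) (X := fun _ => -t)
          ((LipschitzWith.const (-t)).weaken zero_le) (M := δ) (fun x => by
            rw [norm_neg]; exact ht.le)
        simpa [sub_eq_add_neg] using h2
    _ = _ := by simp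

/-- the gradient of the mollification in `L²` -/
theorem moll_grad {f : E3 → E3} (hf : ContDiff ℝ ∞ f) (hc : HasCompactSupport f) :
    ∫⁻ x, ‖jac (moll δ hδ f) x‖ₑ ^ 2 ≤ ∫⁻ x, ‖jac f x‖ₑ ^ 2 := by
  have hjc := continuous_jac hf
  have h1 : ∀ x, ‖jac (moll δ hδ f) x‖ₑ ^ 2 ≤ ∫⁻ t, ‖jac f (x - t)‖ₑ ^ 2 ∂(etaM δ hδ) := by
    intro x
    rw [jac_moll hf hc]
    exact jensen (by fun_prop)
  have hm : Measurable fun p : E3 × E3 => ‖jac f (p.1 - p.2)‖ₑ ^ 2 := by
    have : Continuous fun p : E3 × E3 => jac f (p.1 - p.2) := by fun_prop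
    exact this.enorm.measurable.pow_const 2
  calc ∫⁻ x, ‖jac (moll δ hδ f) x‖ₑ ^ 2
      ≤ ∫⁻ x, ∫⁻ t, ‖jac f (x - t)‖ₑ ^ 2 ∂(etaM δ hδ) := lintegral_mono h1
    _ = ∫⁻ t, (∫⁻ x, ‖jac f (x - t)‖ₑ ^ 2) ∂(etaM δ hδ) :=
        lintegral_lintegral_swap hm.aemeasurable
    _ = ∫⁻ t, (∫⁻ x, ‖jac f x‖ₑ ^ 2) ∂(etaM δ hδ) := by
        refine lintegral_congr fun t => ?_
        exact lintegral_sub_right_eq_self (fun x => ‖jac f x‖ₑ ^ 2) t
    _ = _ := by simp

/-- a constant -/
noncomputable def cB : ℝ := 8 / (volume : Measure E3).real (ball 0 1)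

theorem cB_pos : 0 < cB := by
  unfold cB
  have : 0 < (volume : Measure E3).real (ball 0 1) := by
    rw [measureReal_def]
    exact ENNReal.toReal_pos (measure_ball_pos _ _ one_pos).ne' measure_ball_lt_top.ne
  positivity

theorem eta_le (t : E3) : eta δ hδ t ≤ cB / δ ^ 3 := by
  have h := (bmp δ hδ).normed_le_div_measure_closedBall_rIn (volume : Measure E3) t
  have hr : (bmp δ hδ).rIn = δ / 2 := rfl
  rw [hr, Measure.addHaar_real_closedBall _ _ (by positivity)] at h
  simp only [finrank_euclideanSpace, Fintype.card_fin] at h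
  refine h.trans (le_of_eq ?_)
  unfold cB
  have : (volume : Measure E3).real (ball 0 1) ≠ 0 := by
    rw [measureReal_def]
    exact (ENNReal.toReal_pos (measure_ball_pos _ _ one_pos).ne' measure_ball_lt_top.ne).ne'
  field_simp
  norm_num

/-- the gradient of the mollification in `L^∞` -/
theorem moll_sup {f : E3 → E3} (hf : ContDiff ℝ ∞ f) (hc : HasCompactSupport f) (x : E3) :
    ‖jac (moll δ hδ f) x‖ₑ ^ 2 ≤ ENNReal.ofReal (cB / δ ^ 3) * ∫⁻ x, ‖jac f x‖ₑ ^ 2 := by
  have hjc := continuous_jac hf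
  have h1 : ‖jac (moll δ hδ f) x‖ₑ ^ 2 ≤ ∫⁻ t, ‖jac f (x - t)‖ₑ ^ 2 ∂(etaM δ hδ) := by
    rw [jac_moll hf hc]
    exact jensen (by fun_prop)
  have hm : Measurable fun t : E3 => ‖jac f (x - t)‖ₑ ^ 2 := by
    have : Continuous fun t : E3 => jac f (x - t) := by fun_prop
    exact this.enorm.measurable.pow_const 2
  have hme : Measurable fun t => ENNReal.ofReal (eta δ hδ t) :=
    ENNReal.measurable_ofReal.comp (eta_cont (hδ := hδ)).measurable
  refine h1.trans ?_
  unfold etaM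
  rw [lintegral_withDensity_eq_lintegral_mul _ hme hm]
  calc ∫⁻ t, ((fun t => ENNReal.ofReal (eta δ hδ t)) * fun t => ‖jac f (x - t)‖ₑ ^ 2) t
      ≤ ∫⁻ t, ENNReal.ofReal (cB / δ ^ 3) * ‖jac f (x - t)‖ₑ ^ 2 := by
        refine lintegral_mono fun t => ?_
        simp only [Pi.mul_apply]
        gcongr
        exact eta_le t
    _ = ENNReal.ofReal (cB / δ ^ 3) * ∫⁻ t, ‖jac f (x - t)‖ₑ ^ 2 :=
        lintegral_const_mul _ hm
    _ = _ := by
        congr 1
        exact lintegral_sub_left_eq_self (fun t => ‖jac f t‖ₑ ^ 2) x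

/-- the mollification is a test field -/
theorem moll_test {Ω : Set E3} {f : E3 → E3} (hf : ContDiff ℝ ∞ f) (hc : HasCompactSupport f)
    (hd : ∀ x, ∑ i, jac f x (i, i) = 0) (hs : ∀ x ∈ tsupport f, closedBall x δ ⊆ Ω) :
    IsTest Ω (moll δ hδ f) := by
  have hsup : Function.support (moll δ hδ f) ⊆ cthickening δ (tsupport f) := by
    refine (support_convolution_subset (ContinuousLinearMap.lsmul ℝ ℝ)).trans ?_
    rintro _ ⟨a, ha, b, hb, rfl⟩
    refine mem_cthickening_of_dist_le _ b δ _ (subset_tsupport _ hb) ?_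
    unfold eta at ha
    rw [(bmp δ hδ).support_normed_eq] at ha
    have h1 : ‖a‖ < δ := by simpa [bmp] using ha
    show dist (a + b) b ≤ δ
    rw [dist_eq_norm, add_sub_cancel_right]
    exact h1.le
  have hts : tsupport (moll δ hδ f) ⊆ cthickening δ (tsupport f) :=
    closure_minimal hsup isClosed_cthickening
  refine ⟨moll_smooth hf hc, ?_, ?_, ?_⟩
  · exact (hc.isCompact.cthickening).of_isClosed_subset (isClosed_tsupport _) hts
  · refine hts.trans ?_
    rw [hc.isCompact.cthickening_eq_biUnion_closedBall hδ.le]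
    exact iUnion₂_subset hs
  · intro x
    have h1 : ∀ i, jac (moll δ hδ f) x (i, i) = ∫ t, jac f (x - t) (i, i) ∂(etaM δ hδ) := by
      intro i
      rw [jac_moll hf hc]
      have := (EuclideanSpace.proj (𝕜 := ℝ) (i, i) : M3 →L[ℝ] ℝ).integral_comp_comm
        (int_comp (δ := δ) (hδ := hδ) (continuous_jac hf) (hasCompactSupport_jac hc) x)
      exact this.symm
    simp_rw [h1]
    rw [← integral_finsetSum]
    · simp_rw [hd]
      simp
    · intro i _
      exact (EuclideanSpace.proj (𝕜 := ℝ) (i, i) : M3 →L[ℝ] ℝ).integrable_comp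
        (int_comp (δ := δ) (hδ := hδ) (continuous_jac hf) (hasCompactSupport_jac hc) x)

end Pool.Agent.J4H18.LT
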