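import Pool.Agent.J4H18.LT.C4
import Pool.Agent.J4H18.LT.C5
import Pool.Agent.H772R2.NSR.Conc

/-!
Approximation of test fields by test fields with a bounded gradient.
-/

set_option autoImplicit false

open MeasureTheory Set Filter Topology Metric
open scoped InnerProductSpace ENNReal ContDiff NNReal

namespace Pool.Agent.J4H18.LT

open H772R2.NS

/-- the square of the norm in `L²` -/
noncomputable def nq {E' : Type} [NormedAddCommGroup E'] (g : E3 → E') : ℝ :=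
  (∫⁻ x, ‖g x‖ₑ ^ 2).toReal

theorem nq_nonneg {E' : Type} [NormedAddCommGroup E'] (g : E3 → E') : 0 ≤ nq g :=
  ENNReal.toReal_nonneg

theorem nq_fin {E' : Type} [NormedAddCommGroup E'] {g : E3 → E'} (hg : Continuous g)
    (hc : HasCompactSupport g) : ∫⁻ x, ‖g x‖ₑ ^ 2 ≠ ⊤ := by
  have h : MemLp g 2 (volume : Measure E3) := hg.memLp_of_hasCompactSupport hc
  rw [Pool.Agent.W52.TQ.eLp2_sq]
  exact (ENNReal.pow_lt_top h.eLpNorm_lt_top).ne

theorem nq_le {E' F' : Type} [NormedAddCommGroup E'] [NormedAddCommGroup F'] {g : E3 → E'}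
    {h : E3 → F'} {c : ℝ} (hc : 0 ≤ c) (hh : ∫⁻ x, ‖h x‖ₑ ^ 2 ≠ ⊤)
    (hle : ∫⁻ x, ‖g x‖ₑ ^ 2 ≤ ENNReal.ofReal c * ∫⁻ x, ‖h x‖ₑ ^ 2) : nq g ≤ c * nq h := by
  have h1 := ENNReal.toReal_mono (ENNReal.mul_ne_top ENNReal.ofReal_ne_top hh) hle
  rw [ENNReal.toReal_mul, ENNReal.toReal_ofReal hc] at h1
  exact h1

theorem nq_mono {E' F' : Type} [NormedAddCommGroup E'] [NormedAddCommGroup F'] {g : E3 → E'}
    {h : E3 → F'} (hh : ∫⁻ x, ‖h x‖ₑ ^ 2 ≠ ⊤) {c : ℝ} (hc : 0 ≤ c)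
    (hle : ∀ x, ‖g x‖ ≤ c * ‖h x‖) : nq g ≤ c ^ 2 * nq h := by
  refine nq_le (by positivity) hh ?_
  rw [← lintegral_const_mul' _ _ ENNReal.ofReal_ne_top]
  refine lintegral_mono fun x => ?_
  rw [← ofReal_norm, ← ofReal_norm, ← ENNReal.ofReal_pow (norm_nonneg _),
    ← ENNReal.ofReal_pow (norm_nonneg _), ← ENNReal.ofReal_mul (by positivity)]
  refine ENNReal.ofReal_le_ofReal ?_
  calc ‖g x‖ ^ 2 ≤ (c * ‖h x‖) ^ 2 := by gcongr; exact hle x
    _ = _ := by ring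

theorem lint_add {E' F' G' : Type} [NormedAddCommGroup E'] [NormedAddCommGroup F']
    [NormedAddCommGroup G'] {g : E3 → E'} {a : E3 → F'} {b : E3 → G'} (ha : Continuous a)
    (hle : ∀ x, ‖g x‖ ≤ ‖a x‖ + ‖b x‖) :
    ∫⁻ x, ‖g x‖ₑ ^ 2 ≤ 2 * (∫⁻ x, ‖a x‖ₑ ^ 2) + 2 * ∫⁻ x, ‖b x‖ₑ ^ 2 := by
  rw [← lintegral_const_mul' _ _ (by simp), ← lintegral_const_mul' _ _ (by simp),
    ← lintegral_add_left ((ha.enorm.measurable.pow_const 2).const_mul 2)]
  refine lintegral_mono fun x => ?_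
  rw [← ofReal_norm, ← ofReal_norm, ← ofReal_norm, ← ENNReal.ofReal_pow (norm_nonneg _),
    ← ENNReal.ofReal_pow (norm_nonneg _), ← ENNReal.ofReal_pow (norm_nonneg _),
    ← ENNReal.ofReal_ofNat 2, ← ENNReal.ofReal_mul (by norm_num),
    ← ENNReal.ofReal_mul (by norm_num), ← ENNReal.ofReal_add (by positivity) (by positivity)]
  refine ENNReal.ofReal_le_ofReal ?_
  have h2 : ‖g x‖ ^ 2 ≤ (‖a x‖ + ‖b x‖) ^ 2 := by gcongr; exact hle x
  nlinarith [sq_nonneg (‖a x‖ - ‖b x‖)]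

theorem nq_add {E' F' G' : Type} [NormedAddCommGroup E'] [NormedAddCommGroup F']
    [NormedAddCommGroup G'] {g : E3 → E'} {a : E3 → F'} {b : E3 → G'} (ha : Continuous a)
    (hfa : ∫⁻ x, ‖a x‖ₑ ^ 2 ≠ ⊤) (hfb : ∫⁻ x, ‖b x‖ₑ ^ 2 ≠ ⊤)
    (hle : ∀ x, ‖g x‖ ≤ ‖a x‖ + ‖b x‖) : nq g ≤ 2 * nq a + 2 * nq b := by
  have h2 := ENNReal.toReal_mono (by finiteness) (lint_add ha hle)
  rw [ENNReal.toReal_add (by finiteness) (by finiteness), ENNReal.toReal_mul,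
    ENNReal.toReal_mul] at h2
  simpa [nq] using h2

theorem norm_jac_le (f : E3 → E3) (x : E3) : ‖jac f x‖ ≤ 2 * ‖fderiv ℝ f x‖ := by
  have h1 : ‖jac f x‖ ^ 2 ≤ 3 * ‖fderiv ℝ f x‖ ^ 2 := by
    rw [norm_sq_M3, Finset.sum_comm]
    have h2 : ∀ j : Fin 3, ∑ i, jac f x (i, j) ^ 2 ≤ ‖fderiv ℝ f x‖ ^ 2 := by
      intro j
      have e : ∑ i, jac f x (i, j) ^ 2 = ‖fderiv ℝ f x (ev j)‖ ^ 2 := by
        rw [norm_sq_E3]
        rfl
      rw [e]
      have h3 : ‖fderiv ℝ f x (ev j)‖ ≤ ‖fderiv ℝ f x‖ := by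
        have := (fderiv ℝ f x).le_opNorm (ev j)
        simpa using this
      gcongr
    calc ∑ j, ∑ i, jac f x (i, j) ^ 2 ≤ ∑ j : Fin 3, ‖fderiv ℝ f x‖ ^ 2 :=
          Finset.sum_le_sum fun j _ => h2 j
      _ = _ := by simp
  have h2 : ‖jac f x‖ ^ 2 ≤ (2 * ‖fderiv ℝ f x‖) ^ 2 := by
    nlinarith [sq_nonneg ‖fderiv ℝ f x‖]
  exact (pow_le_pow_iff_left₀ (norm_nonneg _) (by positivity) (by norm_num)).mp h2

/-- norms of pairs of test fields -/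
theorem pair_norm {Ω : Set E3} (hΩ : MeasurableSet Ω) {φ : E3 → E3} (h : IsTest Ω φ)
    {p : L2V Ω × L2M Ω} (h1 : p.1 =ᵐ[volume.restrict Ω] φ)
    (h2 : p.2 =ᵐ[volume.restrict Ω] jac φ) : ‖p.1‖ ^ 2 = nq φ ∧ ‖p.2‖ ^ 2 = nq (jac φ) := by
  constructor
  · have e1 : ‖p.1‖ₑ ^ 2 = ∫⁻ x, ‖φ x‖ₑ ^ 2 := by
      rw [Lp.enorm_def, eLpNorm_congr_ae h1, ← Pool.Agent.W52.TQ.eLp2_sq]
      rw [← lintegral_indicator hΩ]
      refine lintegral_congr fun x => ?_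
      by_cases hx : x ∈ Ω
      · rw [indicator_of_mem hx]
      · rw [indicator_of_notMem hx, image_eq_zero_of_notMem_tsupport fun hc => hx (h.supp hc)]
        simp
    have e2 := congrArg ENNReal.toReal e1
    rw [ENNReal.toReal_pow, toReal_enorm] at e2
    exact e2
  · have e1 : ‖p.2‖ₑ ^ 2 = ∫⁻ x, ‖jac φ x‖ₑ ^ 2 := by
      rw [Lp.enorm_def, eLpNorm_congr_ae h2, h.eLpNorm_jac_restrict hΩ,
        Pool.Agent.W52.TQ.eLp2_sq]
    have e2 := congrArg ENNReal.toReal e1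
    rw [ENNReal.toReal_pow, toReal_enorm] at e2
    exact e2

/-- the pair of a test field -/
theorem exists_pair {Ω : Set E3} {φ : E3 → E3} (h : IsTest Ω φ) :
    ∃ p : L2V Ω × L2M Ω, p ∈ preW Ω ∧ p.1 =ᵐ[volume.restrict Ω] φ ∧
      p.2 =ᵐ[volume.restrict Ω] jac φ := by
  have m1 : MemLp φ 2 (volume.restrict Ω) := (h.memLp 2).restrict Ω
  have m2 : MemLp (jac φ) 2 (volume.restrict Ω) := (h.jac_memLp 2).restrict Ω
  exact ⟨(m1.toLp φ, m2.toLp (jac φ)), ⟨φ, h, m1.coeFn_toLp, m2.coeFn_toLp⟩, m1.coeFn_toLp,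
    m2.coeFn_toLp⟩

/-- The approximation of test fields. -/
theorem approx_test {Ω : Set E3} {ρ : E3 → ℝ} (hρ : ContDiff ℝ ∞ ρ) (hΩ : Ω = {x | ρ x < 0})
    (hb : Bornology.IsBounded Ω) (hg : ∀ x, ρ x = 0 → fderiv ℝ ρ x ≠ 0) :
    ∃ A l0 : ℝ, 0 < A ∧ 0 < l0 ∧ ∀ l : ℝ, 0 < l → l ≤ l0 → ∀ ψ : E3 → E3, IsTest Ω ψ →
      ∃ φ : E3 → E3, IsTest Ω φ ∧ nq (φ - ψ) ≤ A * l ^ 2 * nq (jac ψ) ∧
        nq (jac φ) ≤ A * nq (jac ψ) ∧ ∀ x, ‖jac φ x‖ ^ 2 * l ^ 3 ≤ A * nq (jac ψ) := by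
  have hΩo : IsOpen Ω := by
    rw [hΩ]
    exact isOpen_lt hρ.continuous continuous_const
  obtain ⟨C, Fr⟩ := H772R2.NSR.exists_frame hΩo hb
  obtain ⟨X, hX, hXc, κ, l1, hκ, hl1, hgeo⟩ := geom hρ hΩ hb hg
  obtain ⟨B, hB0, hBX, hBX', hBp⟩ := piola_bd hX hXc
  have hC := Fr.C0
  have hcB := cB_pos
  set Q : ℝ := 16 * B ^ 2 * (C ^ 2 + 1) with hQ
  have hQ0 : 0 < Q := by positivity
  refine ⟨4 * (8 * κ ^ 2 * Q) + 32 * B ^ 2 * (C ^ 2 + 1) + 4 * Q + 32 * cB / κ ^ 3 * Q,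
    min l1 (min 1 (1 / (2 * B))), by positivity, by positivity, ?_⟩
  intro l hl hl0 ψ hψ
  have hll1 : l ≤ l1 := hl0.trans (min_le_left _ _)
  have hle1 : l ≤ 1 := hl0.trans ((min_le_right _ _).trans (min_le_left _ _))
  have hlB : l * B ≤ 1 / 2 := by
    have : l ≤ 1 / (2 * B) := hl0.trans ((min_le_right _ _).trans (min_le_right _ _))
    calc l * B ≤ 1 / (2 * B) * B := by gcongr
      _ = 1 / 2 := by field_simp
  set Φ := phi X l with hΦ
  have hΦs : ContDiff ℝ ∞ Φ := phi_smooth hX l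
  have hΦc := hΦs.continuous
  -- the vector field l X
  have hlip : LipschitzWith (1 / 2) (fun x => l • X x) := by
    refine lipschitzWith_of_nnnorm_fderiv_le (𝕜 := ℝ)
      ((hX.const_smul l).differentiable (by simp)) fun x => ?_
    rw [← NNReal.coe_le_coe, coe_nnnorm]
    have e : fderiv ℝ (fun x => l • X x) x = l • fderiv ℝ X x :=
      (((hX.differentiable (by simp)) x).hasFDerivAt.const_smul l).fderiv
    rw [e, norm_smul, Real.norm_of_nonneg hl.le]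
    calc l * ‖fderiv ℝ X x‖ ≤ l * B := by gcongr; exact hBX' x
      _ ≤ _ := by simpa using hlB
  have hbd : ∀ x, ‖l • X x‖ ≤ l * B := fun x => by
    rw [norm_smul, Real.norm_of_nonneg hl.le]
    gcongr
    exact hBX x
  have hanti : AntilipschitzWith 2 Φ := by
    have h1 := anti_of_lip hlip (s := 1) ⟨zero_le_one, le_rfl⟩
    have e : Φ = fun x => x + (1 : ℝ) • (l • X x) := by
      funext x
      rw [one_smul]
      rfl
    rw [e]
    exact h1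
  -- the transformed field
  set f := piola Φ ψ with hf
  have hfs : ContDiff ℝ ∞ f := piola_smooth hΦs hψ.smooth
  have hsupp : tsupport f ⊆ Φ ⁻¹' tsupport ψ := by
    refine closure_minimal ?_ ((isClosed_tsupport ψ).preimage hΦc)
    intro x hx
    refine subset_tsupport _ fun h0 => hx ?_
    show adj (fderiv ℝ Φ x) (ψ (Φ x)) = 0
    rw [h0, map_zero]
  have hfc : HasCompactSupport f := by
    obtain ⟨R, hR⟩ := hψ.compact.isCompact.isBounded.exists_norm_le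
    have hsub : tsupport f ⊆ closedBall 0 (R + l * B) := by
      intro x hx
      have h1 := hR _ (hsupp hx)
      have h2 := hbd x
      rw [mem_closedBall_zero_iff]
      have e : x = Φ x - l • X x := by rw [hΦ, phi, add_sub_cancel_right]
      calc ‖x‖ = ‖Φ x - l • X x‖ := by rw [← e]
        _ ≤ ‖Φ x‖ + ‖l • X x‖ := norm_sub_le _ _
        _ ≤ _ := add_le_add h1 h2
    exact (isCompact_closedBall _ _).of_isClosed_subset (isClosed_tsupport _) hsub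
  have hfd : ∀ x, ∑ i, jac f x (i, i) = 0 := piola_div hΦs hψ.smooth hψ.divfree
  set δ : ℝ := κ * l / 2 with hδd
  have hδ : 0 < δ := by positivity
  have hball : ∀ x ∈ tsupport f, closedBall x δ ⊆ Ω := by
    intro x hx y hy
    by_contra hyΩ
    have h1 := hgeo l hl hll1 x y (hψ.supp (hsupp hx)) hyΩ
    rw [mem_closedBall, dist_eq_norm, norm_sub_rev] at hy
    have : δ < κ * l := by rw [hδd]; linarith [mul_pos hκ hl]
    linarith
  refine ⟨moll δ hδ f, moll_test hfs hfc hfd hball, ?_⟩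
  have htest : IsTest Ω (moll δ hδ f) := moll_test hfs hfc hfd hball
  -- finiteness
  have fψ := nq_fin hψ.smooth.continuous hψ.compact
  have fjψ := nq_fin (continuous_jac hψ.smooth) (hasCompactSupport_jac hψ.compact)
  have fdψ := nq_fin (hψ.smooth.continuous_fderiv (by simp)) (hψ.compact.fderiv ℝ)
  have fjf := nq_fin (continuous_jac hfs) (hasCompactSupport_jac hfc)
  have fdf := nq_fin (hfs.continuous_fderiv (by simp)) (hfc.fderiv ℝ)
  -- Poincare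
  have hpo : nq ψ ≤ C ^ 2 * nq (jac ψ) := by
    obtain ⟨p, hp, hp1, hp2⟩ := exists_pair hψ
    obtain ⟨e1, e2⟩ := pair_norm hΩo.measurableSet hψ hp1 hp2
    have h1 := Fr.poinc p (Submodule.le_topologicalClosure _ hp)
    rw [← e1, ← e2, ← mul_pow]
    gcongr
  have hdj : nq (fderiv ℝ ψ) ≤ nq (jac ψ) := by
    have := nq_mono (g := fderiv ℝ ψ) (h := jac ψ) fjψ zero_le_one
      (fun x => by rw [one_mul]; exact norm_fderiv_le_jac x)
    simpa using this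
  -- compositions
  have hc1 : ∫⁻ x, ‖ψ (Φ x)‖ₑ ^ 2 ≤ ENNReal.ofReal 8 * ∫⁻ x, ‖ψ x‖ₑ ^ 2 := by
    have := lint_comp hanti hΦc.measurable (g := fun x => ‖ψ x‖ₑ ^ 2)
      (hψ.smooth.continuous.enorm.measurable.pow_const 2)
    simpa using this
  have hc2 : ∫⁻ x, ‖fderiv ℝ ψ (Φ x)‖ₑ ^ 2 ≤ ENNReal.ofReal 8 * ∫⁻ x, ‖fderiv ℝ ψ x‖ₑ ^ 2 := by
    have := lint_comp hanti hΦc.measurable (g := fun x => ‖fderiv ℝ ψ x‖ₑ ^ 2)
      ((hψ.smooth.continuous_fderiv (by simp)).enorm.measurable.pow_const 2)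
    simpa using this
  have fψΦ : ∫⁻ x, ‖ψ (Φ x)‖ₑ ^ 2 ≠ ⊤ := ne_top_of_le_ne_top (by finiteness) hc1
  have fdψΦ : ∫⁻ x, ‖fderiv ℝ ψ (Φ x)‖ₑ ^ 2 ≠ ⊤ := ne_top_of_le_ne_top (by finiteness) hc2
  have c1 : nq (fun x => ψ (Φ x)) ≤ 8 * nq ψ := nq_le (by norm_num) fψ hc1
  have c2 : nq (fun x => fderiv ℝ ψ (Φ x)) ≤ 8 * nq (fderiv ℝ ψ) := nq_le (by norm_num) fdψ hc2
  have n0 := nq_nonneg (jac ψ)
  have c1' : nq (fun x => ψ (Φ x)) ≤ 8 * (C ^ 2 * nq (jac ψ)) := c1.trans (by gcongr)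
  have c2' : nq (fun x => fderiv ℝ ψ (Φ x)) ≤ 8 * nq (jac ψ) := c2.trans (by gcongr)
  -- the gradient of f
  have hff : nq (fderiv ℝ f) ≤ Q * nq (jac ψ) := by
    have h1 : nq (fderiv ℝ f) ≤ B ^ 2 * nq (fun x => ‖ψ (Φ x)‖ + ‖fderiv ℝ ψ (Φ x)‖) := by
      have cψ : Continuous fun x => ψ (Φ x) := hψ.smooth.continuous.comp hΦc
      have cdψ : Continuous fun x => fderiv ℝ ψ (Φ x) :=
        (hψ.smooth.continuous_fderiv (by simp)).comp hΦc
      refine nq_mono ?_ hB0.le fun x => ?_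
      · have h2 := lint_add (g := fun x => ‖ψ (Φ x)‖ + ‖fderiv ℝ ψ (Φ x)‖)
          (a := fun x => ψ (Φ x)) (b := fun x => fderiv ℝ ψ (Φ x)) cψ (fun x => by
            rw [Real.norm_of_nonneg (by positivity)])
        exact ne_top_of_le_ne_top (by finiteness) h2
      · rw [Real.norm_of_nonneg (by positivity)]
        exact (hBp l hl.le hle1 ψ hψ.smooth x).2
    have h2 : nq (fun x => ‖ψ (Φ x)‖ + ‖fderiv ℝ ψ (Φ x)‖) ≤
        2 * nq (fun x => ‖ψ (Φ x)‖) + 2 * nq (fun x => ‖fderiv ℝ ψ (Φ x)‖) := by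
      refine nq_add (a := fun x => ‖ψ (Φ x)‖) (b := fun x => ‖fderiv ℝ ψ (Φ x)‖)
        (hψ.smooth.continuous.comp hΦc).norm ?_ ?_ fun x => norm_add_le _ _
      · simpa using fψΦ
      · simpa using fdψΦ
    have e1 : nq (fun x => ‖ψ (Φ x)‖) = nq (fun x => ψ (Φ x)) := by simp [nq]
    have e2 : nq (fun x => ‖fderiv ℝ ψ (Φ x)‖) = nq (fun x => fderiv ℝ ψ (Φ x)) := by simp [nq]
    rw [e1, e2] at h2
    calc nq (fderiv ℝ f) ≤ B ^ 2 * (2 * (8 * (C ^ 2 * nq (jac ψ))) + 2 * (8 * nq (jac ψ))) := by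
          refine h1.trans ?_
          gcongr
          linarith
      _ = Q * nq (jac ψ) := by rw [hQ]; ring
  have hjf : nq (jac f) ≤ 4 * Q * nq (jac ψ) := by
    have h1 := nq_mono (g := jac f) (h := fderiv ℝ f) fdf zero_le_two (norm_jac_le f)
    calc nq (jac f) ≤ 2 ^ 2 * nq (fderiv ℝ f) := h1
      _ ≤ 2 ^ 2 * (Q * nq (jac ψ)) := by gcongr
      _ = _ := by ring
  -- the distances
  have d1 : nq (moll δ hδ f - f) ≤ 8 * κ ^ 2 * Q * l ^ 2 * nq (jac ψ) := by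
    have h1 : nq (moll δ hδ f - f) ≤ (8 * δ ^ 2) * nq (fderiv ℝ f) := by
      refine nq_le (by positivity) fdf ?_
      have := moll_dist (δ := δ) (hδ := hδ) hfs hfc
      refine this.trans (le_of_eq ?_)
      rw [ENNReal.ofReal_mul (by norm_num), ENNReal.ofReal_pow hδ.le, ENNReal.ofReal_ofNat]
      ring
    calc nq (moll δ hδ f - f) ≤ (8 * δ ^ 2) * (Q * nq (jac ψ)) := h1.trans (by gcongr)
      _ = 2 * κ ^ 2 * Q * l ^ 2 * nq (jac ψ) := by rw [hδd]; ring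
      _ ≤ 8 * κ ^ 2 * Q * l ^ 2 * nq (jac ψ) := by
          have : 0 ≤ κ ^ 2 * Q * l ^ 2 * nq (jac ψ) := by positivity
          linarith
  have d2 : nq (fun x => f x - ψ (Φ x)) ≤ 8 * B ^ 2 * C ^ 2 * l ^ 2 * nq (jac ψ) := by
    have h1 := nq_mono (g := fun x => f x - ψ (Φ x)) (h := fun x => ψ (Φ x)) fψΦ
      (c := B * l) (by positivity) (fun x => (hBp l hl.le hle1 ψ hψ.smooth x).1)
    calc nq (fun x => f x - ψ (Φ x)) ≤ (B * l) ^ 2 * (8 * (C ^ 2 * nq (jac ψ))) :=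
          h1.trans (by gcongr)
      _ = _ := by ring
  have d3 : nq (fun x => ψ (Φ x) - ψ x) ≤ 8 * B ^ 2 * l ^ 2 * nq (jac ψ) := by
    have h1 : nq (fun x => ψ (Φ x) - ψ x) ≤ (8 * (l * B) ^ 2) * nq (fderiv ℝ ψ) := by
      refine nq_le (by positivity) fdψ ?_
      have := path_le (ψ := ψ) (hψ.smooth.of_le (by simp)) hlip hbd
      refine this.trans (le_of_eq ?_)
      have hlB0 : 0 ≤ l * B := by positivity
      have e8 : ENNReal.ofReal (8 * (l * B) ^ 2) = 8 * ENNReal.ofReal (l * B) ^ 2 := by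
        rw [ENNReal.ofReal_mul (by norm_num), ENNReal.ofReal_pow hlB0, ENNReal.ofReal_ofNat]
      rw [e8]
      ring
    calc nq (fun x => ψ (Φ x) - ψ x) ≤ (8 * (l * B) ^ 2) * nq (jac ψ) := h1.trans (by gcongr)
      _ = _ := by ring
  refine ⟨?_, ?_, fun x => ?_⟩
  · have cψ : Continuous fun x => ψ (Φ x) := hψ.smooth.continuous.comp hΦc
    have cm : Continuous (moll δ hδ f) := (moll_smooth hfs hfc).continuous
    have s1 : nq (fun x => f x - ψ x) ≤ 2 * nq (fun x => f x - ψ (Φ x)) +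
        2 * nq (fun x => ψ (Φ x) - ψ x) := by
      refine nq_add (a := fun x => f x - ψ (Φ x)) (b := fun x => ψ (Φ x) - ψ x)
        (hfs.continuous.sub cψ) ?_ ?_ fun x => ?_
      · refine ne_top_of_le_ne_top ?_ (lintegral_mono (g := fun x =>
          ENNReal.ofReal ((B * l) ^ 2) * ‖ψ (Φ x)‖ₑ ^ 2) fun x => ?_)
        · rw [lintegral_const_mul' _ _ ENNReal.ofReal_ne_top]
          finiteness
        · show ‖f x - ψ (Φ x)‖ₑ ^ 2 ≤ ENNReal.ofReal ((B * l) ^ 2) * ‖ψ (Φ x)‖ₑ ^ 2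
          rw [← ofReal_norm, ← ofReal_norm, ← ENNReal.ofReal_pow (norm_nonneg _),
            ← ENNReal.ofReal_pow (norm_nonneg _), ← ENNReal.ofReal_mul (by positivity)]
          refine ENNReal.ofReal_le_ofReal ?_
          calc ‖f x - ψ (Φ x)‖ ^ 2 ≤ (B * l * ‖ψ (Φ x)‖) ^ 2 := by
                gcongr
                exact (hBp l hl.le hle1 ψ hψ.smooth x).1
            _ = _ := by ring
      · refine ne_top_of_le_ne_top ?_ (path_le (ψ := ψ) (hψ.smooth.of_le (by simp)) hlip hbd)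
        finiteness
      · calc ‖f x - ψ x‖ = ‖(f x - ψ (Φ x)) + (ψ (Φ x) - ψ x)‖ := by rw [sub_add_sub_cancel]
          _ ≤ _ := norm_add_le _ _
    have s2 : nq (moll δ hδ f - ψ) ≤ 2 * nq (moll δ hδ f - f) + 2 * nq (fun x => f x - ψ x) := by
      refine nq_add (a := moll δ hδ f - f) (b := fun x => f x - ψ x) (cm.sub hfs.continuous)
        ?_ ?_ fun x => ?_
      · exact nq_fin (cm.sub hfs.continuous) (htest.compact.sub hfc)
      · exact nq_fin (hfs.continuous.sub hψ.smooth.continuous) (hfc.sub hψ.compact)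
      · show ‖moll δ hδ f x - ψ x‖ ≤ ‖moll δ hδ f x - f x‖ + ‖f x - ψ x‖
        calc ‖moll δ hδ f x - ψ x‖ = ‖(moll δ hδ f x - f x) + (f x - ψ x)‖ := by
              rw [sub_add_sub_cancel]
          _ ≤ _ := norm_add_le _ _
    have p1 : 0 ≤ l ^ 2 * nq (jac ψ) := by positivity
    have p2 : 0 ≤ (4 * (8 * κ ^ 2 * Q) - 2 * (8 * κ ^ 2 * Q) + 4 * Q + 32 * cB / κ ^ 3 * Q) *
        (l ^ 2 * nq (jac ψ)) := by
      have : 0 ≤ 4 * (8 * κ ^ 2 * Q) - 2 * (8 * κ ^ 2 * Q) + 4 * Q + 32 * cB / κ ^ 3 * Q := by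
        have h1 : 0 ≤ 2 * (8 * κ ^ 2 * Q) := by positivity
        have h2 : 0 ≤ 4 * Q + 32 * cB / κ ^ 3 * Q := by positivity
        linarith
      positivity
    nlinarith
  · have h1 : nq (jac (moll δ hδ f)) ≤ 1 * nq (jac f) := by
      refine nq_le zero_le_one fjf ?_
      simpa using moll_grad (δ := δ) (hδ := hδ) hfs hfc
    have p2 : 0 ≤ (4 * (8 * κ ^ 2 * Q) + 32 * B ^ 2 * (C ^ 2 + 1) + 32 * cB / κ ^ 3 * Q) *
        nq (jac ψ) := by positivity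
    nlinarith
  · have h1 := moll_sup (δ := δ) (hδ := hδ) hfs hfc x
    have h2 := ENNReal.toReal_mono (ENNReal.mul_ne_top ENNReal.ofReal_ne_top fjf) h1
    rw [ENNReal.toReal_pow, toReal_enorm, ENNReal.toReal_mul,
      ENNReal.toReal_ofReal (by positivity)] at h2
    have h3 : ‖jac (moll δ hδ f) x‖ ^ 2 ≤ cB / δ ^ 3 * (4 * Q * nq (jac ψ)) :=
      h2.trans (by gcongr; exact hjf)
    have h4 : ‖jac (moll δ hδ f) x‖ ^ 2 * l ^ 3 ≤ 32 * cB / κ ^ 3 * Q * nq (jac ψ) := by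
      calc ‖jac (moll δ hδ f) x‖ ^ 2 * l ^ 3 ≤ cB / δ ^ 3 * (4 * Q * nq (jac ψ)) * l ^ 3 := by
            gcongr
        _ = 32 * cB / κ ^ 3 * Q * nq (jac ψ) := by
            rw [hδd]
            field_simp
            ring
    have p2 : 0 ≤ (4 * (8 * κ ^ 2 * Q) + 32 * B ^ 2 * (C ^ 2 + 1) + 4 * Q) * nq (jac ψ) := by
      positivity
    nlinarith

end Pool.Agent.J4H18.LT
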