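import Pool.Agent.J4H18.LT.D1
import Pool.Agent.J4H18.LT.PubDef

/-!
The singular times form a null set for Hausdorff measures whose gauge is larger than `√r` by a
power of the logarithm.
-/

set_option autoImplicit false

open MeasureTheory Set
open scoped InnerProductSpace ENNReal ContDiff

namespace Pool.Agent.J4H18.LT.Fin

open H772R2.NS.Pub Pool.Agent.W795.TQ
open Pool.Agent.W795.HE (StrongEnergy RegularTime)
open Pool.Agent.J4H18.LT (IsSmoothBounded gaugeMeasure SingularTimes)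

/-- Let `Ω` be a bounded open set with smooth boundary and let `u` be a Leray-Hopf solution on
`[0,T]` with the strong energy inequality, with viscosity `ν` and force
`⟨f(t), φ⟩ = (F(t), ∇φ)`, `F ∈ H¹(0,T; L²)`; `G = ∇u`. Let `S` be the set of its singular times.

1. `S` is a null set for the Hausdorff measure of every gauge `h` such that `√r / h(r)` is
nondecreasing near `0` and
`liminf_{r → 0} h(r) (1 + log(1 + |log r|))⁵ / (√r |log r|^{5/2}) = 0`.

2. In particular, `S` is a null set for the Hausdorff measure of the gauge `√r |log r|^β`, for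
every `β ∈ [0,5/2)`. -/
theorem result (Ω : Set R3) (hΩ : IsSmoothBounded Ω) (ν T : ℝ) (hν : 0 < ν) (hT : 0 < T)
    (F F' : ℝ → L2 Ω Mat) (hF : IsH1 T F F') (u : ℝ → L2 Ω R3) (G : ℝ → L2 Ω Mat)
    (hu : IsLerayHopf Ω ν T F u G) (hse : StrongEnergy ν T F u G) :
    (∀ (h : ℝ → ℝ) (r₀ : ℝ), 0 < r₀ → (∀ r ∈ Ioc 0 r₀, 0 < h r) →
      MonotoneOn (fun r => √r / h r) (Ioc 0 r₀) →
      (∀ η > 0, ∀ ρ > 0, ∃ r ∈ Ioo 0 ρ, h r * (1 + Real.log (1 + |Real.log r|)) ^ 5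
        ≤ η * (√r * |Real.log r| ^ (5 / 2 : ℝ))) →
      gaugeMeasure h (SingularTimes T G) = 0) ∧
    ∀ β : ℝ, 0 ≤ β → β < 5 / 2 →
      gaugeMeasure (fun r => √r * |Real.log r| ^ β) (SingularTimes T G) = 0 := by
  obtain ⟨hb, ρ, hρ, hρΩ, hg⟩ := hΩ
  have key : ∀ (h : ℝ → ℝ) (r₀ : ℝ), 0 < r₀ → (∀ r ∈ Ioc 0 r₀, 0 < h r) →
      MonotoneOn (fun r => √r / h r) (Ioc 0 r₀) →
      (∀ η > 0, ∀ ρ > 0, ∃ r ∈ Ioo 0 ρ, h r * (1 + Real.log (1 + |Real.log r|)) ^ 5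
        ≤ η * (√r * |Real.log r| ^ (5 / 2 : ℝ))) →
      gaugeMeasure h (SingularTimes T G) = 0 := fun h r₀ h1 h2 h3 h4 =>
    (Pool.Agent.J4H18.LT.mid hρ hρΩ hb hg hν hT hF.memLp hF.prim hu hse h1 h2 h3 h4).mk
  refine ⟨key, fun β hβ0 hβ => ?_⟩
  refine key _ (1 / 2) (by norm_num) (fun r hr => ?_) (Pool.Agent.J4H18.LT.gauge_mono hβ0)
    fun η hη ρ hρ => Pool.Agent.J4H18.LT.gauge_small hβ hη hρ
  have h1 : Real.log r < 0 := Real.log_neg hr.1 (by linarith [hr.2])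
  have h2 : 0 < |Real.log r| ^ β := Real.rpow_pos_of_pos (abs_pos.2 h1.ne) _
  have h3 := Real.sqrt_pos.2 hr.1
  positivity

end Pool.Agent.J4H18.LT.Fin
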