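import Pool.Agent.J4H18.EX.C2
import Pool.Agent.J4H18.EX.PubDef

/-!
Partial regularity in time: weak solutions are strong off a closed set of times which is a null set
for Hausdorff measures whose gauge is larger than `√r` by a power of the logarithm.
-/

set_option autoImplicit false

open MeasureTheory Set
open scoped InnerProductSpace ENNReal ContDiff

namespace Pool.Agent.Results.MP_fd8964_an.PartialRegularity

open H772R2.NS.Pub Pool.Agent.W795.TQ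
open Pool.Agent.W795.HE (StrongEnergy RegularTime)
open Pool.Agent.J4H18.LT (IsSmoothBounded gaugeMeasure SingularTimes)
open Pool.Agent.J4H18.EX (IsLogGauge)

theorem null (Ω : Set R3) (hΩ : IsSmoothBounded Ω) (ν T : ℝ) (hν : 0 < ν) (hT : 0 < T)
    (F F' : ℝ → L2 Ω Mat) (hF : IsH1 T F F') (u : ℝ → L2 Ω R3) (G : ℝ → L2 Ω Mat)
    (hu : IsLerayHopf Ω ν T F u G) (hse : StrongEnergy ν T F u G) (h : ℝ → ℝ)
    (hh : IsLogGauge h) : gaugeMeasure h (SingularTimes T G) = 0 := by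
  obtain ⟨hb, ρ, hρ, hρΩ, hg⟩ := hΩ
  obtain ⟨r₀, h1, h2, h3, h4⟩ := hh
  exact (Pool.Agent.J4H18.LT.mid hρ hρΩ hb hg hν hT hF.memLp hF.prim hu hse h1 h2 h3 h4).mk

theorem isOpen_of (Ω : Set R3) (hΩ : IsSmoothBounded Ω) : IsOpen Ω := by
  obtain ⟨hb, ρ, hρ, hρΩ, hg⟩ := hΩ
  rw [hρΩ]
  exact isOpen_lt hρ.continuous continuous_const

theorem gauge {β : ℝ} (hβ0 : 0 ≤ β) (hβ : β < 5 / 2) :
    IsLogGauge fun r => √r * |Real.log r| ^ β := by
  refine ⟨1 / 2, by norm_num, fun r hr => ?_, Pool.Agent.J4H18.LT.gauge_mono hβ0,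
    fun η hη ρ hρ => Pool.Agent.J4H18.LT.gauge_small hβ hη hρ⟩
  have h1 : Real.log r < 0 := Real.log_neg hr.1 (by linarith [hr.2])
  have h2 : 0 < |Real.log r| ^ β := Real.rpow_pos_of_pos (abs_pos.2 h1.ne) _
  have h3 := Real.sqrt_pos.2 hr.1
  positivity

/-- Let `Ω` be a bounded open set with smooth boundary, `ν > 0`, let the force be given by
`⟨f(t), φ⟩ = (F(t), ∇φ)` with `F ∈ H¹(0,T; L²)` for every `T > 0`, and let `u₀ ∈ V` with gradient
`G₀` satisfy the compatibility condition at `t = 0`: the right-hand side of the equation at the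
state `u₀` is in `L²`. There are solutions `u` on `[0,∞)` with `u(0) = u₀` that are Leray-Hopf
solutions with the strong energy inequality on every `[0,T]`. For every such `u`, `G = ∇u`, there
are a closed set `S ⊆ (0,∞)` and a function `G₁`, equal to `G` almost everywhere, such that

* `u` is a strong solution with gradient `G₁` on every compact interval `[a,b] ⊆ [0,∞)` disjoint
  from `S`; in particular `∂_t u ∈ L²(a,b; V) ∩ L^∞(a,b; L²)`;
* `S` is a null set for the Hausdorff measure of every gauge in `IsLogGauge`, in particular of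
  `√r |log r|^β` for every `β ∈ [0,5/2)`. -/
theorem result (Ω : Set R3) (hΩ : IsSmoothBounded Ω) (ν : ℝ) (hν : 0 < ν)
    (F F' : ℝ → L2 Ω Mat) (hF : ∀ T, 0 < T → IsH1 T F F') (u₀ : L2 Ω R3) (G₀ : L2 Ω Mat)
    (h₀ : (u₀, G₀) ∈ H1graph Ω)
    (hc : ∃ h : L2 Ω R3, ∀ φ, IsTest Ω φ → rhs ν u₀ G₀ (F 0) φ = ∫ x in Ω, ⟪h.fn x, φ x⟫_ℝ) :
    (∃ (u : ℝ → L2 Ω R3) (G : ℝ → L2 Ω Mat), u 0 = u₀ ∧
      ∀ T, 0 < T → IsLerayHopf Ω ν T F u G ∧ StrongEnergy ν T F u G) ∧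
    ∀ (u : ℝ → L2 Ω R3) (G : ℝ → L2 Ω Mat), u 0 = u₀ →
      (∀ T, 0 < T → IsLerayHopf Ω ν T F u G ∧ StrongEnergy ν T F u G) →
      ∃ (S : Set ℝ) (G₁ : ℝ → L2 Ω Mat), IsClosed S ∧ S ⊆ Ioi 0 ∧
        (∀ T, 0 < T → ∀ᵐ t ∂(volume.restrict (Ioc 0 T)), G₁ t = G t) ∧
        (∀ a b : ℝ, 0 ≤ a → a < b → Disjoint (Icc a b) S →
          ∃ (u' : ℝ → L2 Ω R3) (G' : ℝ → L2 Ω Mat), IsStrong Ω ν (b - a) (fun t => F (a + t))
            (fun t => u (a + t)) u' (fun t => G₁ (a + t)) G') ∧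
        (∀ h : ℝ → ℝ, IsLogGauge h → gaugeMeasure h S = 0) ∧
        ∀ β : ℝ, 0 ≤ β → β < 5 / 2 → gaugeMeasure (fun r => √r * |Real.log r| ^ β) S = 0 := by
  have hb := hΩ.1
  have hΩo := isOpen_of Ω hΩ
  obtain ⟨h, hh⟩ := hc
  refine ⟨?_, fun u G hu0 hu => ?_⟩
  · exact Pool.Agent.J4H18.EX.ex_mid hΩo hb hν
      (H772R2.NS.Pub.mem_pub.mpr h₀) (fun T hT => (hF T hT).memLp)
      (fun a b ha hab => (hF (b + 1) (by linarith)).prim a b ha hab (by linarith))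
      ⟨h, fun φ hφ => hh φ ((H772R2.NS.Pub.isTest_iff φ).mpr hφ)⟩
  · obtain ⟨S, G₁, h3, h4, h5, h6, h7⟩ := Pool.Agent.J4H18.EX.all_mid hΩo hb hν
      (H772R2.NS.Pub.mem_pub.mpr h₀) (fun T hT => (hF T hT).memLp)
      (fun a b ha hab => (hF (b + 1) (by linarith)).prim a b ha hab (by linarith))
      ⟨h, fun φ hφ => hh φ ((H772R2.NS.Pub.isTest_iff φ).mpr hφ)⟩ hu0 hu
    have key : ∀ h : ℝ → ℝ, IsLogGauge h → gaugeMeasure h S = 0 := by
      intro k hk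
      have hsub : S ⊆ ⋃ n : ℕ, SingularTimes ((n : ℝ) + 1) G := by
        intro τ hτ
        have hτ0 : 0 < τ := h4 hτ
        obtain ⟨n, hn⟩ := exists_nat_ge τ
        refine mem_iUnion.2 ⟨n, ?_⟩
        have h9 := h5 ((n : ℝ) + 1) (by positivity)
        have h8 : τ ∈ S ∩ Ioc 0 ((n : ℝ) + 1) := ⟨hτ, hτ0, by linarith⟩
        rw [h9] at h8
        exact h8
      refine measure_mono_null hsub (measure_iUnion_null fun n => ?_)
      have hn : (0 : ℝ) < (n : ℝ) + 1 := by positivity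
      exact null Ω hΩ ν _ hν hn F F' (hF _ hn) u G (hu _ hn).1 (hu _ hn).2 k hk
    exact ⟨S, G₁, h3, h4, h6, h7, key, fun β hβ0 hβ => key _ (gauge hβ0 hβ)⟩

end Pool.Agent.Results.MP_fd8964_an.PartialRegularity
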